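import Mathlib

/-! Reduced forms in amalgamated products and subgroups of amalgamated products. -/

namespace Pool.Agent.Lib.MP_5a5e3d_al

open Monoid Monoid.PushoutI Function

section Red

variable {ι : Type} {C : Type} [Group C] {G : ι → Type} [∀ i, Group (G i)]

/-- `Red φ s p`: the element `p` has a reduced form whose first letter lies in factor `s`. -/
inductive Red (φ : ∀ i, C →* G i) : Option ι → PushoutI φ → Prop
  | base (c : C) : Red φ none (PushoutI.base φ c)
  | cons (i : ι) (g : G i) (s : Option ι) (p : PushoutI φ) :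
      g ∉ (φ i).range → Red φ s p → s ≠ some i → Red φ (some i) (PushoutI.of i g * p)

variable {φ : ∀ i, C →* G i}

lemma Red.exists_normalWord (d : NormalWord.Transversal φ) {s : Option ι} {p : PushoutI φ}
    (h : Red φ s p) : ∃ w : NormalWord d, w.prod = p ∧ w.fstIdx = s := by
  induction h with
  | base c => exact ⟨⟨.empty, c, by simp⟩, by simp [NormalWord.prod], rfl⟩
  | cons i g s p hg _ hs ih =>
    obtain ⟨w, hw, hw'⟩ := ih
    refine ⟨NormalWord.cons g w (hw' ▸ hs) hg, by rw [NormalWord.prod_cons, hw], ?_⟩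
    simp [CoprodI.Word.fstIdx]

lemma Red.unique (hφ : ∀ i, Injective (φ i)) {s s' : Option ι} {p : PushoutI φ}
    (h : Red φ s p) (h' : Red φ s' p) : s = s' := by
  obtain ⟨d⟩ := NormalWord.transversal_nonempty φ hφ
  obtain ⟨w, hw, rfl⟩ := h.exists_normalWord d
  obtain ⟨w', hw', rfl⟩ := h'.exists_normalWord d
  rw [NormalWord.prod_injective (hw.trans hw'.symm)]

lemma Red.base_mul {s : Option ι} {p : PushoutI φ} (h : Red φ s p) (c : C) :
    Red φ s (PushoutI.base φ c * p) := by
  cases h with
  | base c' => rw [← map_mul]; exact Red.base _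
  | cons i g s p hg hp hs =>
    rw [← mul_assoc, ← of_apply_eq_base φ i, ← map_mul]
    refine Red.cons i _ s p (fun h => hg ?_) hp hs
    exact (Subgroup.mul_mem_cancel_left (φ i).range (MonoidHom.mem_range.2 ⟨c, rfl⟩)).1 h

lemma Red.of_mul_aux {s : Option ι} {p : PushoutI φ} (h : Red φ s p) (i : ι) (g : G i)
    (hs : s ≠ some i) : ∃ s', Red φ s' (PushoutI.of i g * p) := by
  by_cases hg : g ∈ (φ i).range
  · obtain ⟨c, rfl⟩ := hg
    rw [of_apply_eq_base]
    exact ⟨s, h.base_mul c⟩
  · exact ⟨_, Red.cons i g s p hg h hs⟩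

lemma Red.of_mul {s : Option ι} {p : PushoutI φ} (h : Red φ s p) (i : ι) (g : G i) :
    ∃ s', Red φ s' (PushoutI.of i g * p) := by
  by_cases hs : s = some i
  · subst hs
    cases h with
    | cons _ g' s p hg hp hs =>
      rw [← mul_assoc, ← map_mul]
      exact hp.of_mul_aux i _ hs
  · exact h.of_mul_aux i g hs

lemma exists_red (p : PushoutI φ) : ∃ s, Red φ s p := by
  have key : ∀ q : PushoutI φ, ∀ p : PushoutI φ, (∃ s, Red φ s p) → ∃ s, Red φ s (q * p) := by
    intro q
    induction q using PushoutI.induction_on with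
    | of i g => rintro p ⟨s, hs⟩; exact hs.of_mul i g
    | base c => rintro p ⟨s, hs⟩; exact ⟨s, hs.base_mul c⟩
    | mul x y hx hy => intro p hp; rw [mul_assoc]; exact hx _ (hy _ hp)
  have := key p 1 ⟨none, by simpa using Red.base (φ := φ) 1⟩
  rwa [mul_one] at this

lemma Red.first_letter (hφ : ∀ i, Injective (φ i)) {i : ι} {g g' : G i} {s s' : Option ι}
    {p p' : PushoutI φ} (hp : Red φ s p) (hp' : Red φ s' p') (hs : s ≠ some i)
    (hs' : s' ≠ some i) (h : PushoutI.of i g * p = PushoutI.of i g' * p') :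
    g'⁻¹ * g ∈ (φ i).range := by
  by_contra hg
  have h1 := Red.cons i _ s p hg hp hs
  rw [map_mul, map_inv, mul_assoc, h, inv_mul_cancel_left] at h1
  exact hs' (hp'.unique hφ h1)

end Red

section Mor

variable {ι : Type} {C : Type} [Group C] {G : ι → Type} [∀ i, Group (G i)]
variable {C' : Type} [Group C'] {G' : ι → Type} [∀ i, Group (G' i)]

/-- A morphism of amalgam diagrams that sends non-base letters to non-base letters. -/
structure Mor (φ' : ∀ i, C' →* G' i) (φ : ∀ i, C →* G i) where
  /-- the map on the base groups -/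
  bs : C' →* C
  /-- the maps on the factors -/
  fac : ∀ i, G' i →* G i
  comm : ∀ i c, fac i (φ' i c) = φ i (bs c)
  pull : ∀ i g, fac i g ∈ (φ i).range → g ∈ (φ' i).range

variable {φ : ∀ i, C →* G i} {φ' : ∀ i, C' →* G' i}

/-- The induced map of amalgamated products. -/
def Mor.map (m : Mor φ' φ) : PushoutI φ' →* PushoutI φ :=
  PushoutI.lift (fun i => (PushoutI.of i).comp (m.fac i)) ((PushoutI.base φ).comp m.bs)
    (fun i => by ext c; simp [m.comm, of_apply_eq_base])

@[simp] lemma Mor.map_of (m : Mor φ' φ) (i : ι) (g : G' i) :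
    m.map (PushoutI.of i g) = PushoutI.of i (m.fac i g) := by simp [Mor.map]

@[simp] lemma Mor.map_base (m : Mor φ' φ) (c : C') :
    m.map (PushoutI.base φ' c) = PushoutI.base φ (m.bs c) := by simp [Mor.map]

lemma Red.map (m : Mor φ' φ) {s : Option ι} {p : PushoutI φ'} (h : Red φ' s p) :
    Red φ s (m.map p) := by
  induction h with
  | base c => rw [m.map_base]; exact Red.base _
  | cons i g s p hg _ hs ih =>
    rw [map_mul, m.map_of]
    exact Red.cons i _ s _ (fun h => hg (m.pull i g h)) ih hs

lemma Mor.map_injective (m : Mor φ' φ) (hφ : ∀ i, Injective (φ i)) (hb : Injective m.bs) :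
    Injective m.map := by
  rw [injective_iff_map_eq_one]
  intro p hp
  obtain ⟨s, hs⟩ := exists_red p
  have h1 := hs.map m
  have h2 : Red φ none (m.map p) := by rw [hp]; simpa using Red.base (φ := φ) 1
  obtain rfl := h1.unique hφ h2
  cases hs with
  | base c =>
    rw [m.map_base] at hp
    have h3 : m.bs c = 1 := PushoutI.base_injective hφ (by rw [hp, map_one])
    have h4 : c = 1 := hb (by rw [h3, map_one])
    rw [h4, map_one]

variable {B : ι → Type} [∀ i, Group (B i)] {ψ : ∀ i, Unit →* B i}

/-- Intersection of the images of two amalgams, the second one being a free product. -/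
lemma inter_aux (hφ : ∀ i, Injective (φ i)) (m : Mor φ' φ) (j : Mor ψ φ)
    (S : Subgroup (PushoutI ψ))
    (hS : ∀ i (c' : C') (x : B i) (g : G' i) (c : C),
      φ i (m.bs c') * j.fac i x = m.fac i g * φ i c →
        c ∈ m.bs.range ∧ PushoutI.of (φ := ψ) i x ∈ S)
    {s : Option ι} {f : PushoutI ψ} (hf : Red ψ s f) :
    ∀ (c' : C') (g : PushoutI φ'), PushoutI.base φ (m.bs c') * j.map f = m.map g → f ∈ S := by
  induction hf with
  | base c => intro _ _ _; rw [show c = 1 from rfl, map_one]; exact S.one_mem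
  | cons i x s f hx hf hs ih =>
    intro c' g h
    have h1 : Red φ (some i) (m.map g) := by
      rw [← h]
      exact ((Red.cons i x s f hx hf hs).map j).base_mul _
    obtain ⟨s', hg⟩ := exists_red g
    obtain rfl := (hg.map m).unique hφ h1
    cases hg with
    | cons _ g1 s2 g2 hg1 hg2 hs2 =>
      rw [map_mul, map_mul, j.map_of, m.map_of, ← mul_assoc, ← of_apply_eq_base φ i,
        ← map_mul] at h
      obtain ⟨c, hc⟩ := Red.first_letter hφ (hf.map j) (hg2.map m) hs hs2 h
      have h2 : φ i (m.bs c') * j.fac i x = m.fac i g1 * φ i c := by rw [hc]; group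
      obtain ⟨⟨c'', rfl⟩, hx'⟩ := hS i c' x g1 c h2
      refine S.mul_mem hx' (ih c'' g2 ?_)
      rw [h2, map_mul, mul_assoc, mul_right_inj, of_apply_eq_base] at h
      exact h

lemma inter (hφ : ∀ i, Injective (φ i)) (m : Mor φ' φ) (j : Mor ψ φ)
    (S : Subgroup (PushoutI ψ))
    (hS : ∀ i (c' : C') (x : B i) (g : G' i) (c : C),
      φ i (m.bs c') * j.fac i x = m.fac i g * φ i c →
        c ∈ m.bs.range ∧ PushoutI.of (φ := ψ) i x ∈ S)
    (f : PushoutI ψ) (g : PushoutI φ') (h : j.map f = m.map g) : f ∈ S := by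
  obtain ⟨s, hs⟩ := exists_red f
  exact inter_aux hφ m j S hS hs 1 g (by simpa using h)

end Mor

end Pool.Agent.Lib.MP_5a5e3d_al
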