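import Mathlib
import Pool.Agent.Lib.MP_5a5e3d_al.Amal

/-! Affine groups `R ⋊ ℤ` (soluble Baumslag-Solitar groups when `R = ℤ[1/k]`). -/

namespace Pool.Agent.Lib.MP_5a5e3d_al

open Monoid Function Multiplicative

/-- The group `R ⋊ ℤ`, where the generator of `ℤ` acts by the unit `u`. -/
@[ext] structure Aff {R : Type} [CommRing R] (u : Rˣ) where
  /-- translation part -/
  x : R
  /-- exponent of the stable letter -/
  n : ℤ

section

variable {R : Type} [CommRing R] {u : Rˣ}

instance : Mul (Aff u) := ⟨fun a b => ⟨((u ^ b.n : Rˣ) : R) * a.x + b.x, a.n + b.n⟩⟩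
instance : One (Aff u) := ⟨⟨0, 0⟩⟩
instance : Inv (Aff u) := ⟨fun a => ⟨-(((u ^ (-a.n) : Rˣ) : R) * a.x), -a.n⟩⟩

@[simp] lemma Aff.mul_x (a b : Aff u) : (a * b).x = ((u ^ b.n : Rˣ) : R) * a.x + b.x := rfl
@[simp] lemma Aff.mul_n (a b : Aff u) : (a * b).n = a.n + b.n := rfl
@[simp] lemma Aff.one_x : (1 : Aff u).x = 0 := rfl
@[simp] lemma Aff.one_n : (1 : Aff u).n = 0 := rfl
@[simp] lemma Aff.inv_x (a : Aff u) : (a⁻¹).x = -(((u ^ (-a.n) : Rˣ) : R) * a.x) := rfl
@[simp] lemma Aff.inv_n (a : Aff u) : (a⁻¹).n = -a.n := rfl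

instance : Group (Aff u) :=
  Group.ofLeftAxioms
    (fun a b c => by
      ext
      · simp only [Aff.mul_x, Aff.mul_n, zpow_add, Units.val_mul]; ring
      · simp only [Aff.mul_n]; ring)
    (fun a => by ext <;> simp)
    (fun a => by
      ext
      · simp only [Aff.mul_x, Aff.inv_x, Aff.one_x, mul_neg, ← mul_assoc, ← Units.val_mul,
          ← zpow_add, add_neg_cancel, zpow_zero, Units.val_one, one_mul, neg_add_cancel]
      · simp)

/-- The stable letter. -/
def hyp (u : Rˣ) : Multiplicative ℤ →* Aff u where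
  toFun n := ⟨0, n.toAdd⟩
  map_one' := rfl
  map_mul' a b := by ext <;> simp

/-- The translation by one. -/
def uni (u : Rˣ) : Multiplicative ℤ →* Aff u where
  toFun n := ⟨(n.toAdd : ℤ), 0⟩
  map_one' := by ext <;> simp
  map_mul' a b := by ext <;> simp

@[simp] lemma hyp_x (n : Multiplicative ℤ) : (hyp u n).x = 0 := rfl
@[simp] lemma hyp_n (n : Multiplicative ℤ) : (hyp u n).n = n.toAdd := rfl
@[simp] lemma uni_x (n : Multiplicative ℤ) : (uni u n).x = ((n.toAdd : ℤ) : R) := rfl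
@[simp] lemma uni_n (n : Multiplicative ℤ) : (uni u n).n = 0 := rfl

/-- One of the two cyclic subgroups. -/
def gen (u : Rˣ) : Bool → (Multiplicative ℤ →* Aff u)
  | true => uni u
  | false => hyp u

/-- Multiplication by `e` on the infinite cyclic group. -/
def pw (e : ℤ) : Multiplicative ℤ →* Multiplicative ℤ where
  toFun n := ofAdd (e * n.toAdd)
  map_one' := by simp
  map_mul' a b := by simp [mul_add, ofAdd_add]

@[simp] lemma toAdd_pw (e : ℤ) (n : Multiplicative ℤ) : (pw e n).toAdd = e * n.toAdd := rfl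

lemma mem_range_pw {e : ℤ} {c : Multiplicative ℤ} (h : e ∣ c.toAdd) : c ∈ (pw e).range := by
  obtain ⟨d, hd⟩ := h
  exact ⟨ofAdd d, toAdd.injective (by simp [hd])⟩

lemma pw_injective {e : ℤ} (he : e ≠ 0) : Injective (pw e) := by
  intro a b h
  have := congrArg toAdd h
  simp only [toAdd_pw] at this
  exact toAdd.injective (mul_left_cancel₀ he this)

/-- The embedding generated by the `e`-th powers. -/
def scale (u : Rˣ) (e : ℤ) : Aff (u ^ e) →* Aff u where
  toFun a := ⟨e * a.x, e * a.n⟩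
  map_one' := by ext <;> simp
  map_mul' a b := by
    ext
    · simp only [Aff.mul_x, zpow_mul]; ring
    · simp only [Aff.mul_n]; ring

@[simp] lemma scale_x (e : ℤ) (a : Aff (u ^ e)) : (scale u e a).x = e * a.x := rfl
@[simp] lemma scale_n (e : ℤ) (a : Aff (u ^ e)) : (scale u e a).n = e * a.n := rfl

lemma scale_gen (e : ℤ) (τ : Bool) (c : Multiplicative ℤ) :
    scale u e (gen (u ^ e) τ c) = gen u τ (pw e c) := by
  cases τ <;> ext <;> simp [gen]

/-- Arithmetic hypotheses on the coefficient ring. -/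
structure Good (R : Type) [CommRing R] (e : ℤ) : Prop where
  ne : e ≠ 0
  inj : Injective (Int.cast : ℤ → R)
  reg : ∀ y : R, (e : R) * y = 0 → y = 0
  dvd : ∀ (n : ℤ) (y : R), (n : R) = e * y → e ∣ n

lemma gen_injective (hR : Injective (Int.cast : ℤ → R)) (τ : Bool) : Injective (gen u τ) := by
  intro a b h
  cases τ
  · exact toAdd.injective (congrArg Aff.n h)
  · exact toAdd.injective (hR (congrArg Aff.x h))

lemma gen_not_mem (hR : Injective (Int.cast : ℤ → R)) (τ : Bool) (c : Multiplicative ℤ)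
    (h : gen u (!τ) c ∈ (gen u τ).range) : c = 1 := by
  obtain ⟨d, hd⟩ := h
  cases τ
  · have := congrArg Aff.x hd
    simp only [gen, Bool.not_false, hyp_x, uni_x] at this
    exact toAdd.injective (hR (by simpa using this.symm))
  · have := congrArg Aff.n hd
    simp only [gen, Bool.not_true, hyp_n, uni_n] at this
    exact toAdd.injective this.symm

lemma scale_pull {e : ℤ} (hR : Good R e) (τ : Bool) (a : Aff (u ^ e))
    (h : scale u e a ∈ (gen u τ).range) : a ∈ (gen (u ^ e) τ).range := by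
  obtain ⟨d, hd⟩ := h
  have hx := congrArg Aff.x hd
  have hn := congrArg Aff.n hd
  cases τ
  · simp only [gen, hyp_x, scale_x] at hx
    refine ⟨ofAdd a.n, ?_⟩
    ext
    · exact (hR.reg _ hx.symm).symm
    · rfl
  · simp only [gen, uni_x, scale_x] at hx
    simp only [gen, uni_n, scale_n] at hn
    obtain ⟨m, hm⟩ := hR.dvd _ _ hx
    refine ⟨ofAdd m, ?_⟩
    ext
    · have : (e : R) * ((m : R) - a.x) = 0 := by
        rw [mul_sub, ← hx, hm]; push_cast; ring
      simpa [gen, sub_eq_zero] using hR.reg _ this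
    · have := (mul_eq_zero.1 hn.symm).resolve_left hR.ne
      simp [gen, this]

lemma scale_star {e : ℤ} (hR : Good R e) (τ : Bool) (c' x c : Multiplicative ℤ) (a : Aff (u ^ e))
    (h : gen u τ (pw e c') * gen u (!τ) x = scale u e a * gen u τ c) :
    e ∣ c.toAdd ∧ e ∣ x.toAdd := by
  have hx := congrArg Aff.x h
  have hn := congrArg Aff.n h
  cases τ
  · simp only [gen, Bool.not_false, Aff.mul_x, Aff.mul_n, hyp_x, hyp_n, uni_x, uni_n, scale_x,
      scale_n, toAdd_pw, mul_zero, zero_add, add_zero] at hx hn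
    refine ⟨⟨c'.toAdd - a.n, by linear_combination -hn⟩, hR.dvd _ (((u ^ c.toAdd : Rˣ) : R) * a.x) ?_⟩
    rw [hx]; ring
  · simp only [gen, Bool.not_true, Aff.mul_x, Aff.mul_n, hyp_x, hyp_n, uni_x, uni_n, scale_x,
      scale_n, toAdd_pw, mul_zero, zero_add, add_zero, zpow_zero, Units.val_one, one_mul] at hx hn
    refine ⟨hR.dvd _ (((u ^ x.toAdd : Rˣ) : R) * (c'.toAdd : ℤ) - a.x) ?_, ⟨a.n, hn⟩⟩
    push_cast at hx
    linear_combination -hx

lemma hyp_conj_uni (k : ℕ) (hk : (u : R) = k) :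
    (hyp u (ofAdd 1))⁻¹ * uni u (ofAdd 1) * hyp u (ofAdd 1) = uni u (ofAdd 1) ^ k := by
  rw [← map_pow]
  ext
  · simp [hk, -map_pow]
  · simp [-map_pow]

/-- A homomorphism from the affine group to a group `T`, through an abelian quotient. -/
lemma exists_hom_aff {T : Type} [Group T] (v : Rˣ) (p : ℕ) (ρ : R →+* ZMod p)
    (hρ : ρ v = 1) (A B : T) (hAB : Commute A B) (hB : B ^ p = 1) :
    ∃ θ : Aff v →* T, θ (hyp v (ofAdd 1)) = A ∧ θ (uni v (ofAdd 1)) = B := by
  let β : ZMod p →+ Additive T := ZMod.lift p ⟨zmultiplesHom (Additive T) (Additive.ofMul B), by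
    simp only [zmultiplesHom_apply, natCast_zsmul]
    rw [← ofMul_pow, hB]; rfl⟩
  have hβ : ∀ n : ℤ, (β (n : ZMod p)).toMul = B ^ n := by
    intro n
    simp only [β, ZMod.lift_coe, zmultiplesHom_apply]
    rfl
  have hc : ∀ (z : ZMod p) (m : ℤ), Commute (A ^ m) (β z).toMul := by
    intro z m
    obtain ⟨n, rfl⟩ := ZMod.intCast_surjective z
    rw [hβ]
    exact hAB.zpow_zpow m n
  have hv : ∀ m : ℤ, ρ ((v ^ m : Rˣ) : R) = 1 := by
    intro m
    have h1 : Units.map (ρ : R →* ZMod p) v = 1 := Units.ext hρ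
    have h2 : Units.map (ρ : R →* ZMod p) (v ^ m) = 1 := by rw [map_zpow, h1, one_zpow]
    exact congrArg Units.val h2
  refine ⟨MonoidHom.mk' (fun a => (β (ρ a.x)).toMul * A ^ a.n) ?_, ?_, ?_⟩
  · intro a b
    simp only [Aff.mul_x, Aff.mul_n, map_add, map_mul, hv, one_mul, toMul_add, zpow_add]
    rw [mul_assoc, mul_assoc, ← mul_assoc (A ^ a.n), (hc _ _).eq, mul_assoc]
  · simp
  · have := hβ 1
    simp only [Int.cast_one, zpow_one] at this
    simp [this]

end

end Pool.Agent.Lib.MP_5a5e3d_al
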