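import Mathlib

/-! Definitions used in the statement for problem MP_5a5e3d_al. -/

namespace Pool.Agent.Lib.MP_5a5e3d_al

/-- The four relators `x_i⁻¹ x_{i+1} x_i x_{i+1}^{-k_i}`, indices modulo 4. -/
def higmanRels (k : Fin 4 → ℕ) : Set (FreeGroup (Fin 4)) :=
  Set.range fun i : Fin 4 =>
    (FreeGroup.of i)⁻¹ * FreeGroup.of (i + 1) * FreeGroup.of i * (FreeGroup.of (i + 1) ^ k i)⁻¹

/-- The generalised Higman group
`⟨x₀, x₁, x₂, x₃ ∣ x_i⁻¹ x_{i+1} x_i = x_{i+1}^{k_i}⟩`; Higman's group is the case `k = 2`. -/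
abbrev GenHigman (k : Fin 4 → ℕ) : Type := PresentedGroup (higmanRels k)

/-- A group is coherent if every finitely generated subgroup is finitely presented. -/
def IsCoherent (G : Type) [Group G] : Prop :=
  ∀ N : Subgroup G, N.FG → Group.IsFinitelyPresented N

end Pool.Agent.Lib.MP_5a5e3d_al
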