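import Mathlib
import Pool.Agent.Lib.MP_5a5e3d_al.Amal

/-! Graphs of partial homomorphisms in amalgamated products. -/

namespace Pool.Agent.Lib.MP_5a5e3d_al

open Monoid Monoid.PushoutI Function

/-- A subgroup of a product that is the graph of a partial homomorphism. -/
def Fn {G W : Type} [Group G] [Group W] (Γ : Subgroup (G × W)) : Prop :=
  ∀ w, ((1 : G), w) ∈ Γ → w = 1

lemma Fn.eq {G W : Type} [Group G] [Group W] {Γ : Subgroup (G × W)} (h : Fn Γ) {g : G}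
    {w w' : W} (h1 : (g, w) ∈ Γ) (h2 : (g, w') ∈ Γ) : w = w' := by
  have := h (w⁻¹ * w') (by simpa using Γ.mul_mem (Γ.inv_mem h1) h2)
  exact inv_mul_eq_one.1 this

section Pull

variable {ι : Type} {C : Type} [Group C] {G : ι → Type} [∀ i, Group (G i)]
variable {C' : Type} [Group C'] {G' : ι → Type} [∀ i, Group (G' i)]
variable {φ : ∀ i, C →* G i} {φ' : ∀ i, C' →* G' i}

lemma Mor.base_pull (m : Mor φ' φ) (hφ : ∀ i, Injective (φ i)) {p : PushoutI φ'} {c : C}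
    (h : m.map p = PushoutI.base φ c) : ∃ c', p = PushoutI.base φ' c' := by
  obtain ⟨s, hs⟩ := exists_red p
  have h2 : Red φ none (m.map p) := by rw [h]; exact Red.base _
  obtain rfl := (hs.map m).unique hφ h2
  cases hs with
  | base c' => exact ⟨c', rfl⟩

lemma Mor.of_pull (m : Mor φ' φ) (hφ : ∀ i, Injective (φ i)) {p : PushoutI φ'} {i : ι} {g : G i}
    (h : m.map p = PushoutI.of i g) : ∃ g', p = PushoutI.of i g' := by
  by_cases hg : g ∈ (φ i).range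
  · obtain ⟨c, rfl⟩ := hg
    rw [of_apply_eq_base] at h
    obtain ⟨c', rfl⟩ := m.base_pull hφ h
    exact ⟨φ' i c', (of_apply_eq_base φ' i c').symm⟩
  · have h0 : Red φ none (1 : PushoutI φ) := by simpa using Red.base (φ := φ) 1
    have h1 : Red φ (some i) (m.map p) := by
      rw [h, ← mul_one (PushoutI.of i g)]
      exact Red.cons i g none 1 hg h0 (by simp)
    obtain ⟨s, hs⟩ := exists_red p
    obtain rfl := (hs.map m).unique hφ h1
    cases hs with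
    | cons _ g1 s2 p2 hg1 hp2 hs2 =>
      rw [map_mul, m.map_of, ← mul_one (PushoutI.of i g)] at h
      obtain ⟨c, hc⟩ := Red.first_letter hφ h0 (hp2.map m) (by simp) hs2 h.symm
      have h3 : m.map p2 = PushoutI.base φ c := by
        rw [← of_apply_eq_base φ i, hc, map_mul, map_inv, eq_inv_mul_iff_mul_eq, h, mul_one]
      obtain ⟨c', rfl⟩ := m.base_pull hφ h3
      exact ⟨g1 * φ' i c', by rw [map_mul, of_apply_eq_base]⟩

end Pull

section Graph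

variable {ι : Type} {C : Type} [Group C] {G : ι → Type} [∀ i, Group (G i)] {W : Type} [Group W]
variable {φ : ∀ i, C →* G i} {Γ0 : Subgroup (C × W)} {Γ : ∀ i, Subgroup (G i × W)}

/-- The diagram of graphs. -/
def grPhi (h : ∀ i c w, (φ i c, w) ∈ Γ i ↔ (c, w) ∈ Γ0) : ∀ i, Γ0 →* Γ i := fun i =>
  (((φ i).prodMap (MonoidHom.id W)).comp Γ0.subtype).codRestrict (Γ i) fun c =>
    (h i c.1.1 c.1.2).2 c.2

/-- The projection of the diagram of graphs. -/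
def grMor (h : ∀ i c w, (φ i c, w) ∈ Γ i ↔ (c, w) ∈ Γ0) : Mor (grPhi h) φ where
  bs := (MonoidHom.fst C W).comp Γ0.subtype
  fac i := (MonoidHom.fst (G i) W).comp (Γ i).subtype
  comm _ _ := rfl
  pull i g hg := by
    obtain ⟨c, hc⟩ := hg
    obtain ⟨⟨g, w⟩, hg⟩ := g
    obtain rfl : φ i c = g := hc
    exact ⟨⟨(c, w), (h i c w).1 hg⟩, rfl⟩

/-- The second coordinate on the amalgam of the graphs. -/
def grVal (h : ∀ i c w, (φ i c, w) ∈ Γ i ↔ (c, w) ∈ Γ0) : PushoutI (grPhi h) →* W :=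
  PushoutI.lift (fun i => (MonoidHom.snd (G i) W).comp (Γ i).subtype)
    ((MonoidHom.snd C W).comp Γ0.subtype) fun _ => rfl

/-- The amalgamated graph. -/
def grSub (h : ∀ i c w, (φ i c, w) ∈ Γ i ↔ (c, w) ∈ Γ0) : Subgroup (PushoutI φ × W) :=
  ((grMor h).map.prod (grVal h)).range

lemma grSub_fn (h : ∀ i c w, (φ i c, w) ∈ Γ i ↔ (c, w) ∈ Γ0) (hφ : ∀ i, Injective (φ i))
    (h0 : Fn Γ0) : Fn (grSub h) := by
  rintro w ⟨p, hp⟩
  have hb : Injective (grMor h).bs := by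
    rintro ⟨⟨c, w⟩, hc⟩ ⟨⟨c', w'⟩, hc'⟩ he
    obtain rfl : c = c' := he
    obtain rfl := h0.eq hc hc'
    rfl
  have h1 : (grMor h).map p = 1 := congrArg Prod.fst hp
  have h2 : p = 1 := (grMor h).map_injective hφ hb (by rw [h1, map_one])
  have h3 : grVal h p = w := congrArg Prod.snd hp
  rw [← h3, h2, map_one]

lemma grSub_base (h : ∀ i c w, (φ i c, w) ∈ Γ i ↔ (c, w) ∈ Γ0) {c : C} {w : W}
    (hc : (c, w) ∈ Γ0) : (PushoutI.base φ c, w) ∈ grSub h :=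
  ⟨PushoutI.base _ ⟨(c, w), hc⟩, Prod.ext ((grMor h).map_base _) (by simp [grVal])⟩

lemma grSub_of (h : ∀ i c w, (φ i c, w) ∈ Γ i ↔ (c, w) ∈ Γ0) {i : ι} {g : G i} {w : W}
    (hg : (g, w) ∈ Γ i) : (PushoutI.of i g, w) ∈ grSub h :=
  ⟨PushoutI.of i ⟨(g, w), hg⟩, Prod.ext ((grMor h).map_of _ _) (by simp [grVal])⟩

lemma grSub_pull (h : ∀ i c w, (φ i c, w) ∈ Γ i ↔ (c, w) ∈ Γ0) (hφ : ∀ i, Injective (φ i))
    {i : ι} {g : G i} {w : W} (hg : (PushoutI.of i g, w) ∈ grSub h) : (g, w) ∈ Γ i := by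
  obtain ⟨p, hp⟩ := hg
  have h1 : (grMor h).map p = PushoutI.of i g := congrArg Prod.fst hp
  have h3 : grVal h p = w := congrArg Prod.snd hp
  obtain ⟨⟨⟨g', w'⟩, hg'⟩, rfl⟩ := (grMor h).of_pull hφ h1
  rw [Mor.map_of] at h1
  obtain rfl : g' = g := PushoutI.of_injective hφ i h1
  obtain rfl : w' = w := by simpa [grVal] using h3
  exact hg'

lemma grSub_inter (h : ∀ i c w, (φ i c, w) ∈ Γ i ↔ (c, w) ∈ Γ0) (hφ : ∀ i, Injective (φ i))
    {B : ι → Type} [∀ i, Group (B i)] {ψ : ∀ i, Unit →* B i} (j : Mor ψ φ)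
    (S : Subgroup (PushoutI ψ))
    (hS : ∀ i (c' : C) (w' : W) (x : B i) (g : G i) (w : W) (c : C), (c', w') ∈ Γ0 →
      (g, w) ∈ Γ i → φ i c' * j.fac i x = g * φ i c →
        (∃ w'', (c, w'') ∈ Γ0) ∧ PushoutI.of (φ := ψ) i x ∈ S)
    {f : PushoutI ψ} {w : W} (hf : (j.map f, w) ∈ grSub h) : f ∈ S := by
  obtain ⟨p, hp⟩ := hf
  have h1 : (grMor h).map p = j.map f := congrArg Prod.fst hp
  refine inter hφ (grMor h) j S ?_ f p h1.symm
  rintro i ⟨⟨c', w'⟩, hc'⟩ x ⟨⟨g, w⟩, hg⟩ c hc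
  obtain ⟨⟨w'', h2⟩, h3⟩ := hS i c' w' x g w c hc' hg hc
  exact ⟨⟨⟨(c, w''), h2⟩, rfl⟩, h3⟩

end Graph

/-- A family of two types. -/
def Fam (G1 G2 : Type) : Bool → Type
  | true => G1
  | false => G2

instance (G1 G2 : Type) [h1 : Group G1] [h2 : Group G2] : ∀ b, Group (Fam G1 G2 b)
  | true => h1
  | false => h2

/-- The amalgam of two groups, with the only properties that are used later. -/
theorem exists_amalgam {C G1 G2 : Type} [Group C] [Group G1] [Group G2] (φ1 : C →* G1)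
    (φ2 : C →* G2) (h1 : Injective φ1) (h2 : Injective φ2) :
    ∃ (Q : Type) (_ : Group Q) (i1 : G1 →* Q) (i2 : G2 →* Q), (∀ c, i1 (φ1 c) = i2 (φ2 c)) ∧
      Injective i1 ∧ ∀ (W : Type) [Group W] (Γ0 : Subgroup (C × W)) (Γ1 : Subgroup (G1 × W))
        (Γ2 : Subgroup (G2 × W)), (∀ c w, (φ1 c, w) ∈ Γ1 ↔ (c, w) ∈ Γ0) →
        (∀ c w, (φ2 c, w) ∈ Γ2 ↔ (c, w) ∈ Γ0) →
        ∃ Δ : Subgroup (Q × W), (∀ g w, (i1 g, w) ∈ Δ ↔ (g, w) ∈ Γ1) ∧
          ∀ g w, (g, w) ∈ Γ2 → (i2 g, w) ∈ Δ := by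
  let φ : ∀ b, C →* Fam G1 G2 b := fun b => match b with
    | true => φ1
    | false => φ2
  have hφ : ∀ b, Injective (φ b) := by
    rintro (_ | _)
    · exact h2
    · exact h1
  refine ⟨PushoutI φ, inferInstance, PushoutI.of (φ := φ) true, PushoutI.of (φ := φ) false,
    fun c => (of_apply_eq_base φ true c).trans (of_apply_eq_base φ false c).symm,
    PushoutI.of_injective hφ true, fun W _ Γ0 Γ1 Γ2 k1 k2 => ?_⟩
  let Γ : ∀ b, Subgroup (Fam G1 G2 b × W) := fun b => match b with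
    | true => Γ1
    | false => Γ2
  have h : ∀ i c w, (φ i c, w) ∈ Γ i ↔ (c, w) ∈ Γ0 := by
    rintro (_ | _)
    · exact k2
    · exact k1
  exact ⟨grSub h, fun g w => ⟨fun hg => grSub_pull h hφ (i := true) hg,
    fun hg => grSub_of h (i := true) hg⟩, fun g w hg => grSub_of h (i := false) hg⟩

section Gr

variable {V G G' W : Type} [Group G] [Group G'] [Group W]

/-- The subgroup generated by the pairs `(x a, w a)`, `a ∈ A`. -/
def Gr (x : V → G) (w : V → W) (A : Set V) : Subgroup (G × W) :=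
  Subgroup.closure ((fun a => (x a, w a)) '' A)

lemma Gr.gen (x : V → G) (w : V → W) {A : Set V} {a : V} (ha : a ∈ A) : (x a, w a) ∈ Gr x w A :=
  Subgroup.subset_closure ⟨a, ha, rfl⟩

lemma Gr.le {x : V → G} {w : V → W} {A : Set V} {Δ : Subgroup (G × W)}
    (h : ∀ a ∈ A, (x a, w a) ∈ Δ) : Gr x w A ≤ Δ := by
  rw [Gr, Subgroup.closure_le]
  rintro _ ⟨a, ha, rfl⟩
  exact h a ha

lemma Gr.mono {x : V → G} {w : V → W} {A B : Set V} (h : A ⊆ B) : Gr x w A ≤ Gr x w B :=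
  Gr.le fun _ ha => Gr.gen x w (h ha)

lemma Gr.push (Θ : G →* G') {Δ : Subgroup (G' × W)} {x : V → G} {w : V → W} {A : Set V}
    (h : ∀ a ∈ A, (Θ (x a), w a) ∈ Δ) {g : G} {z : W} (hg : (g, z) ∈ Gr x w A) :
    (Θ g, z) ∈ Δ :=
  Gr.le (Δ := Δ.comap (Θ.prodMap (MonoidHom.id W))) h hg

lemma Gr.lift (Θ : G →* G') {Δ : Subgroup (G × W)} {x' : V → G'} {w : V → W} {A : Set V}
    (h : ∀ a ∈ A, ∃ g, Θ g = x' a ∧ (g, w a) ∈ Δ) {g' : G'} {z : W}
    (hg : (g', z) ∈ Gr x' w A) : ∃ g, Θ g = g' ∧ (g, z) ∈ Δ := by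
  have : Gr x' w A ≤ Δ.map (Θ.prodMap (MonoidHom.id W)) := Gr.le fun a ha => by
    obtain ⟨g, h1, h2⟩ := h a ha
    exact ⟨(g, w a), h2, Prod.ext h1 rfl⟩
  obtain ⟨⟨g, z'⟩, h1, h2⟩ := this hg
  obtain rfl : z' = z := congrArg Prod.snd h2
  exact ⟨g, congrArg Prod.fst h2, h1⟩

lemma Gr.fst {x : V → G} {w : V → W} {A : Set V} {K : Subgroup G} (h : ∀ a ∈ A, x a ∈ K)
    {g : G} {z : W} (hg : (g, z) ∈ Gr x w A) : g ∈ K :=
  Gr.le (Δ := K.comap (MonoidHom.fst G W)) h hg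

lemma Gr.exists_snd {x : V → G} (w : V → W) {A : Set V} {g : G}
    (hg : g ∈ Subgroup.closure (x '' A)) : ∃ z, (g, z) ∈ Gr x w A := by
  have : Subgroup.closure (x '' A) ≤ (Gr x w A).map (MonoidHom.fst G W) := by
    rw [Subgroup.closure_le]
    rintro _ ⟨a, ha, rfl⟩
    exact ⟨_, Gr.gen x w ha, rfl⟩
  obtain ⟨⟨g', z⟩, h1, rfl⟩ := this hg
  exact ⟨z, h1⟩

lemma Gr.diag (Θ : G →* G') {x : V → G} {x' : V → G'} {A : Set V} (h : ∀ a ∈ A, Θ (x a) = x' a)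
    {g : G} (hg : g ∈ Subgroup.closure (x '' A)) : (Θ g, g) ∈ Gr x' x A := by
  have : Subgroup.closure (x '' A) ≤ (Gr x' x A).comap (Θ.prod (MonoidHom.id G)) := by
    rw [Subgroup.closure_le]
    rintro _ ⟨a, ha, rfl⟩
    show (Θ (x a), x a) ∈ Gr x' x A
    rw [h a ha]
    exact Gr.gen x' x ha
  exact this hg

lemma Gr.empty {x : V → G} {w : V → W} {p : G × W} (h : p ∈ Gr x w ∅) : p = 1 := by
  simpa [Gr] using h

end Gr

end Pool.Agent.Lib.MP_5a5e3d_al
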