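import Mathlib
import Pool.Agent.Lib.MP_5a5e3d_al.Defs
import Pool.Agent.Lib.MP_5a5e3d_al.Aff

/-! The subgroup of a generalised Higman group generated by the `e`-th powers of the generators
maps to every group with four elements of suitable orders, consecutive ones commuting. -/

namespace Pool.Agent.Lib.MP_5a5e3d_al

open Monoid Function Multiplicative

/-- The diagram of the free group of rank two as a free product. -/
def psi : ∀ _ : Bool, Unit →* Multiplicative ℤ := fun _ => 1

lemma psi_injective (i : Bool) : Injective (psi i) := fun _ _ _ => rfl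

/-- The `e`-th power endomorphism of the free group of rank two. -/
def morF {e : ℤ} (he : e ≠ 0) : Mor psi psi where
  bs := 1
  fac _ := pw e
  comm i c := by simp [psi]
  pull i g h := by
    obtain ⟨c, hc⟩ := h
    refine ⟨(), pw_injective he ?_⟩
    simpa [psi] using hc

section Level1

variable {R : Bool → Type} [∀ i, CommRing (R i)]

/-- The diagram of two affine groups amalgamated along a cyclic group. -/
def phi1 (u : ∀ i, (R i)ˣ) (τ : Bool → Bool) : ∀ i, Multiplicative ℤ →* Aff (u i) :=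
  fun i => gen (u i) (τ i)

/-- The map between amalgams given by `e`-th powers. -/
def mor1 (u : ∀ i, (R i)ˣ) (τ : Bool → Bool) {e : ℤ} (hR : ∀ i, Good (R i) e) :
    Mor (phi1 (fun i => u i ^ e) τ) (phi1 u τ) where
  bs := pw e
  fac i := scale (u i) e
  comm i c := scale_gen e (τ i) c
  pull i g h := scale_pull (hR i) (τ i) g h

/-- The free subgroup of rank two in the amalgam. -/
def morJ (u : ∀ i, (R i)ˣ) (τ : Bool → Bool) (hR : ∀ i, Injective (Int.cast : ℤ → R i)) :
    Mor psi (phi1 u τ) where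
  bs := 1
  fac i := gen (u i) (!τ i)
  comm i c := by simp [psi]
  pull i g h := ⟨(), (gen_not_mem (hR i) (τ i) g h).symm⟩

lemma morJ_injective (u : ∀ i, (R i)ˣ) (τ : Bool → Bool)
    (hR : ∀ i, Injective (Int.cast : ℤ → R i)) : Injective (morJ u τ hR).map :=
  (morJ u τ hR).map_injective (fun i => gen_injective (hR i) (τ i)) fun _ _ _ => rfl

lemma mor1_morJ (u : ∀ i, (R i)ˣ) (τ : Bool → Bool) {e : ℤ} (he : e ≠ 0)
    (hR : ∀ i, Good (R i) e) (f : PushoutI psi) :
    (mor1 u τ hR).map ((morJ (fun i => u i ^ e) τ fun i => (hR i).inj).map f) =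
      (morJ u τ fun i => (hR i).inj).map ((morF he).map f) := by
  induction f using PushoutI.induction_on with
  | of i g =>
    simp only [Mor.map_of]
    exact congrArg _ (scale_gen e (!τ i) g)
  | base c => rw [show c = 1 from rfl]; simp only [map_one]
  | mul x y hx hy => simp only [map_mul, hx, hy]

lemma mor1_pull (u : ∀ i, (R i)ˣ) (τ : Bool → Bool) {e : ℤ} (he : e ≠ 0)
    (hR : ∀ i, Good (R i) e) (g : PushoutI (phi1 (fun i => u i ^ e) τ))
    (h : (mor1 u τ hR).map g ∈ (morJ u τ fun i => (hR i).inj).map.range) :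
    g ∈ (morJ (fun i => u i ^ e) τ fun i => (hR i).inj).map.range := by
  obtain ⟨f, hf⟩ := h
  have hinj : ∀ i, Injective (phi1 u τ i) := fun i => gen_injective (hR i).inj (τ i)
  have h1 : f ∈ (morF he).map.range := by
    refine inter hinj (mor1 u τ hR) (morJ u τ fun i => (hR i).inj) _ ?_ f g hf
    intro i c' x a c hc
    obtain ⟨h1, h2⟩ := scale_star (hR i) (τ i) c' x c a hc
    refine ⟨mem_range_pw h1, ?_⟩
    obtain ⟨y, rfl⟩ := mem_range_pw h2
    exact ⟨PushoutI.of i y, (morF he).map_of i y⟩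
  obtain ⟨f', rfl⟩ := h1
  refine ⟨f', (mor1 u τ hR).map_injective hinj (pw_injective he) ?_⟩
  rw [mor1_morJ u τ he hR, hf]

end Level1

section Level2

variable {R : Bool → Bool → Type} [∀ l i, CommRing (R l i)]

/-- The diagram of two amalgams amalgamated along a free group of rank two. -/
def phi2 (u : ∀ l i, (R l i)ˣ) (τ : Bool → Bool → Bool)
    (hR : ∀ l i, Injective (Int.cast : ℤ → R l i)) :
    ∀ l, PushoutI psi →* PushoutI (phi1 (u l) (τ l)) :=
  fun l => (morJ (u l) (τ l) (hR l)).map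

/-- The map between the iterated amalgams given by `e`-th powers. -/
def mor2 (u : ∀ l i, (R l i)ˣ) (τ : Bool → Bool → Bool) {e : ℤ} (he : e ≠ 0)
    (hR : ∀ l i, Good (R l i) e) :
    Mor (phi2 (fun l i => u l i ^ e) τ fun l i => (hR l i).inj)
      (phi2 u τ fun l i => (hR l i).inj) where
  bs := (morF he).map
  fac l := (mor1 (u l) (τ l) (hR l)).map
  comm l c := mor1_morJ (u l) (τ l) he (hR l) c
  pull l g h := mor1_pull (u l) (τ l) he (hR l) g h

lemma mor2_injective (u : ∀ l i, (R l i)ˣ) (τ : Bool → Bool → Bool) {e : ℤ} (he : e ≠ 0)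
    (hR : ∀ l i, Good (R l i) e) : Injective (mor2 u τ he hR).map :=
  (mor2 u τ he hR).map_injective (fun l => morJ_injective (u l) (τ l) _)
    ((morF he).map_injective psi_injective fun _ _ _ => rfl)

/-- The inclusion of a vertex group into the iterated amalgam. -/
def vtx (u : ∀ l i, (R l i)ˣ) (τ : Bool → Bool → Bool)
    (hR : ∀ l i, Injective (Int.cast : ℤ → R l i)) (l i : Bool) :
    Aff (u l i) →* PushoutI (phi2 u τ hR) :=
  (PushoutI.of (φ := phi2 u τ hR) l).comp (PushoutI.of (φ := phi1 (u l) (τ l)) i)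

lemma vtx_edge (u : ∀ l i, (R l i)ˣ) (τ : Bool → Bool → Bool)
    (hR : ∀ l i, Injective (Int.cast : ℤ → R l i)) (l : Bool) (c : Multiplicative ℤ) :
    vtx u τ hR l false (gen _ (τ l false) c) = vtx u τ hR l true (gen _ (τ l true) c) := by
  simp only [vtx, MonoidHom.comp_apply]
  exact congrArg _ ((PushoutI.of_apply_eq_base (phi1 (u l) (τ l)) false c).trans
    (PushoutI.of_apply_eq_base (phi1 (u l) (τ l)) true c).symm)

lemma vtx_free (u : ∀ l i, (R l i)ˣ) (τ : Bool → Bool → Bool)
    (hR : ∀ l i, Injective (Int.cast : ℤ → R l i)) (i : Bool) (c : Multiplicative ℤ) :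
    vtx u τ hR false i (gen _ (!τ false i) c) = vtx u τ hR true i (gen _ (!τ true i) c) := by
  have h := (PushoutI.of_apply_eq_base (phi2 u τ hR) false (PushoutI.of i c)).trans
    (PushoutI.of_apply_eq_base (phi2 u τ hR) true (PushoutI.of i c)).symm
  simp only [phi2, Mor.map_of] at h
  exact h

lemma mor2_vtx (u : ∀ l i, (R l i)ˣ) (τ : Bool → Bool → Bool) {e : ℤ} (he : e ≠ 0)
    (hR : ∀ l i, Good (R l i) e) (l i : Bool) (a : Aff (u l i ^ e)) :
    (mor2 u τ he hR).map (vtx (fun l i => u l i ^ e) τ (fun l i => (hR l i).inj) l i a) =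
      vtx u τ (fun l i => (hR l i).inj) l i (scale (u l i) e a) := by
  simp only [vtx, MonoidHom.comp_apply, Mor.map_of]
  exact congrArg _ ((mor1 (u l) (τ l) (hR l)).map_of i a)

lemma exists_hom_level2 (u : ∀ l i, (R l i)ˣ) (τ : Bool → Bool → Bool)
    (hR : ∀ l i, Injective (Int.cast : ℤ → R l i)) {T : Type} [Group T]
    (θ : ∀ l i, Aff (u l i) →* T)
    (h1 : ∀ l, θ l false (gen _ (τ l false) (ofAdd 1)) = θ l true (gen _ (τ l true) (ofAdd 1)))
    (h2 : ∀ i, θ false i (gen _ (!τ false i) (ofAdd 1)) =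
      θ true i (gen _ (!τ true i) (ofAdd 1))) :
    ∃ π : PushoutI (phi2 u τ hR) →* T, ∀ l i a, π (vtx u τ hR l i a) = θ l i a := by
  let π1 : ∀ l, PushoutI (phi1 (u l) (τ l)) →* T := fun l =>
    PushoutI.lift (θ l) ((θ l false).comp (gen _ (τ l false))) (fun i => by
      apply MonoidHom.ext_mint
      cases i
      · rfl
      · exact (h1 l).symm)
  have hπ1 : ∀ l i a, π1 l (PushoutI.of i a) = θ l i a := fun l i a => by simp [π1]
  refine ⟨PushoutI.lift π1 ((π1 false).comp (phi2 u τ hR false)) (fun l => ?_), ?_⟩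
  · cases l
    · rfl
    · refine PushoutI.hom_ext (fun i => ?_) (MonoidHom.ext fun c => ?_)
      · apply MonoidHom.ext_mint
        simp only [phi2, MonoidHom.comp_apply, Mor.map_of, hπ1]
        exact (h2 i).symm
      · rw [show c = 1 from rfl]; simp only [map_one]
  · intro l i a
    simp only [vtx, MonoidHom.comp_apply, PushoutI.lift_of, hπ1]

end Level2

lemma good_away {k e : ℤ} (hk : k ≠ 0) (he : e ≠ 0) (hc : IsCoprime e k) :
    Good (Localization.Away k) e := by
  have hle : Submonoid.powers k ≤ nonZeroDivisors ℤ := powers_le_nonZeroDivisors_of_noZeroDivisors hk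
  have hinj : Injective (algebraMap ℤ (Localization.Away k)) := IsLocalization.injective _ hle
  have hdom : IsDomain (Localization.Away k) := IsLocalization.isDomain_localization hle
  have hinj' : Injective (Int.cast : ℤ → Localization.Away k) := by
    intro a b h
    exact hinj (by simpa using h)
  refine ⟨he, hinj', fun y hy => ?_, fun n y h => ?_⟩
  · refine (mul_eq_zero.1 hy).resolve_left fun h0 => he (hinj' (by simpa using h0))
  · have hu : IsUnit ((Int.castRingHom (ZMod e.natAbs)) k) := by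
      obtain ⟨a, b, hab⟩ := hc
      refine IsUnit.of_mul_eq_one (b : ZMod e.natAbs) ?_
      have h0 : ((e : ℤ) : ZMod e.natAbs) = 0 := by
        rw [ZMod.intCast_zmod_eq_zero_iff_dvd]; simp
      have := congrArg (Int.cast : ℤ → ZMod e.natAbs) hab
      push_cast at this
      rw [h0, mul_zero, zero_add] at this
      simpa [mul_comm] using this
    let χ : Localization.Away k →+* ZMod e.natAbs := IsLocalization.Away.lift k hu
    have h0 : ((e : ℤ) : ZMod e.natAbs) = 0 := by
      rw [ZMod.intCast_zmod_eq_zero_iff_dvd]; simp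
    have := congrArg χ h
    rw [map_mul, map_intCast, map_intCast, h0, zero_mul, ZMod.intCast_zmod_eq_zero_iff_dvd] at this
    simpa using this

/-- The unit `k` of `ℤ[1/k]`. -/
noncomputable def unitAway (k : ℤ) : (Localization.Away k)ˣ :=
  (IsLocalization.Away.algebraMap_isUnit (S := Localization.Away k) k).unit

lemma unitAway_val (k : ℤ) : (unitAway k : Localization.Away k) = k := by
  simp [unitAway]

lemma exists_rho (k : ℤ) (e p : ℕ) (he : e ≠ 0) (hp : (p : ℤ) ∣ k ^ e - 1) :
    ∃ ρ : Localization.Away k →+* ZMod p, ρ ((unitAway k ^ (e : ℤ) : (Localization.Away k)ˣ)) = 1 := by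
  have h1 : ((k : ℤ) : ZMod p) ^ e = 1 := by
    have := (ZMod.intCast_zmod_eq_zero_iff_dvd _ p).2 hp
    push_cast at this
    exact sub_eq_zero.1 this
  have hu : IsUnit ((Int.castRingHom (ZMod p)) k) := IsUnit.of_pow_eq_one h1 he
  refine ⟨IsLocalization.Away.lift k hu, ?_⟩
  rw [zpow_natCast, Units.val_pow_eq_pow_val, unitAway_val, map_pow, map_intCast, h1]

/-- The index of the stable letter at each of the four vertices. -/
def idx : Bool → Bool → Fin 4
  | false, false => 0
  | false, true => 1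
  | true, false => 3
  | true, true => 2

lemma hom_on_comap {H P P' T J : Type} [Group H] [Group P] [Group P'] [Group T] (Θ : H →* P)
    (m : P' →* P) (hm : Injective m) (π : P' →* T) (y : J → H) (X : J → P') (t : J → T)
    (hX : ∀ j, m (X j) = Θ (y j)) (ht : ∀ j, π (X j) = t j) :
    ∃ (K : Subgroup H) (hK : ∀ j, y j ∈ K) (π' : K →* T), ∀ j, π' ⟨_, hK j⟩ = t j := by
  refine ⟨m.range.comap Θ, fun j => ⟨_, hX j⟩,
    π.comp ((MonoidHom.ofInjective hm).symm.toMonoidHom.comp
      ((Θ.comp (m.range.comap Θ).subtype).codRestrict m.range fun x => x.2)), fun j => ?_⟩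
  have h1 : (MonoidHom.ofInjective hm).symm ⟨Θ (y j), ⟨_, hX j⟩⟩ = X j := by
    rw [MulEquiv.symm_apply_eq]
    exact Subtype.ext (hX j).symm
  exact (congrArg π h1).trans (ht j)

theorem exists_hom (k : Fin 4 → ℕ) (hk : ∀ i, k i ≠ 0) (e : ℕ) (he : e ≠ 0)
    (hc : ∀ i, IsCoprime (e : ℤ) (k i)) (p : Fin 4 → ℕ)
    (hp : ∀ i, (p (i + 1) : ℤ) ∣ (k i : ℤ) ^ e - 1) {T : Type} [Group T] (t : Fin 4 → T)
    (ht : ∀ i, t i ^ p i = 1) (hcomm : ∀ i, Commute (t i) (t (i + 1))) :
    ∃ (K : Subgroup (GenHigman k)) (hK : ∀ i, (PresentedGroup.of i : GenHigman k) ^ e ∈ K)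
      (π : K →* T), ∀ i, π ⟨_, hK i⟩ = t i := by
  have he' : (e : ℤ) ≠ 0 := by exact_mod_cast he
  let R : Bool → Bool → Type := fun l i => Localization.Away (k (idx l i) : ℤ)
  let u : ∀ l i, (R l i)ˣ := fun l i => unitAway (k (idx l i) : ℤ)
  let τ : Bool → Bool → Bool := fun l i => l == i
  have hR : ∀ l i, Good (R l i) e := fun l i =>
    good_away (by exact_mod_cast hk _) he' (hc _)
  have hinj : ∀ l i, Injective (Int.cast : ℤ → R l i) := fun l i => (hR l i).inj
  -- generators of the iterated amalgam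
  let X : ∀ w : ∀ l i, (R l i)ˣ, Fin 4 → PushoutI (phi2 w τ hinj) := fun w =>
    ![vtx w τ hinj false false (hyp _ (ofAdd 1)), vtx w τ hinj false true (hyp _ (ofAdd 1)),
      vtx w τ hinj true true (hyp _ (ofAdd 1)), vtx w τ hinj true false (hyp _ (ofAdd 1))]
  have hX : ∀ w l i, vtx w τ hinj l i (hyp _ (ofAdd 1)) = X w (idx l i) := by
    intro w l i
    cases l <;> cases i <;> rfl
  have hX' : ∀ w l i, vtx w τ hinj l i (uni _ (ofAdd 1)) = X w (idx l i + 1) := by
    intro w l i
    cases l <;> cases i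
    · exact vtx_edge w τ hinj false _
    · exact vtx_free w τ hinj true _
    · exact (vtx_free w τ hinj false _).symm
    · exact (vtx_edge w τ hinj true _).symm
  have hidx : ∀ j : Fin 4, ∃ l i, idx l i = j := by decide
  have hrel : ∀ r ∈ higmanRels k, FreeGroup.lift (X u) r = 1 := by
    rintro r ⟨j, rfl⟩
    obtain ⟨l, i, rfl⟩ := hidx j
    simp only [map_mul, map_inv, map_pow, FreeGroup.lift_apply_of, ← hX, ← hX']
    rw [mul_inv_eq_one, ← map_inv, ← map_mul, ← map_mul, ← map_pow]
    exact congrArg _ (hyp_conj_uni _ (by simp [u, unitAway_val]))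
  let Θ : GenHigman k →* PushoutI (phi2 u τ hinj) := PresentedGroup.toGroup hrel
  have hΘ : ∀ j, Θ (PresentedGroup.of j) = X u j := fun j => PresentedGroup.toGroup.of hrel
  have hθ : ∀ l i, ∃ θ : Aff (u l i ^ (e : ℤ)) →* T, θ (hyp _ (ofAdd 1)) = t (idx l i) ∧
      θ (uni _ (ofAdd 1)) = t (idx l i + 1) := by
    intro l i
    obtain ⟨ρ, hρ⟩ := exists_rho (k (idx l i)) e (p (idx l i + 1)) he (hp _)
    exact exists_hom_aff _ _ ρ hρ _ _ (hcomm _) (ht _)
  choose θ hθ1 hθ2 using hθ
  obtain ⟨π, hπ⟩ := exists_hom_level2 (fun l i => u l i ^ (e : ℤ)) τ hinj θ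
    (by
      intro l
      cases l
      · exact (hθ2 false false).trans (hθ1 false true).symm
      · exact (hθ1 true false).trans (hθ2 true true).symm)
    (by
      intro i
      cases i
      · exact (hθ1 false false).trans (hθ2 true false).symm
      · exact (hθ2 false true).trans (hθ1 true true).symm)
  let m := (mor2 u τ he' hR).map
  have hm : Injective m := mor2_injective u τ he' hR
  have hmX : ∀ j, m (X (fun l i => u l i ^ (e : ℤ)) j) = Θ (PresentedGroup.of j ^ e) := by
    intro j
    obtain ⟨l, i, rfl⟩ := hidx j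
    rw [map_pow, hΘ, ← hX, ← hX, ← map_pow, ← map_pow]
    refine (mor2_vtx u τ he' hR l i _).trans (congrArg _ ?_)
    ext <;> simp [-map_pow]
  refine hom_on_comap (P := PushoutI (phi2 u τ hinj))
    (P' := PushoutI (phi2 (fun l i => u l i ^ (e : ℤ)) τ hinj)) Θ m hm π (fun j => PresentedGroup.of j ^ e)
    (X fun l i => u l i ^ (e : ℤ)) t (fun j => hmX j) fun j => ?_
  obtain ⟨l, i, rfl⟩ := hidx j
  rw [← hX, hπ, hθ1]

end Pool.Agent.Lib.MP_5a5e3d_al
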