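import Mathlib
import Pool.Agent.Lib.MP_5a5e3d_al.Embed
import Pool.Agent.Lib.MP_5a5e3d_al.DgAmal

/-! The affine model of a star of Baumslag-Solitar groups. -/

namespace Pool.Agent.Lib.MP_5a5e3d_al

open Monoid Function Multiplicative

/-- The graph of `d ↦ w` on the multiples of `d`. -/
def cyc {W : Type} [Group W] (d : ℤ) (w : W) : Subgroup (Multiplicative ℤ × W) :=
  ((pw d).prod (zpowersHom W w)).range

lemma cyc_fn {W : Type} [Group W] {d : ℤ} (hd : d ≠ 0) (w : W) : Fn (cyc d w) := by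
  rintro z ⟨k, hk⟩
  have h1 : pw d k = 1 := congrArg Prod.fst hk
  have h2 : zpowersHom W w k = z := congrArg Prod.snd hk
  have h3 : k = 1 := pw_injective hd (by rw [h1, map_one])
  rw [← h2, h3, map_one]

lemma cyc_gen {W : Type} [Group W] (d : ℤ) (w : W) : (ofAdd d, w) ∈ cyc d w :=
  ⟨ofAdd 1, Prod.ext (toAdd.injective (by simp)) (by simp)⟩

section Edge

variable {R : Type} [CommRing R] {W : Type} [Group W]

lemma edge_out (u : Rˣ) (τ : Bool) (hR : Injective (Int.cast : ℤ → R))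
    (Γ0 : Subgroup (Multiplicative ℤ × W)) :
    ∃ Γ : Subgroup (Aff u × W), (∀ c w, (gen u τ c, w) ∈ Γ ↔ (c, w) ∈ Γ0) ∧
      ∀ c' w' x g w c, (c', w') ∈ Γ0 → (g, w) ∈ Γ → gen u τ c' * gen u (!τ) x = g * gen u τ c →
        (∃ w'', (c, w'') ∈ Γ0) ∧ x = 1 := by
  refine ⟨Γ0.map ((gen u τ).prodMap (MonoidHom.id W)), fun c w => ⟨?_, fun h => ⟨_, h, rfl⟩⟩, ?_⟩
  · rintro ⟨⟨c', w'⟩, h1, h2⟩
    obtain rfl : c' = c := gen_injective hR τ (congrArg Prod.fst h2)
    obtain rfl : w' = w := congrArg Prod.snd h2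
    exact h1
  · rintro c' w' x g w c h1 ⟨⟨c2, w2⟩, h2, h3⟩ h4
    obtain rfl : gen u τ c2 = g := congrArg Prod.fst h3
    have hx : x = 1 := gen_not_mem hR τ x ⟨c'⁻¹ * (c2 * c), by
      rw [map_mul, map_mul, ← h4, map_inv, inv_mul_cancel_left]⟩
    rw [hx, map_one, mul_one, ← map_mul] at h4
    refine ⟨⟨w2⁻¹ * w', ?_⟩, hx⟩
    have := Γ0.mul_mem (Γ0.inv_mem h2) h1
    rw [gen_injective hR τ h4] at this
    simpa using this

lemma edge_in (u : Rˣ) (τ : Bool) {e : ℤ} (hR : Good R e) {l : ℕ} (ρ : R →+* ZMod l)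
    (hρ : ρ ((u ^ e : Rˣ) : R) = 1) (wc wl : W) (hc : Commute wc wl)
    (hl : (if τ then wc else wl) ^ l = 1) :
    ∃ Γ : Subgroup (Aff u × W), (∀ c w, (gen u τ c, w) ∈ Γ ↔ (c, w) ∈ cyc e wc) ∧
      (gen u (!τ) (ofAdd e), wl) ∈ Γ ∧
      ∀ c' w' x g w c, (c', w') ∈ cyc e wc → (g, w) ∈ Γ →
        gen u τ c' * gen u (!τ) x = g * gen u τ c →
        (∃ w'', (c, w'') ∈ cyc e wc) ∧ e ∣ x.toAdd := by
  have hθ : ∃ θ : Aff (u ^ e) →* W, θ (gen _ τ (ofAdd 1)) = wc ∧ θ (gen _ (!τ) (ofAdd 1)) = wl := by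
    cases τ
    · exact exists_hom_aff _ l ρ hρ wc wl hc (by simpa using hl)
    · obtain ⟨θ, h1, h2⟩ := exists_hom_aff _ l ρ hρ wl wc hc.symm (by simpa using hl)
      exact ⟨θ, h2, h1⟩
  obtain ⟨θ, h1, h2⟩ := hθ
  have h3 : ∀ k, θ (gen _ τ k) = zpowersHom W wc k := fun k =>
    DFunLike.congr_fun (MonoidHom.ext_mint (f := θ.comp (gen _ τ)) (g := zpowersHom W wc)
      (by simpa using h1)) k
  refine ⟨((scale u e).prod θ).range, fun c w => ⟨?_, ?_⟩, ⟨gen _ (!τ) (ofAdd 1), ?_⟩, ?_⟩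
  · rintro ⟨a, ha⟩
    have k1 : scale u e a = gen u τ c := congrArg Prod.fst ha
    have k2 : θ a = w := congrArg Prod.snd ha
    obtain ⟨k, rfl⟩ := scale_pull hR τ a ⟨c, k1.symm⟩
    rw [scale_gen] at k1
    exact ⟨k, Prod.ext (gen_injective hR.inj τ k1) ((h3 k).symm.trans k2)⟩
  · rintro ⟨k, hk⟩
    have k1 : pw e k = c := congrArg Prod.fst hk
    have k2 : zpowersHom W wc k = w := congrArg Prod.snd hk
    exact ⟨gen _ τ k, Prod.ext ((scale_gen e τ k).trans (congrArg _ k1)) ((h3 k).trans k2)⟩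
  · refine Prod.ext ((scale_gen e _ _).trans (congrArg _ (toAdd.injective (by simp)))) h2
  · rintro c' w' x g w c ⟨k, hk⟩ ⟨a, ha⟩ h4
    obtain rfl : pw e k = c' := congrArg Prod.fst hk
    obtain rfl : scale u e a = g := congrArg Prod.fst ha
    obtain ⟨k1, k2⟩ := scale_star hR τ k x c a h4
    obtain ⟨k', rfl⟩ := mem_range_pw k1
    exact ⟨⟨_, k', rfl⟩, k2⟩

lemma hyp_conj_uni' (u : Rˣ) (m n : ℕ) (h : (u : R) * m = n) :
    (hyp u (ofAdd 1))⁻¹ * uni u (ofAdd 1) ^ m * hyp u (ofAdd 1) = uni u (ofAdd 1) ^ n := by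
  rw [← map_pow (uni u), ← map_pow (uni u)]
  ext
  · simp [h, -map_pow]
  · simp [-map_pow]

end Edge

/-- The diagram of a free group as a free product of infinite cyclic groups. -/
def psiL (L : Type) : ∀ _ : L, Unit →* Multiplicative ℤ := fun _ => 1

/-- The Baumslag-Solitar relation. -/
def BS {G : Type} [Group G] (a b : G) (m n : ℕ) : Prop := a⁻¹ * b ^ m * a = b ^ n

lemma BS.map {G H : Type} [Group G] [Group H] (f : G →* H) {a b : G} {m n : ℕ} (h : BS a b m n) :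
    BS (f a) (f b) m n := by
  simpa [BS] using congrArg f h

/-- The arithmetic condition on a pair of labels. -/
def Ar (e l m n : ℕ) : Prop :=
  ∃ (k : ℤ) (u : (Localization.Away k)ˣ), Good (Localization.Away k) e ∧
    (u : Localization.Away k) * m = n ∧
    ∃ ρ : Localization.Away k →+* ZMod l, ρ ((u ^ (e : ℤ) : (Localization.Away k)ˣ)) = 1

theorem exists_star (L : Type) (τ : L → Bool) (m n : L → ℕ) (e l : ℕ)
    (har : ∀ u, Ar e l (m u) (n u)) :
    ∃ (C St : Type) (_ : Group C) (_ : Group St) (z : L → C) (φ : C →* St) (y : St),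
      Injective φ ∧ Subgroup.closure (Set.range z) = ⊤ ∧
      (∀ (G : Type) [Group G] (x : L → G), ∃ f : C →* G, ∀ u, f (z u) = x u) ∧
      (∀ u, if τ u then BS (φ (z u)) y (m u) (n u) else BS y (φ (z u)) (m u) (n u)) ∧
      ∀ (W : Type) [Group W] (d : ℕ) (wc : W) (wl : L → W) (A : Set L), d ≠ 0 →
        (∀ u ∈ A, d = e ∧ Commute wc (wl u) ∧ (if τ u then wc else wl u) ^ l = 1) →
        ∃ Δ : Subgroup (St × W), (y ^ d, wc) ∈ Δ ∧
          ∀ c w, (φ c, w) ∈ Δ ↔ (c, w) ∈ Gr (fun u => z u ^ d) wl A := by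
  classical
  choose k υ hG hυ ρ hρ using har
  let φ : ∀ u, Multiplicative ℤ →* Aff (υ u) := fun u => gen (υ u) (τ u)
  have hφ : ∀ u, Injective (φ u) := fun u => gen_injective (hG u).inj (τ u)
  let j : Mor (psiL L) φ :=
    { bs := 1
      fac := fun u => gen (υ u) (!τ u)
      comm := fun i c => by simp [psiL]
      pull := fun i g h => ⟨(), (gen_not_mem (hG i).inj (τ i) g h).symm⟩ }
  have hj : Injective j.map := j.map_injective hφ fun _ _ _ => rfl
  let z : L → PushoutI (psiL L) := fun u => PushoutI.of (φ := psiL L) u (ofAdd 1)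
  have hz : ∀ u (x : Multiplicative ℤ), PushoutI.of (φ := psiL L) u x = z u ^ x.toAdd := by
    intro u x
    rw [← map_zpow]
    exact congrArg _ (toAdd.injective (by simp))
  refine ⟨PushoutI (psiL L), PushoutI φ, inferInstance, inferInstance, z, j.map,
    PushoutI.base φ (ofAdd 1), hj, ?_, fun G _ x => ?_, fun u => ?_,
    fun W _ d wc wl A hd hA => ?_⟩
  · rw [eq_top_iff]
    rintro c -
    induction c using PushoutI.induction_on with
    | of i g => rw [hz]; exact zpow_mem (Subgroup.subset_closure (Set.mem_range_self i)) _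
    | base c => rw [show c = 1 from rfl, map_one]; exact one_mem _
    | mul x y hx hy => exact mul_mem hx hy
  · exact ⟨PushoutI.lift (fun u => zpowersHom G (x u)) 1 fun i => by ext; simp [psiL],
      fun u => by simp [z]⟩
  · have h1 := BS.map (PushoutI.of (φ := φ) u) (hyp_conj_uni' (υ u) (m u) (n u) (hυ u))
    rw [← PushoutI.of_apply_eq_base φ u, Mor.map_of]
    show if τ u = true then BS (PushoutI.of (φ := φ) u (gen (υ u) (!τ u) _))
      (PushoutI.of (φ := φ) u (gen (υ u) (τ u) _)) _ _ else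
      BS (PushoutI.of (φ := φ) u (gen (υ u) (τ u) _))
      (PushoutI.of (φ := φ) u (gen (υ u) (!τ u) _)) _ _
    generalize τ u = b
    cases b
    · exact h1
    · exact h1
  · have hd' : (d : ℤ) ≠ 0 := by exact_mod_cast hd
    have hE : ∀ u, ∃ Γ : Subgroup (Aff (υ u) × W),
        (∀ c w, (φ u c, w) ∈ Γ ↔ (c, w) ∈ cyc d wc) ∧
        (u ∈ A → (gen (υ u) (!τ u) (ofAdd (d : ℤ)), wl u) ∈ Γ) ∧
        ∀ c' w' x g w c, (c', w') ∈ cyc d wc → (g, w) ∈ Γ →
          φ u c' * gen (υ u) (!τ u) x = g * φ u c →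
          (∃ w'', (c, w'') ∈ cyc d wc) ∧ (x = 1 ∨ (u ∈ A ∧ (d : ℤ) ∣ x.toAdd)) := by
      intro u
      by_cases hu : u ∈ A
      · obtain ⟨rfl, h2, h3⟩ := hA u hu
        obtain ⟨Γ, k1, k2, k3⟩ := edge_in (υ u) (τ u) (hG u) (ρ u) (hρ u) wc (wl u) h2 h3
        refine ⟨Γ, k1, fun _ => k2, fun c' w' x g w c a1 a2 a3 => ?_⟩
        obtain ⟨b1, b2⟩ := k3 c' w' x g w c a1 a2 a3
        exact ⟨b1, Or.inr ⟨hu, b2⟩⟩
      · obtain ⟨Γ, k1, k3⟩ := edge_out (υ u) (τ u) (hG u).inj (cyc d wc)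
        refine ⟨Γ, k1, fun h => absurd h hu, fun c' w' x g w c a1 a2 a3 => ?_⟩
        obtain ⟨b1, b2⟩ := k3 c' w' x g w c a1 a2 a3
        exact ⟨b1, Or.inl b2⟩
    choose Γ h1 h2 h3 using hE
    have hfn := grSub_fn h1 hφ (cyc_fn hd' wc)
    have hge : ∀ c w, (c, w) ∈ Gr (fun u => z u ^ d) wl A → (j.map c, w) ∈ grSub h1 := by
      intro c w hc
      refine Gr.push j.map (fun u hu => ?_) hc
      have : z u ^ d = PushoutI.of (φ := psiL L) u (ofAdd (d : ℤ)) := by rw [hz]; simp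
      rw [this, Mor.map_of]
      exact grSub_of h1 (h2 u hu)
    refine ⟨grSub h1, ?_, fun c w => ⟨fun hc => ?_, hge c w⟩⟩
    · have : PushoutI.base φ (ofAdd 1) ^ d = PushoutI.base φ (ofAdd (d : ℤ)) := by
        rw [← map_pow]
        exact congrArg _ (toAdd.injective (by simp))
      rw [this]
      exact grSub_base h1 (cyc_gen _ _)
    · have hS : c ∈ Subgroup.closure ((fun u => z u ^ d) '' A) := by
        refine grSub_inter h1 hφ j _ ?_ hc
        intro u c' w' x g w c a1 a2 a3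
        obtain ⟨b1, b2⟩ := h3 u c' w' x g w c a1 a2 a3
        refine ⟨b1, ?_⟩
        rcases b2 with rfl | ⟨hu, t, ht⟩
        · rw [map_one]; exact one_mem _
        · rw [hz, ht, zpow_mul, zpow_natCast]
          exact zpow_mem (Subgroup.subset_closure (Set.mem_image_of_mem (fun u => z u ^ d) hu)) _
      obtain ⟨w', hw'⟩ := Gr.exists_snd wl hS
      rw [hfn.eq hc (hge c w' hw')]
      exact hw'

end Pool.Agent.Lib.MP_5a5e3d_al
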