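import Mathlib

/-! The Morse-theoretic step, written algebraically: a subgroup containing finitely many edge
groups and normalised by the level-zero subgroup contains all the commutators we need. -/

namespace Pool.Agent.Lib.MP_5a5e3d_al

open Subgroup
open scoped commutatorElement

variable {G : Type} [Group G]

/-- The subgroup generated by `x ^ m` and `y ^ n` is normal in `⟨x, y⟩` with abelian quotient. -/
structure Vx (x y : G) (m n : ℕ) : Prop where
  norm : ∀ z ∈ closure ({x, y} : Set G), ∀ w ∈ closure ({x ^ m, y ^ n} : Set G),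
    z * w * z⁻¹ ∈ closure ({x ^ m, y ^ n} : Set G)
  comm : ∀ i j : ℤ, x ^ i * y ^ j * (y ^ j * x ^ i)⁻¹ ∈ closure ({x ^ m, y ^ n} : Set G)

lemma Vx.symm {x y : G} {m n : ℕ} (h : Vx x y m n) : Vx y x n m where
  norm := by
    rw [Set.pair_comm y x, Set.pair_comm (y ^ n)]
    exact h.norm
  comm i j := by
    rw [Set.pair_comm (y ^ n)]
    simpa using inv_mem (h.comm j i)

lemma conj_pow_bs {x y : G} {q : ℤ} (h : x⁻¹ * y * x = y ^ q) (i : ℕ) (j : ℤ) :
    (x ^ i)⁻¹ * y ^ j * x ^ i = y ^ (j * q ^ i) := by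
  induction i with
  | zero => simp
  | succ i ih =>
    have h1 : ∀ l : ℤ, x⁻¹ * y ^ l * x = y ^ (l * q) := by
      intro l
      rw [mul_comm l q, zpow_mul, ← h]
      simpa using (conj_zpow (a := x⁻¹) (b := y) (i := l)).symm
    calc (x ^ (i + 1))⁻¹ * y ^ j * x ^ (i + 1)
        = x⁻¹ * ((x ^ i)⁻¹ * y ^ j * x ^ i) * x := by rw [pow_succ]; group
      _ = y ^ (j * q ^ (i + 1)) := by rw [ih, h1, pow_succ, mul_assoc]

lemma vx_of_bs {x y : G} {q : ℤ} {m n : ℕ} (h : x⁻¹ * y * x = y ^ q) (hm : m ≠ 0)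
    (hn : (n : ℤ) ∣ q - 1) : Vx x y m n := by
  set W := closure ({x ^ m, y ^ n} : Set G) with hW
  have hx : x ^ m ∈ W := subset_closure (by simp)
  have hy : y ^ n ∈ W := subset_closure (by simp)
  have hyd : ∀ l : ℤ, (n : ℤ) ∣ l → y ^ l ∈ W := by
    rintro _ ⟨l, rfl⟩
    rw [zpow_mul, zpow_natCast]
    exact zpow_mem hy l
  have hq : ∀ i : ℕ, (n : ℤ) ∣ q ^ i - 1 := fun i =>
    hn.trans (by simpa using sub_dvd_pow_sub_pow q 1 i)
  have hgen : ∀ z : G, z * x ^ m * z⁻¹ ∈ W → z * y ^ n * z⁻¹ ∈ W → ∀ w ∈ W, z * w * z⁻¹ ∈ W := by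
    intro z h1 h2 w hw
    have : W ≤ W.comap (MulAut.conj z).toMonoidHom := by
      rw [hW, closure_le]
      rintro _ (rfl | rfl)
      · exact h1
      · exact h2
    exact this hw
  have hyx : ∀ j : ℤ, y ^ j * x ^ m * (y ^ j)⁻¹ ∈ W := by
    intro j
    have e : y ^ j * x ^ m * (y ^ j)⁻¹ = x ^ m * y ^ (j * (q ^ m - 1)) := by
      rw [mul_sub, zpow_sub, ← conj_pow_bs h m j]; group
    rw [e]
    exact mul_mem hx (hyd _ (Dvd.dvd.mul_left (hq m) j))
  have hnorm : ∀ z ∈ closure ({x, y} : Set G), ∀ w ∈ W, z * w * z⁻¹ ∈ W := by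
    intro z hz
    induction hz using closure_induction'' with
    | mem z hz =>
      rcases hz with rfl | rfl
      · refine hgen _ (by simpa [← pow_succ', pow_succ] using hx) ?_
        obtain ⟨l, rfl⟩ := Nat.exists_eq_succ_of_ne_zero hm
        have e : z * y ^ n * z⁻¹ = z ^ (l + 1) * y ^ ((n : ℤ) * q ^ l) * (z ^ (l + 1))⁻¹ := by
          rw [← conj_pow_bs h l n]; group
        rw [e]
        exact mul_mem (mul_mem hx (hyd _ (Dvd.intro _ rfl))) (inv_mem hx)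
      · exact hgen _ (by simpa using hyx 1) (by simpa [← pow_succ', pow_succ] using hy)
    | inv_mem z hz =>
      rcases hz with rfl | rfl
      · refine hgen _ (by simpa [mul_assoc, ← pow_succ, pow_succ'] using hx) ?_
        have e : z⁻¹ * y ^ n * z⁻¹⁻¹ = y ^ ((n : ℤ) * q ^ 1) := by
          rw [← conj_pow_bs h 1 n]; group
        rw [e]
        exact hyd _ (Dvd.intro _ rfl)
      · exact hgen _ (by simpa using hyx (-1))
          (by simpa [mul_assoc, ← pow_succ, pow_succ'] using hy)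
    | one => intro w hw; simpa using hw
    | mul z z' _ _ h1 h2 =>
      intro w hw
      have e : z * z' * w * (z * z')⁻¹ = z * (z' * w * z'⁻¹) * z⁻¹ := by group
      rw [e]
      exact h1 _ (h2 _ hw)
  refine ⟨hnorm, fun i j => ?_⟩
  obtain ⟨l, rfl | rfl⟩ := i.eq_nat_or_neg
  · have e : x ^ (l : ℤ) * y ^ j * (y ^ j * x ^ (l : ℤ))⁻¹ =
        x ^ l * y ^ (-j * (q ^ l - 1)) * (x ^ l)⁻¹ := by
      rw [show -j * (q ^ l - 1) = j + -j * q ^ l by ring, zpow_add, ← conj_pow_bs h l (-j)]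
      group
    rw [e]
    exact hnorm _ (pow_mem (subset_closure (by simp)) l) _ (hyd _ (Dvd.dvd.mul_left (hq l) _))
  · have e : x ^ (-(l : ℤ)) * y ^ j * (y ^ j * x ^ (-(l : ℤ)))⁻¹ = y ^ (j * (q ^ l - 1)) := by
      rw [mul_sub, zpow_sub, ← conj_pow_bs h l j]; group
    rw [e]
    exact hyd _ (Dvd.dvd.mul_left (hq l) j)

/-- The conjugate of `x ^ m` by `g` lies in `J`. -/
def Ed (J : Subgroup G) (x : G) (m : ℕ) (g : G) : Prop := g * x ^ m * g⁻¹ ∈ J

/-- Congruence modulo a subgroup. -/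
def Ap (N : Subgroup G) (g g' : G) : Prop := g * g'⁻¹ ∈ N

lemma Ap.symm {N : Subgroup G} {g g' : G} (h : Ap N g g') : Ap N g' g := by
  simpa [Ap] using inv_mem h

lemma Ap.trans {N : Subgroup G} {g g' g'' : G} (h : Ap N g g') (h' : Ap N g' g'') :
    Ap N g g'' := by
  simpa [Ap, mul_assoc] using mul_mem h h'

lemma Ap.right {N : Subgroup G} {g g' : G} (h : Ap N g g') (z : G) {w w' : G}
    (hw : w = g * z) (hw' : w' = g' * z) : Ap N w w' := by
  rw [hw, hw']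
  simpa [Ap, mul_assoc] using h

lemma Ed.self {J : Subgroup G} {x : G} {m : ℕ} {g : G} (h : Ed J x m g) (i : ℤ) :
    Ed J x m (g * x ^ i) := by
  have e : g * x ^ i * x ^ m * (g * x ^ i)⁻¹ = g * x ^ m * g⁻¹ := by group
  rw [Ed, e]
  exact h

lemma vx_le {J : Subgroup G} {x y : G} {m n : ℕ} {g : G} (h1 : Ed J x m g) (h2 : Ed J y n g)
    {w : G} (hw : w ∈ closure ({x ^ m, y ^ n} : Set G)) : g * w * g⁻¹ ∈ J := by
  have : closure ({x ^ m, y ^ n} : Set G) ≤ J.comap (MulAut.conj g).toMonoidHom := by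
    rw [closure_le]
    rintro _ (rfl | rfl)
    · exact h1
    · exact h2
  exact this hw

lemma Vx.mv {J : Subgroup G} {x y : G} {m n : ℕ} (h : Vx x y m n) {g : G} (h1 : Ed J x m g)
    (h2 : Ed J y n g) (j : ℤ) : Ed J x m (g * y ^ j) := by
  have e : g * y ^ j * x ^ m * (g * y ^ j)⁻¹ = g * (y ^ j * x ^ m * (y ^ j)⁻¹) * g⁻¹ := by group
  rw [Ed, e]
  exact vx_le h1 h2 (h.norm _ (zpow_mem (subset_closure (by simp)) j) _ (subset_closure (by simp)))

lemma Vx.mv' {J : Subgroup G} {x y : G} {m n : ℕ} (h : Vx x y m n) {g : G} {j : ℤ}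
    (h1 : Ed J x m (g * y ^ j)) (h2 : Ed J y n g) : Ed J x m g := by
  simpa using h.mv h1 (h2.self j) (-j)

lemma Vx.sw {J : Subgroup G} {x y : G} {m n : ℕ} (h : Vx x y m n) {g : G} (h1 : Ed J x m g)
    (h2 : Ed J y n g) (i j : ℤ) : Ap J (g * x ^ i * y ^ j) (g * y ^ j * x ^ i) := by
  have e : g * x ^ i * y ^ j * (g * y ^ j * x ^ i)⁻¹ =
      g * (x ^ i * y ^ j * (y ^ j * x ^ i)⁻¹) * g⁻¹ := by group
  rw [Ap, e]
  exact vx_le h1 h2 (h.comm i j)

/-- The data of the Morse argument. -/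
structure Setup (G : Type) [Group G] where
  /-- first generator -/
  a : G
  /-- second generator -/
  b : G
  /-- third generator -/
  c : G
  /-- fourth generator -/
  d : G
  /-- first exponent -/
  pa : ℕ
  /-- second exponent -/
  pb : ℕ
  /-- third exponent -/
  pc : ℕ
  /-- fourth exponent -/
  pd : ℕ
  /-- the small subgroup -/
  J : Subgroup G
  /-- the level-zero subgroup -/
  N : Subgroup G
  /-- the set of exponents used -/
  I : Set ℤ
  ab : Vx a b pa pb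
  bc : Vx b c pb pc
  cd : Vx c d pc pd
  da : Vx d a pd pa
  le : J ≤ N
  norm : ∀ z ∈ N, ∀ w ∈ J, z * w * z⁻¹ ∈ J

namespace Setup

variable (S : Setup G)

/-- the ascending elements of the first factor -/
def u (i : ℤ) : G := S.a ^ i * S.c ^ i

/-- the ascending elements of the second factor -/
def v (j : ℤ) : G := S.b ^ j * S.d ^ j

/-- The edge groups near `g` lie in `J`. -/
structure Base (g : G) : Prop where
  ea : Ed S.J S.a S.pa g
  eb : Ed S.J S.b S.pb g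
  ec : ∀ i ∈ S.I, Ed S.J S.c S.pc (g * S.a ^ i)
  ed : ∀ j ∈ S.I, Ed S.J S.d S.pd (g * S.b ^ j)
  ec' : ∀ i ∈ S.I, ∀ j ∈ S.I, Ed S.J S.c S.pc (g * S.b ^ j * S.a ^ i)
  ed' : ∀ i ∈ S.I, ∀ j ∈ S.I, Ed S.J S.d S.pd (g * S.b ^ j * S.a ^ i)

/-- The inductive invariant. -/
structure Phi (g : G) : Prop where
  base : S.Base g
  lev : ∀ i ∈ S.I, ∀ j ∈ S.I, Ap S.N (g * S.u i * S.v j) g

variable {S}

lemma ed_ap {x : G} {m : ℕ} {g g' : G} (h : Ap S.N g g') (h' : Ed S.J x m g') : Ed S.J x m g := by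
  have e : g * x ^ m * g⁻¹ = (g * g'⁻¹) * (g' * x ^ m * g'⁻¹) * (g * g'⁻¹)⁻¹ := by group
  rw [Ed, e]
  exact S.norm _ h _ h'

lemma ap_le {g g' : G} (h : Ap S.J g g') : Ap S.N g g' := S.le h

lemma Phi.of_ap {g g' : G} (h : Ap S.N g g') (h' : S.Phi g') : S.Phi g where
  base :=
    { ea := ed_ap h h'.base.ea
      eb := ed_ap h h'.base.eb
      ec := fun i hi => ed_ap (h.right _ rfl rfl) (h'.base.ec i hi)
      ed := fun j hj => ed_ap (h.right _ rfl rfl) (h'.base.ed j hj)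
      ec' := fun i hi j hj =>
        ed_ap (h.right _ (mul_assoc _ _ _) (mul_assoc _ _ _)) (h'.base.ec' i hi j hj)
      ed' := fun i hi j hj =>
        ed_ap (h.right _ (mul_assoc _ _ _) (mul_assoc _ _ _)) (h'.base.ed' i hi j hj) }
  lev i hi j hj :=
    ((h.right _ (mul_assoc _ _ _) (mul_assoc _ _ _)).trans (h'.lev i hi j hj)).trans h.symm

lemma Base.half {g : G} (h : S.Base g) {i j : ℤ} (hi : i ∈ S.I) :
    Ap S.J (g * S.u i * S.v j) (g * S.b ^ j * S.a ^ i * S.c ^ i * S.d ^ j) := by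
  have h1 := S.bc.symm.sw (h.ec i hi) (S.ab.symm.mv h.eb h.ea i) i j
  have h2 := S.ab.sw h.ea h.eb i j
  exact (h1.right (S.d ^ j) (by simp only [u, v, mul_assoc]) rfl).trans
    (h2.right (S.c ^ i * S.d ^ j) (by simp only [mul_assoc]) (by simp only [mul_assoc]))

lemma Base.swap {g : G} (h : S.Base g) {i j : ℤ} (hi : i ∈ S.I) (hj : j ∈ S.I) :
    Ap S.J (g * S.u i * S.v j) (g * S.v j * S.u i) := by
  have h3 := S.cd.sw (h.ec' i hi j hj) (h.ed' i hi j hj) i j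
  have h4 := S.da.symm.sw (S.ab.mv h.ea h.eb j) (h.ed j hj) i j
  exact ((h.half hi).trans h3).trans
    (h4.right (S.c ^ i) rfl (by simp only [u, v, mul_assoc]))

lemma Phi.lev' {g : G} (h : S.Phi g) {i j : ℤ} (hi : i ∈ S.I) (hj : j ∈ S.I) :
    Ap S.N (g * S.v j * S.u i) g :=
  (ap_le (h.base.swap hi hj)).symm.trans (h.lev i hi j hj)

lemma Phi.ecd {g : G} (h : S.Phi g) {i : ℤ} (hi : i ∈ S.I) :
    Ed S.J S.c S.pc g ∧ Ed S.J S.d S.pd g := by
  have h1 := (h.lev i hi i hi).symm.trans (ap_le (h.base.half (j := i) hi))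
  have hc := (h.base.ec' i hi i hi).self i
  have hd := S.cd.symm.mv (h.base.ed' i hi i hi) (h.base.ec' i hi i hi) i
  exact ⟨ed_ap h1 (S.cd.mv hc hd i), ed_ap h1 (hd.self i)⟩

lemma Phi.up {g : G} (h : S.Phi g) {k : ℤ} (hk : k ∈ S.I) : S.Phi (g * S.u k) := by
  obtain ⟨hc, hd⟩ := h.ecd hk
  have ha := h.base.ea
  have hb := h.base.eb
  have A1 : ∀ j ∈ S.I, Ap S.N (g * S.u k * S.b ^ j) (g * S.d ^ (-j)) := fun j hj =>
    (h.lev k hk j hj).right (S.d ^ (-j)) (by simp [v, mul_assoc]) rfl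
  have eb : Ed S.J S.b S.pb (g * S.u k) := by
    rw [u, ← mul_assoc]
    exact S.bc.mv (S.ab.symm.mv hb ha k) (h.base.ec k hk) k
  have ea : Ed S.J S.a S.pa (g * S.u k) :=
    S.ab.mv' (ed_ap (A1 k hk) (S.da.symm.mv ha hd (-k))) eb
  have A2 : ∀ i : ℤ, ∀ j ∈ S.I, Ap S.N (g * S.u k * S.b ^ j * S.a ^ i)
      (g * S.a ^ i * S.d ^ (-j)) := fun i j hj =>
    ((A1 j hj).right _ rfl rfl).trans (ap_le (S.da.sw hd ha (-j) i))
  have ec' : ∀ i ∈ S.I, ∀ j ∈ S.I, Ed S.J S.c S.pc (g * S.u k * S.b ^ j * S.a ^ i) :=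
    fun i hi j hj => ed_ap (A2 i j hj) (S.cd.mv (h.base.ec i hi) (S.da.mv hd ha i) (-j))
  have hbase : S.Base (g * S.u k) :=
    { ea := ea
      eb := eb
      ec := fun i hi => S.bc.symm.mv' (ed_ap (ap_le (S.ab.sw ea eb i k)) (ec' i hi k hk))
        (S.ab.symm.mv eb ea i)
      ed := fun j hj => ed_ap (A1 j hj) (hd.self (-j))
      ec' := ec'
      ed' := fun i hi j hj => ed_ap (A2 i j hj) ((S.da.mv hd ha i).self (-j)) }
  refine ⟨hbase, fun i hi j hj => ?_⟩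
  have h1 : Ap S.N (g * S.u i) (g * S.u k) :=
    ((h.lev i hi j hj).trans (h.lev k hk j hj).symm).right (S.v j)⁻¹ (by simp) (by simp)
  exact ((ap_le (hbase.swap hi hj)).trans ((h.lev k hk j hj).right _ rfl rfl)).trans h1

lemma Phi.down {g : G} (h : S.Phi g) {l : ℤ} (hl : l ∈ S.I) : S.Phi (g * S.v l) := by
  obtain ⟨hc, hd⟩ := h.ecd hl
  have ha := h.base.ea
  have hb := h.base.eb
  have A1 : ∀ i ∈ S.I, Ap S.N (g * S.v l * S.a ^ i) (g * S.c ^ (-i)) := fun i hi =>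
    (h.lev' hi hl).right (S.c ^ (-i)) (by simp [u, mul_assoc]) rfl
  have ea : Ed S.J S.a S.pa (g * S.v l) := by
    rw [v, ← mul_assoc]
    exact S.da.symm.mv (S.ab.mv ha hb l) (h.base.ed l hl) l
  have eb : Ed S.J S.b S.pb (g * S.v l) :=
    S.ab.symm.mv' (ed_ap (A1 l hl) (S.bc.mv hb hc (-l))) ea
  have A2 : ∀ i ∈ S.I, ∀ j : ℤ, Ap S.N (g * S.v l * S.b ^ j * S.a ^ i)
      (g * S.b ^ j * S.c ^ (-i)) := fun i hi j =>
    ((ap_le (S.ab.symm.sw eb ea j i)).trans ((A1 i hi).right _ rfl rfl)).trans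
      (ap_le (S.bc.symm.sw hc hb (-i) j))
  have ed' : ∀ i ∈ S.I, ∀ j ∈ S.I, Ed S.J S.d S.pd (g * S.v l * S.b ^ j * S.a ^ i) :=
    fun i hi j hj => ed_ap (A2 i hi j)
      (S.cd.symm.mv (h.base.ed j hj) (S.bc.symm.mv hc hb j) (-i))
  have hbase : S.Base (g * S.v l) :=
    { ea := ea
      eb := eb
      ec := fun i hi => ed_ap (A1 i hi) (hc.self (-i))
      ed := fun j hj => S.da.mv' (ed' l hl j hj) (S.ab.mv ea eb j)
      ec' := fun i hi j hj => ed_ap (A2 i hi j) ((S.bc.symm.mv hc hb j).self (-i))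
      ed' := ed' }
  refine ⟨hbase, fun i hi j hj => ?_⟩
  have h1 : Ap S.N (g * S.v j) (g * S.v l) :=
    ((h.lev' hi hj).trans (h.lev' hi hl).symm).right (S.u i)⁻¹ (by simp) (by simp)
  exact ((h.lev' hi hl).right _ rfl rfl).trans h1

/-- The subgroup generated by the ascending elements. -/
def U (S : Setup G) : Subgroup G := closure (S.u '' S.I ∪ S.v '' S.I)

lemma phi_all (h : S.Phi 1) {g : G} (hg : g ∈ S.U) : S.Phi g := by
  induction hg using closure_induction_right with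
  | one => exact h
  | mul_right x _ y hy ih =>
    rcases hy with ⟨k, hk, rfl⟩ | ⟨l, hl, rfl⟩
    · exact ih.up hk
    · exact ih.down hl
  | mul_inv_cancel x _ y hy ih =>
    rcases hy with ⟨k, hk, rfl⟩ | ⟨l, hl, rfl⟩
    · exact Phi.of_ap ((ih.lev' hk hk).symm.right (S.u k)⁻¹ rfl (by simp)) (ih.down hk)
    · exact Phi.of_ap ((ih.lev l hl l hl).symm.right (S.v l)⁻¹ rfl (by simp)) (ih.up hl)

end Setup

lemma commute_conj_pow {Q : Type} [Group Q] {u1 u2 v1 v2 : Q} (h11 : Commute u1 v1)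
    (h12 : Commute u1 v2) (h21 : Commute u2 v1) (h22 : Commute u2 v2) (n : ℕ) :
    Commute ((u1 * v1) ^ n * (u2 * v1 * (u1 * v1)⁻¹) * ((u1 * v1) ^ n)⁻¹)
      ((u1 * v1)⁻¹ * (u1 * v2)) := by
  have e1 : u2 * v1 * (u1 * v1)⁻¹ = u2 * u1⁻¹ := by group
  have e2 : (u1 * v1)⁻¹ * (u1 * v2) = v1⁻¹ * v2 := by group
  have h3 : Commute (v1 ^ n) (u2 * u1⁻¹) := ((h21.mul_left h11.inv_left).pow_right n).symm
  have e3 : (u1 * v1) ^ n * (u2 * u1⁻¹) * ((u1 * v1) ^ n)⁻¹ =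
      u1 ^ n * (u2 * u1⁻¹) * (u1 ^ n)⁻¹ := by
    rw [h11.mul_pow, mul_assoc (u1 ^ n), h3.eq]; group
  rw [e1, e2, e3]
  have k1 : Commute u1 (v1⁻¹ * v2) := h11.inv_right.mul_right h12
  have k2 : Commute u2 (v1⁻¹ * v2) := h21.inv_right.mul_right h22
  exact ((k1.pow_left n).mul_left (k2.mul_left k1.inv_left)).mul_left (k1.pow_left n).inv_left

theorem Setup.comm_mem {S : Setup G} (h : S.Phi 1) {i j : ℤ} (hi : i ∈ S.I) (hj : j ∈ S.I)
    (n : ℕ) : ⁅(S.u i * S.v i) ^ n * (S.u j * S.v i * (S.u i * S.v i)⁻¹) * ((S.u i * S.v i) ^ n)⁻¹,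
      (S.u i * S.v i)⁻¹ * (S.u i * S.v j)⁆ ∈ S.J := by
  let M : Subgroup S.U := (S.J.subgroupOf S.U).normalCore
  let uu : ∀ k ∈ S.I, S.U := fun k hk => ⟨S.u k, subset_closure (Or.inl ⟨k, hk, rfl⟩)⟩
  let vv : ∀ k ∈ S.I, S.U := fun k hk => ⟨S.v k, subset_closure (Or.inr ⟨k, hk, rfl⟩)⟩
  let f := QuotientGroup.mk' M
  have hc : ∀ k hk l hl, Commute (f (uu k hk)) (f (vv l hl)) := by
    intro k hk l hl
    rw [← commutatorElement_eq_one_iff_commute, ← map_commutatorElement, QuotientGroup.mk'_apply,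
      QuotientGroup.eq_one_iff]
    intro g
    have := (Setup.phi_all h g.2).base.swap hk hl
    rw [Ap] at this
    show (g : G) * ⁅S.u k, S.v l⁆ * (g : G)⁻¹ ∈ S.J
    convert this using 1
    rw [commutatorElement_def]; group
  have h1 := commute_conj_pow (hc i hi i hi) (hc i hi j hj) (hc j hj i hi) (hc j hj j hj) n
  rw [← commutatorElement_eq_one_iff_commute] at h1
  simp only [← map_mul, ← map_inv, ← map_pow, ← map_commutatorElement] at h1
  rw [QuotientGroup.mk'_apply, QuotientGroup.eq_one_iff] at h1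
  exact normalCore_le (S.J.subgroupOf S.U) h1

end Pool.Agent.Lib.MP_5a5e3d_al
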