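import Mathlib
import Pool.Agent.Lib.MP_5a5e3d_al.Morse
import Pool.Agent.Lib.MP_5a5e3d_al.DgStar

/-! The Morse lemma: a partial equivariant map extends level by level. -/

namespace Pool.Agent.Lib.MP_5a5e3d_al

open Subgroup Equiv

section Vx

variable {G : Type} [Group G]

lemma BS.conj_pow {x y : G} {M N : ℕ} (h : BS x y M N) (i : ℕ) (j : ℤ) :
    (x ^ i)⁻¹ * y ^ (j * M ^ i) * x ^ i = y ^ (j * N ^ i) := by
  have h1 : ∀ t : ℤ, x⁻¹ * y ^ (t * M) * x = y ^ (t * N) := by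
    intro t
    rw [mul_comm t, mul_comm t, zpow_mul, zpow_mul, zpow_natCast, zpow_natCast, ← h]
    simpa using (conj_zpow (a := x⁻¹) (b := y ^ M) (i := t)).symm
  induction i generalizing j with
  | zero => simp
  | succ i ih =>
    calc (x ^ (i + 1))⁻¹ * y ^ (j * M ^ (i + 1)) * x ^ (i + 1)
        = x⁻¹ * ((x ^ i)⁻¹ * y ^ (j * M * M ^ i) * x ^ i) * x := by
          rw [pow_succ x, pow_succ' (M : ℤ), mul_assoc j]; group
      _ = y ^ (j * N ^ (i + 1)) := by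
          rw [ih, show j * M * N ^ i = j * N ^ i * M by ring, h1, pow_succ, mul_assoc]

lemma mem_of_coprime {W : Subgroup G} {g : G} {a b : ℤ} (hab : IsCoprime a b) (ha : g ^ a ∈ W)
    (hb : g ^ b ∈ W) : g ∈ W := by
  obtain ⟨s, t, h⟩ := hab
  rw [← zpow_one g, ← h, zpow_add, mul_comm s, mul_comm t, zpow_mul, zpow_mul]
  exact mul_mem (zpow_mem ha s) (zpow_mem hb t)

lemma vx_of_bs' {x y : G} {M N l : ℕ} (h : BS x y M N) (hl : l ≠ 0)
    (hMN : IsCoprime (M : ℤ) N) (hM : IsCoprime (M : ℤ) l) (hn : (l : ℤ) ∣ N - M) :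
    Vx x y l l := by
  set W := closure ({x ^ l, y ^ l} : Set G) with hW
  have hx : x ^ l ∈ W := subset_closure (by simp)
  have hy : y ^ l ∈ W := subset_closure (by simp)
  have hyd : ∀ t : ℤ, (l : ℤ) ∣ t → y ^ t ∈ W := by
    rintro _ ⟨t, rfl⟩
    rw [zpow_mul, zpow_natCast]
    exact zpow_mem hy t
  have hq : ∀ i : ℕ, (l : ℤ) ∣ (N : ℤ) ^ i - M ^ i := fun i =>
    hn.trans (sub_dvd_pow_sub_pow _ _ i)
  have hgen : ∀ z : G, z * x ^ l * z⁻¹ ∈ W → z * y ^ l * z⁻¹ ∈ W → ∀ w ∈ W, z * w * z⁻¹ ∈ W := by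
    intro z h1 h2 w hw
    have : W ≤ W.comap (MulAut.conj z).toMonoidHom := by
      rw [hW, closure_le]
      rintro _ (rfl | rfl)
      · exact h1
      · exact h2
    exact this hw
  -- every exponent is a multiple of `M ^ i` modulo `l`
  have hsplit : ∀ (i : ℕ) (j : ℤ), ∃ s t : ℤ, j = s * M ^ i + l * t := by
    intro i j
    obtain ⟨s, t, hst⟩ := hM.pow_left (m := i)
    exact ⟨j * s, j * t, by linear_combination (-j) * hst⟩
  have hyx : ∀ j : ℤ, y ^ j * x ^ l * (y ^ j)⁻¹ ∈ W := by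
    intro j
    obtain ⟨s, t, rfl⟩ := hsplit l j
    have e : y ^ (s * M ^ l + l * t) * x ^ l * (y ^ (s * M ^ l + l * t))⁻¹ =
        y ^ ((l : ℤ) * t) * (x ^ l * y ^ (s * (N ^ l - M ^ l))) * (y ^ ((l : ℤ) * t))⁻¹ := by
      rw [mul_sub, zpow_sub, ← h.conj_pow l s]; group
    rw [e]
    exact mul_mem (mul_mem (hyd _ (Dvd.intro _ rfl))
      (mul_mem hx (hyd _ (Dvd.dvd.mul_left (hq l) s)))) (inv_mem (hyd _ (Dvd.intro _ rfl)))
  have hconj : ∀ i k : ℕ, i + k = l → x ^ i * y ^ l * (x ^ i)⁻¹ ∈ W := by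
    intro i k hik
    refine mem_of_coprime (a := (M : ℤ) ^ k) (b := (N : ℤ) ^ i) hMN.pow ?_ ?_
    · have e : (x ^ i * y ^ l * (x ^ i)⁻¹) ^ ((M : ℤ) ^ k) =
          x ^ (i + k) * y ^ ((l : ℤ) * N ^ k) * (x ^ (i + k))⁻¹ := by
        rw [conj_zpow, ← zpow_natCast y, ← zpow_mul, ← h.conj_pow k l, pow_add]; group
      rw [e, hik]
      exact mul_mem (mul_mem hx (hyd _ (Dvd.intro _ rfl))) (inv_mem hx)
    · have e : (x ^ i * y ^ l * (x ^ i)⁻¹) ^ ((N : ℤ) ^ i) = y ^ ((l : ℤ) * M ^ i) := by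
        rw [conj_zpow, ← zpow_natCast y, ← zpow_mul, ← h.conj_pow i l]; group
      rw [e]
      exact hyd _ (Dvd.intro _ rfl)
  obtain ⟨k, hk⟩ := Nat.exists_eq_succ_of_ne_zero hl
  have hnorm : ∀ z ∈ closure ({x, y} : Set G), ∀ w ∈ W, z * w * z⁻¹ ∈ W := by
    intro z hz
    induction hz using closure_induction'' with
    | mem z hz =>
      rcases hz with rfl | rfl
      · exact hgen _ (by simpa [← pow_succ', pow_succ] using hx)
          (by simpa using hconj 1 k (by omega))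
      · exact hgen _ (by simpa using hyx 1) (by simpa [← pow_succ', pow_succ] using hy)
    | inv_mem z hz =>
      rcases hz with rfl | rfl
      · refine hgen _ (by simpa [mul_assoc, ← pow_succ, pow_succ'] using hx) ?_
        have e : z⁻¹ * y ^ l * z⁻¹⁻¹ =
            (z ^ (k + 1))⁻¹ * (z ^ k * y ^ l * (z ^ k)⁻¹) * z ^ (k + 1) := by group
        rw [e, show k + 1 = l by omega]
        exact mul_mem (mul_mem (inv_mem hx) (hconj k 1 (by omega))) hx
      · exact hgen _ (by simpa using hyx (-1))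
          (by simpa [mul_assoc, ← pow_succ, pow_succ'] using hy)
    | one => intro w hw; simpa using hw
    | mul z z' _ _ h1 h2 =>
      intro w hw
      have e : z * z' * w * (z * z')⁻¹ = z * (z' * w * z'⁻¹) * z⁻¹ := by group
      rw [e]
      exact h1 _ (h2 _ hw)
  have hxm : ∀ i : ℤ, x ^ i ∈ closure ({x, y} : Set G) := fun i =>
    zpow_mem (subset_closure (by simp)) i
  have hcomm : ∀ (i : ℕ) (j : ℤ), (x ^ i)⁻¹ * y ^ j * x ^ i * (y ^ j)⁻¹ ∈ W := by
    intro i j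
    obtain ⟨s, t, rfl⟩ := hsplit i j
    have e : (x ^ i)⁻¹ * y ^ (s * M ^ i + l * t) * x ^ i * (y ^ (s * M ^ i + l * t))⁻¹ =
        (x ^ (-(i : ℤ)) * y ^ ((l : ℤ) * t) * (x ^ (-(i : ℤ)))⁻¹) * y ^ (s * (N ^ i - M ^ i)) *
          (y ^ ((l : ℤ) * t))⁻¹ := by
      rw [mul_sub, zpow_sub, ← h.conj_pow i s]; group
    rw [e]
    exact mul_mem (mul_mem (hnorm _ (hxm _) _ (hyd _ (Dvd.intro _ rfl)))
      (hyd _ (Dvd.dvd.mul_left (hq i) s))) (inv_mem (hyd _ (Dvd.intro _ rfl)))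
  refine ⟨hnorm, fun i j => ?_⟩
  obtain ⟨t, rfl | rfl⟩ := i.eq_nat_or_neg
  · have e : x ^ (t : ℤ) * y ^ j * (y ^ j * x ^ (t : ℤ))⁻¹ =
        x ^ (t : ℤ) * ((x ^ t)⁻¹ * y ^ j * x ^ t * (y ^ j)⁻¹)⁻¹ * (x ^ (t : ℤ))⁻¹ := by group
    rw [e]
    exact hnorm _ (hxm _) _ (inv_mem (hcomm t j))
  · have e : x ^ (-(t : ℤ)) * y ^ j * (y ^ j * x ^ (-(t : ℤ)))⁻¹ =
        (x ^ t)⁻¹ * y ^ j * x ^ t * (y ^ j)⁻¹ := by group
    rw [e]
    exact hcomm t j

variable {Y : Type} [MulAction G Y]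

lemma vx_fix {x y : G} {l : ℕ} {p : Y} (hx : x ^ l • p = p) (hy : y ^ l • p = p) {w : G}
    (hw : w ∈ closure ({x ^ l, y ^ l} : Set G)) : w • p = p := by
  have : closure ({x ^ l, y ^ l} : Set G) ≤ MulAction.stabilizer G p := by
    rw [closure_le]
    rintro _ (rfl | rfl)
    · exact hx
    · exact hy
  exact this hw

lemma Vx.comm_smul {x y : G} {l : ℕ} (h : Vx x y l l) {p : Y} (hx : x ^ l • p = p)
    (hy : y ^ l • p = p) (i j : ℤ) : x ^ i • y ^ j • p = y ^ j • x ^ i • p := by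
  have h1 := vx_fix hx hy (h.comm (-i) (-j))
  have e : x ^ i * y ^ j = y ^ j * x ^ i * (x ^ (-i) * y ^ (-j) * (y ^ (-j) * x ^ (-i))⁻¹) := by
    group
  rw [← mul_smul, ← mul_smul, e, mul_smul, h1]

lemma Vx.fix_smul {x y : G} {l : ℕ} (h : Vx x y l l) {p : Y} (hx : x ^ l • p = p)
    (hy : y ^ l • p = p) (j : ℤ) : x ^ l • y ^ j • p = y ^ j • p := by
  have h1 := vx_fix hx hy (h.norm (y ^ (-j)) (zpow_mem (subset_closure (by simp)) _) (x ^ l)
    (subset_closure (by simp)))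
  have e : x ^ l * y ^ j = y ^ j * (y ^ (-j) * x ^ l * (y ^ (-j))⁻¹) := by group
  rw [← mul_smul, e, mul_smul, h1]

lemma zpow_fix {x : G} {l : ℕ} {p : Y} (hx : x ^ l • p = p) {i : ℤ} (hi : (l : ℤ) ∣ i) :
    x ^ i • p = p := by
  obtain ⟨t, rfl⟩ := hi
  rw [zpow_mul, zpow_natCast]
  exact (MulAction.stabilizer G p).zpow_mem (x := x ^ l) hx t

end Vx

section Morse

variable {T B P Y : Type} [Group P] [MulAction P Y]

/-- The map `σ` is equivariant for the moves between points of `S` of level at most `r`. -/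
def Compat (X : T → Perm B) (a : T → P) (φ : B → ℕ) (S : Set B) (r : ℕ) (σ : B → Y) : Prop :=
  ∀ b ∈ S, ∀ s (i : ℤ), φ b ≤ r → φ ((X s ^ i) b) ≤ r → σ ((X s ^ i) b) = a s ^ i • σ b

/-- A descending direction. -/
def Desc (X : T → Perm B) (φ : B → ℕ) (b : B) (s : T) : Prop := ∃ i : ℤ, φ ((X s ^ i) b) < φ b

/-- A descending square. -/
def Sq (adj : T → T → Prop) (X : T → Perm B) (φ : B → ℕ) (b : B) (s t : T) : Prop :=
  adj s t ∧ ∃ i j : ℤ, φ ((X s ^ i) b) < φ b ∧ φ ((X t ^ j) b) < φ b ∧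
    φ ((X s ^ i) ((X t ^ j) b)) < φ b ∧ (X s ^ i) ((X t ^ j) b) = (X t ^ j) ((X s ^ i) b)

/-- The local conditions at a point. -/
structure Loc (adj : T → T → Prop) (l : ℕ) (X : T → Perm B) (φ : B → ℕ) (b : B) : Prop where
  inj : ∀ s (i : ℤ), φ ((X s ^ i) b) = φ b → (l : ℤ) ∣ i
  ne : ∃ s, Desc X φ b s
  nb : ∀ s, ¬ Desc X φ b s → ∃ t, adj s t ∧ Desc X φ b t
  conn : ∀ s t, Desc X φ b s → Desc X φ b t → Relation.ReflTransGen (Sq adj X φ b) s t

variable {adj : T → T → Prop} {l : ℕ} {X : T → Perm B} {a : T → P} {φ : B → ℕ} {S : Set B}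

lemma zpow_neg_apply (f : Perm B) (i : ℤ) (b : B) : (f ^ (-i)) ((f ^ i) b) = b := by
  rw [← Perm.mul_apply, ← zpow_add, neg_add_cancel, zpow_zero, Perm.one_apply]

lemma Compat.fix (hX : ∀ s, X s ^ l = 1) {r : ℕ} {σ : B → Y} (h : Compat X a φ S r σ) {b : B}
    (hb : b ∈ S) (hr : φ b ≤ r) (s : T) : a s ^ l • σ b = σ b := by
  have e : (X s ^ (l : ℤ)) b = b := by rw [zpow_natCast, hX, Perm.one_apply]
  have := h b hb s l hr (by rwa [e])
  rw [e, zpow_natCast] at this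
  exact this.symm

lemma compat_of_fin (hl : l ≠ 0) (hX : ∀ s, X s ^ l = 1) {r : ℕ} {σ : B → Y}
    (h : ∀ b ∈ S, ∀ s (i : Fin (l + 1)), φ b ≤ r → σ ((X s ^ (i : ℕ)) b) = a s ^ (i : ℕ) • σ b) :
    Compat X a φ S r σ := by
  intro b hb s i h1 _
  have hl' : (0 : ℤ) < l := by omega
  have h2 := h b hb s (Fin.last l) h1
  rw [Fin.val_last, hX, Perm.one_apply] at h2
  have h3 := h b hb s ⟨(i % l).toNat, by have := Int.emod_lt_of_pos i hl'; omega⟩ h1
  simp only [← zpow_natCast, Int.toNat_of_nonneg (Int.emod_nonneg i hl'.ne')] at h3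
  have e : i = i % l + l * (i / l) := (Int.emod_add_mul_ediv i l).symm
  have e1 : X s ^ i = X s ^ (i % l) := by
    conv_lhs => rw [e, zpow_add, zpow_mul, zpow_natCast, hX, one_zpow, mul_one]
  rw [e1, h3]
  conv_rhs => rw [e, zpow_add, mul_smul, zpow_fix h2.symm (Dvd.intro _ rfl)]

lemma morse_step (hv : ∀ s t, adj s t → Vx (a s) (a t) l l) (hX : ∀ s, X s ^ l = 1)
    (hS : ∀ b ∈ S, ∀ s (i : ℤ), (X s ^ i) b ∈ S) {r : ℕ}
    (hloc : ∀ b ∈ S, φ b = r + 1 → Loc adj l X φ b) {σ : B → Y} (h : Compat X a φ S r σ) :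
    ∃ σ' : B → Y, Compat X a φ S (r + 1) σ' ∧ ∀ b, φ b ≤ r → σ' b = σ b := by
  classical
  let σ' : B → Y := fun b => if φ b ≤ r then σ b else
    if h : ∃ p : T × ℤ, φ ((X p.1 ^ p.2) b) ≤ r then
      a h.choose.1 ^ (-h.choose.2) • σ ((X h.choose.1 ^ h.choose.2) b) else σ b
  have hlow : ∀ b, φ b ≤ r → σ' b = σ b := fun b hb => if_pos hb
  have hsame : ∀ b ∈ S, ∀ s (i j : ℤ), φ ((X s ^ i) b) ≤ r → φ ((X s ^ j) b) ≤ r →
      a s ^ (-i) • σ ((X s ^ i) b) = a s ^ (-j) • σ ((X s ^ j) b) := by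
    intro b hb s i j hi hj
    have e : (X s ^ j) b = (X s ^ (j - i)) ((X s ^ i) b) := by
      rw [← Perm.mul_apply, ← zpow_add, sub_add_cancel]
    rw [e, h _ (hS b hb s i) s (j - i) hi (e ▸ hj), ← mul_smul, ← zpow_add]
    congr 2
    ring
  have hkey : ∀ b ∈ S, φ b = r + 1 → ∀ s (i : ℤ), φ ((X s ^ i) b) ≤ r →
      σ' b = a s ^ (-i) • σ ((X s ^ i) b) := by
    intro b hb hφ s i hi
    have hex : ∃ p : T × ℤ, φ ((X p.1 ^ p.2) b) ≤ r := ⟨(s, i), hi⟩
    have e : σ' b = a hex.choose.1 ^ (-hex.choose.2) •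
        σ ((X hex.choose.1 ^ hex.choose.2) b) := by
      simp only [σ', if_neg (show ¬ φ b ≤ r by omega), dif_pos hex]
    have h0 := hex.choose_spec
    rw [e]
    generalize hex.choose = p at h0
    obtain ⟨s0, i0⟩ := p
    have hc := (hloc b hb hφ).conn s0 s ⟨i0, by simp only at h0; omega⟩ ⟨i, by omega⟩
    simp only at h0 ⊢
    induction hc generalizing i with
    | refl => exact hsame b hb s0 i0 i h0 hi
    | @tail s t _ hst ih =>
      obtain ⟨hadj, i', j', k1, k2, k3, k4⟩ := hst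
      rw [ih i' (by omega), hsame b hb t i j' hi (by omega)]
      have hb' := hS _ (hS b hb t j') s i'
      have e1 := h _ hb' s (-i') (by omega) (by rw [zpow_neg_apply]; omega)
      have e2 := h _ hb' t (-j') (by omega) (by rw [k4, zpow_neg_apply]; omega)
      rw [zpow_neg_apply] at e1
      conv_lhs at e2 => rw [k4, zpow_neg_apply]
      rw [e1, e2]
      exact (hv s t hadj).comm_smul (h.fix hX hb' (by omega) s) (h.fix hX hb' (by omega) t) _ _
  refine ⟨σ', fun b hb s i h1 h2 => ?_, hlow⟩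
  by_cases k1 : φ b ≤ r <;> by_cases k2 : φ ((X s ^ i) b) ≤ r
  · rw [hlow _ k1, hlow _ k2]
    exact h b hb s i k1 k2
  · rw [hkey _ (hS b hb s i) (by omega) s (-i) (by rwa [zpow_neg_apply]), neg_neg,
      zpow_neg_apply, hlow _ k1]
  · rw [hkey b hb (by omega) s i k2, hlow _ k2, ← mul_smul, ← zpow_add, add_neg_cancel, zpow_zero,
      one_smul]
  · have hφ : φ b = r + 1 := by omega
    have hd := (hloc b hb hφ).inj s i (by omega)
    have e : (X s ^ i) b = b := by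
      obtain ⟨t, rfl⟩ := hd
      rw [zpow_mul, zpow_natCast, hX, one_zpow, Perm.one_apply]
    rw [e]
    refine (zpow_fix ?_ hd).symm
    by_cases hs : Desc X φ b s
    · obtain ⟨j, hj⟩ := hs
      rw [hkey b hb hφ s j (by omega), ← mul_smul, ← zpow_natCast, ← zpow_add, add_comm, zpow_add,
        mul_smul, zpow_natCast, h.fix hX (hS b hb s j) (by omega)]
    · obtain ⟨t, hst, j, hj⟩ := (hloc b hb hφ).nb s hs
      rw [hkey b hb hφ t j (by omega)]
      exact (hv s t hst).fix_smul (h.fix hX (hS b hb t j) (by omega) s)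
        (h.fix hX (hS b hb t j) (by omega) t) _

theorem morse (hv : ∀ s t, adj s t → Vx (a s) (a t) l l) (hX : ∀ s, X s ^ l = 1)
    (hS : ∀ b ∈ S, ∀ s (i : ℤ), (X s ^ i) b ∈ S) {R L : ℕ} (hRL : R ≤ L)
    (hloc : ∀ b ∈ S, R < φ b → φ b ≤ L → Loc adj l X φ b) {σ : B → Y} (h : Compat X a φ S R σ) :
    ∃ σ' : B → Y, Compat X a φ S L σ' ∧ ∀ b, φ b ≤ R → σ' b = σ b := by
  induction L, hRL using Nat.le_induction with
  | base => exact ⟨σ, h, fun _ _ => rfl⟩
  | succ L hL ih =>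
    obtain ⟨σ1, h1, h2⟩ := ih fun b hb k1 k2 => hloc b hb k1 (by omega)
    obtain ⟨σ2, h3, h4⟩ := morse_step hv hX hS
      (fun b hb k => hloc b hb (by omega) (by omega)) h1
    exact ⟨σ2, h3, fun b hb => (h4 b (by omega)).trans (h2 b hb)⟩

end Morse

theorem exists_induced {P Z : Type} [Group P] (J : Subgroup P) (ψ : J →* Perm Z) :
    ∃ (Y : Type) (_ : MulAction P Y) (mk : P → Z → Y),
      (∀ g g' z, g • mk g' z = mk (g * g') z) ∧ (∀ g (j : J) z, mk (g * j) z = mk g (ψ j z)) ∧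
      ∀ g z z', mk g z = mk g z' → z = z' := by
  let s : Setoid (P × Z) :=
    { r := fun p q => ∃ j : J, p.1 = q.1 * j ∧ ψ j p.2 = q.2
      iseqv :=
        { refl := fun p => ⟨1, by simp, by simp⟩
          symm := by
            rintro p q ⟨j, h1, h2⟩
            exact ⟨j⁻¹, by simp [h1], by simp [← h2]⟩
          trans := by
            rintro p q t ⟨j, h1, h2⟩ ⟨j', h3, h4⟩
            exact ⟨j' * j, by simp [h1, h3, mul_assoc], by simp [h2, h4]⟩ } }
  let act : MulAction P (Quotient s) :=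
    { smul := fun g => Quotient.map (fun p => (g * p.1, p.2)) (by
        rintro p q ⟨j, h1, h2⟩
        exact ⟨j, by simp [h1, mul_assoc], h2⟩)
      one_smul := fun y => Quotient.inductionOn y fun p =>
        congrArg (Quotient.mk s) (Prod.ext (one_mul _) rfl)
      mul_smul := fun g g' y => Quotient.inductionOn y fun p =>
        congrArg (Quotient.mk s) (Prod.ext (mul_assoc _ _ _) rfl) }
  refine ⟨Quotient s, act, fun g z => Quotient.mk s (g, z), fun _ _ _ => rfl,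
    fun g j z => Quotient.sound ⟨j, rfl, rfl⟩, fun g z z' h => ?_⟩
  obtain ⟨j, h1, h2⟩ := Quotient.exact h
  have : j = 1 := Subtype.ext (by simpa using h1)
  simpa [this] using h2

end Pool.Agent.Lib.MP_5a5e3d_al
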