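import Mathlib
import Pool.Agent.Lib.MP_5a5e3d_al.DgMorse

/-! The height functions and the permutation models. -/

namespace Pool.Agent.Lib.MP_5a5e3d_al

open Equiv

/-- Heights along the coordinate lines such that the extreme directions form cliques. -/
structure Hgt {T : Type} [DecidableEq T] (adj : T → T → Prop) (l : ℕ)
    (H : T → (T → ZMod l) → ℤ) (q0 : T → ZMod l) : Prop where
  bd : ∀ s q, -1 ≤ H s q ∧ H s q ≤ l
  nb : ∀ s t q v, adj s t → H s (q + Pi.single t v) = H s q
  inj : ∀ s q v, H s (q + Pi.single s v) = H s q → v = 0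
  min : ∀ q s t, s ≠ t → (∀ v, H s q ≤ H s (q + Pi.single s v)) →
    (∀ v, H t q ≤ H t (q + Pi.single t v)) → adj s t
  max : ∀ q s t, s ≠ t → (∀ v, H s (q + Pi.single s v) ≤ H s q) →
    (∀ v, H t (q + Pi.single t v) ≤ H t q) → adj s t
  top : ∀ s, ∃ v, H s (q0 + Pi.single s v) < H s q0

theorem exists_hgt {T : Type} [Fintype T] [DecidableEq T] (adj : T → T → Prop)
    (hsymm : ∀ s t, adj s t → adj t s) (hirr : ∀ s, ¬ adj s s) {l : ℕ}
    (hl : 2 ^ Fintype.card T * 2 ≤ l) :
    ∃ H q0, Hgt adj l H q0 := by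
  classical
  have hl0 : l ≠ 0 := by have := Nat.two_pow_pos (Fintype.card T); omega
  have : NeZero l := ⟨hl0⟩
  obtain ⟨enc⟩ : Nonempty (((T → Bool) × Bool) ↪ ZMod l) :=
    Function.Embedding.nonempty_of_card_le (by simpa [ZMod.card] using hl)
  let dec : ZMod l → (T → Bool) × Bool := Function.invFun enc
  have hdec : ∀ p, dec (enc p) = p := Function.leftInverse_invFun enc.injective
  obtain ⟨f, hf⟩ := Countable.exists_injective_nat T
  let M : Bool → T → (T → ZMod l) → ZMod l := fun ε s q => enc (fun u =>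
    if adj s u ∨ u = s then false else xor ((dec (q u)).1 s) (decide (f s < f u)), ε)
  have hM1 : ∀ ε s t q v, adj s t ∨ t = s → M ε s (q + Pi.single t v) = M ε s q := by
    intro ε s t q v h
    refine congrArg enc (Prod.ext (funext fun u => ?_) rfl)
    by_cases hu : adj s u ∨ u = s
    · simp only [if_pos hu]
    · have : u ≠ t := fun k => hu (k ▸ h)
      simp only [if_neg hu, Pi.add_apply, Pi.single_eq_of_ne this, add_zero]
  have hM2 : ∀ ε q s u, s ≠ u → q s = M ε s q → q u = M ε u q → adj s u := by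
    intro ε q s u hsu h1 h2
    by_contra h
    have k1 : (dec (q s)).1 u = xor ((dec (q u)).1 s) (decide (f s < f u)) := by
      conv_lhs => rw [h1]
      simp only [M, hdec]
      exact if_neg (by rintro (k | k); exacts [h k, hsu k.symm])
    have k2 : (dec (q u)).1 s = xor ((dec (q s)).1 u) (decide (f u < f s)) := by
      conv_lhs => rw [h2]
      simp only [M, hdec]
      exact if_neg (by rintro (k | k); exacts [h (hsymm _ _ k), hsu k])
    have k3 : f s ≠ f u := fun k => hsu (hf k)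
    rw [k2] at k1
    rcases lt_or_gt_of_ne k3 with k | k
    · simp [k, k.not_gt] at k1
    · simp [k, k.not_gt] at k1
  have hM3 : ∀ s q q', M true s q ≠ M false s q' := fun s q q' h =>
    absurd (congrArg Prod.snd (enc.injective h)) (by simp)
  let ht : ZMod l → ZMod l → ZMod l → ℤ := fun A B v =>
    if v = A then l else if v = B then -1 else v.val
  have hval : ∀ v : ZMod l, (0 : ℤ) ≤ v.val ∧ (v.val : ℤ) < l := fun v =>
    ⟨by omega, by exact_mod_cast ZMod.val_lt v⟩
  let H : T → (T → ZMod l) → ℤ := fun s q => ht (M true s q) (M false s q) (q s)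
  have hH : ∀ s q v, H s (q + Pi.single s v) = ht (M true s q) (M false s q) (q s + v) := by
    intro s q v
    simp only [H, hM1 _ s s q v (Or.inr rfl), Pi.add_apply, Pi.single_eq_same]
  have hmin : ∀ s q, q s ≠ M false s q → ∃ v, H s (q + Pi.single s v) < H s q := by
    intro s q h
    refine ⟨M false s q - q s, ?_⟩
    rw [hH, add_sub_cancel]
    simp only [H, ht, if_neg (hM3 s q q).symm, if_neg h, if_true]
    have := hval (q s)
    split_ifs <;> omega
  have hmax : ∀ s q, q s ≠ M true s q → ∃ v, H s q < H s (q + Pi.single s v) := by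
    intro s q h
    refine ⟨M true s q - q s, ?_⟩
    rw [hH, add_sub_cancel]
    simp only [H, ht, if_neg h, if_true]
    have := hval (q s)
    split_ifs <;> omega
  refine ⟨H, fun s => M true s 0, fun s q => ?_, fun s t q v h => ?_, fun s q v h => ?_,
    fun q s t hst h1 h2 => hM2 false q s t hst ?_ ?_,
    fun q s t hst h1 h2 => hM2 true q s t hst ?_ ?_, fun s => hmin s _ (hM3 s _ _)⟩
  · simp only [H, ht]
    have := hval (q s)
    split_ifs <;> omega
  · have hst : s ≠ t := fun k => hirr s (k ▸ h)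
    simp only [H, hM1 _ s t q v (Or.inl h), Pi.add_apply, Pi.single_eq_of_ne hst, add_zero]
  · rw [hH] at h
    simp only [H, ht] at h
    have k1 := hval (q s)
    have k2 := hval (q s + v)
    have : q s + v = q s := by
      split_ifs at h with a1 a2 a3 a4 a5 a6 a7 a8
      all_goals first
        | omega
        | exact a1.trans a2.symm
        | exact ZMod.val_injective l (by exact_mod_cast h)
        | simp_all
    simpa using this
  · by_contra k
    obtain ⟨v, hv⟩ := hmin s q k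
    exact absurd (h1 v) (not_le.2 hv)
  · by_contra k
    obtain ⟨v, hv⟩ := hmin t q k
    exact absurd (h2 v) (not_le.2 hv)
  · by_contra k
    obtain ⟨v, hv⟩ := hmax s q k
    exact absurd (h1 v) (not_le.2 hv)
  · by_contra k
    obtain ⟨v, hv⟩ := hmax t q k
    exact absurd (h2 v) (not_le.2 hv)

/-- Additive skew product with a coboundary. -/
def askew {α A : Type} [AddCommGroup A] (c : α → A) : Perm α →* Perm (α × A) :=
  MonoidHom.toHomPerm
    { toFun := fun σ p => (σ p.1, p.2 + (c (σ p.1) - c p.1))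
      map_one' := by funext p; simp; rfl
      map_mul' := fun σ τ => by
        funext p
        refine Prod.ext rfl ?_
        show _ = p.2 + (c (τ p.1) - c p.1) + (c (σ (τ p.1)) - c (τ p.1))
        simp only [Perm.mul_apply]
        abel }

lemma askew_apply {α A : Type} [AddCommGroup A] (c : α → A) (σ : Perm α) (p : α × A) :
    askew c σ p = (σ p.1, p.2 + (c (σ p.1) - c p.1)) := rfl

/-- Multiplicative skew product with a coboundary. -/
def mskew {α Γ : Type} [Group Γ] (c : α → Γ) : Perm α →* Perm (α × Γ) :=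
  MonoidHom.toHomPerm
    { toFun := fun σ p => (σ p.1, c (σ p.1) * (c p.1)⁻¹ * p.2)
      map_one' := by funext p; simp; rfl
      map_mul' := fun σ τ => by
        funext p
        refine Prod.ext rfl ?_
        show _ = c (σ (τ p.1)) * (c (τ p.1))⁻¹ * (c (τ p.1) * (c p.1)⁻¹ * p.2)
        simp only [Perm.mul_apply]
        group }

lemma mskew_apply {α Γ : Type} [Group Γ] (c : α → Γ) (σ : Perm α) (p : α × Γ) :
    mskew c σ p = (σ p.1, c (σ p.1) * (c p.1)⁻¹ * p.2) := rfl

section Model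

variable {T : Type} [DecidableEq T] (adj : T → T → Prop) {l : ℕ} (H : T → (T → ZMod l) → ℤ)
  (q0 : T → ZMod l) {Γ : Type} [Group Γ] (g : T → Γ)

/-- The shift of one coordinate. -/
def shf (l : ℕ) (s : T) : Perm (T → ZMod l) := Equiv.addRight (Pi.single s 1)

/-- The moves on the points with total height. -/
def X0 (s : T) : Perm ((T → ZMod l) × ℤ) := askew (H s) (shf l s)

/-- The moves on the points with one height for each direction. -/
def X1 (s : T) : Perm ((T → ZMod l) × (T → ℤ)) :=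
  askew (fun q => (Pi.single s (H s q) : T → ℤ)) (shf l s)

/-- All coordinates that are not adjacent to `s` are at the base point. -/
def Bs (s : T) (θ : (T → ZMod l) × (T → ℤ)) : Prop := ∀ t, ¬ adj s t → θ.1 t = q0 t ∧ θ.2 t = 0

open Classical in
/-- The twisting function. -/
noncomputable def cc (s : T) (θ : (T → ZMod l) × (T → ℤ)) : Γ := if Bs adj q0 s θ then g s else 1

/-- The twisted moves. -/
noncomputable def X2 (s : T) : Perm (((T → ZMod l) × (T → ℤ)) × Γ) :=
  mskew (cc adj q0 g s) (X1 H s)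

/-- The projection, with the total height shifted by `m`. -/
def prj [Fintype T] (m : ℤ) (z : ((T → ZMod l) × (T → ℤ)) × Γ) : (T → ZMod l) × ℤ :=
  (z.1.1, ∑ t, z.1.2 t + m)

lemma shf_zpow (s : T) (i : ℤ) (q : T → ZMod l) :
    (shf l s ^ i) q = q + Pi.single s (i : ZMod l) := by
  rw [shf, Equiv.zsmul_addRight, Equiv.coe_addRight, ← Pi.single_smul']
  simp

lemma shf_pow (s : T) : shf l s ^ l = 1 := by
  ext q t
  rw [← zpow_natCast, shf_zpow]
  simp

lemma X0_zpow (s : T) (i : ℤ) (ω : (T → ZMod l) × ℤ) : (X0 H s ^ i) ω =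
    (ω.1 + Pi.single s (i : ZMod l), ω.2 + (H s (ω.1 + Pi.single s (i : ZMod l)) - H s ω.1)) := by
  rw [X0, ← map_zpow, askew_apply, shf_zpow]

lemma X1_zpow (s : T) (i : ℤ) (θ : (T → ZMod l) × (T → ℤ)) : (X1 H s ^ i) θ =
    (θ.1 + Pi.single s (i : ZMod l),
      θ.2 + Pi.single s (H s (θ.1 + Pi.single s (i : ZMod l)) - H s θ.1)) := by
  rw [X1, ← map_zpow, askew_apply, shf_zpow, Pi.single_sub]

lemma X2_zpow (s : T) (i : ℤ) (z : ((T → ZMod l) × (T → ℤ)) × Γ) : (X2 adj H q0 g s ^ i) z =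
    ((X1 H s ^ i) z.1, cc adj q0 g s ((X1 H s ^ i) z.1) * (cc adj q0 g s z.1)⁻¹ * z.2) := by
  rw [X2, ← map_zpow, mskew_apply]

lemma X2_pow (s : T) : X2 adj H q0 g s ^ l = 1 := by
  rw [X2, ← map_pow, X1, ← map_pow, shf_pow, map_one, map_one]

lemma prj_X2 [Fintype T] (m : ℤ) (s : T) (i : ℤ) (z : ((T → ZMod l) × (T → ℤ)) × Γ) :
    prj m ((X2 adj H q0 g s ^ i) z) = (X0 H s ^ i) (prj m z) := by
  rw [X2_zpow, X1_zpow, X0_zpow]
  refine Prod.ext rfl ?_
  simp only [prj, Pi.add_apply, Finset.sum_add_distrib, Finset.sum_pi_single', Finset.mem_univ,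
    if_true]
  ring

variable {adj H q0 g}

lemma X1_comm (h : Hgt adj l H q0) {s t : T} (hst : adj s t) (hts : adj t s) (i j : ℤ)
    (θ : (T → ZMod l) × (T → ℤ)) :
    (X1 H s ^ i) ((X1 H t ^ j) θ) = (X1 H t ^ j) ((X1 H s ^ i) θ) := by
  simp only [X1_zpow]
  refine Prod.ext (add_right_comm _ _ _) ?_
  simp only
  rw [h.nb s t _ _ hst, h.nb t s _ _ hts, add_right_comm θ.1, h.nb s t _ _ hst,
    add_right_comm θ.1, h.nb t s _ _ hts, add_right_comm]

lemma Bs_X1 {s t : T} (hst : adj s t) (j : ℤ) (θ : (T → ZMod l) × (T → ℤ)) :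
    Bs adj q0 s ((X1 H t ^ j) θ) ↔ Bs adj q0 s θ := by
  refine forall_congr' fun u => forall_congr' fun hu => ?_
  have : u ≠ t := fun k => hu (k ▸ hst)
  simp only [X1_zpow, Pi.add_apply, Pi.single_eq_of_ne this, add_zero]

lemma cc_X1 {s t : T} (hst : adj s t) (j : ℤ) (θ : (T → ZMod l) × (T → ℤ)) :
    cc adj q0 g s ((X1 H t ^ j) θ) = cc adj q0 g s θ := by
  rw [cc, cc, propext (Bs_X1 hst j θ)]

lemma X2_sq (h : Hgt adj l H q0) {s t : T} (hst : adj s t) (hts : adj t s) (i j : ℤ)
    (z : ((T → ZMod l) × (T → ℤ)) × Γ) :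
    (X2 adj H q0 g s ^ i) ((X2 adj H q0 g t ^ j) z) = ((X1 H s ^ i) ((X1 H t ^ j) z.1),
      cc adj q0 g s ((X1 H s ^ i) z.1) * (cc adj q0 g s z.1)⁻¹ *
        (cc adj q0 g t ((X1 H t ^ j) z.1) * (cc adj q0 g t z.1)⁻¹) * z.2) := by
  simp only [X2_zpow]
  refine Prod.ext rfl ?_
  simp only
  rw [cc_X1 hst, X1_comm h hst hts, cc_X1 hst]
  simp only [mul_assoc]

lemma X2_comm (h : Hgt adj l H q0) {s t : T} (hst : adj s t) (hts : adj t s) (i j : ℤ)
    (z : ((T → ZMod l) × (T → ℤ)) × Γ) (hc : Commute (g s) (g t)) :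
    (X2 adj H q0 g s ^ i) ((X2 adj H q0 g t ^ j) z) =
      (X2 adj H q0 g t ^ j) ((X2 adj H q0 g s ^ i) z) := by
  rw [X2_sq h hst hts, X2_sq h hts hst, X1_comm h hst hts]
  have k : ∀ θ θ', Commute (cc adj q0 g s θ) (cc adj q0 g t θ') := by
    intro θ θ'
    simp only [cc]
    split_ifs
    exacts [hc, Commute.one_right _, Commute.one_left _, Commute.one_left _]
  rw [(((k _ _).mul_right (k _ _).inv_right).mul_left
    ((k _ _).mul_right (k _ _).inv_right).inv_left).eq]

omit [DecidableEq T] in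
lemma eq_base {s t : T} (htri : ∀ u, adj s u → adj t u → False) {θ : (T → ZMod l) × (T → ℤ)}
    (h1 : Bs adj q0 s θ) (h2 : Bs adj q0 t θ) : θ = (q0, 0) := by
  have : ∀ u, θ.1 u = q0 u ∧ θ.2 u = 0 := fun u => by
    by_cases k : adj s u
    · exact h2 u (htri u k)
    · exact h1 u k
  exact Prod.ext (funext fun u => (this u).1) (funext fun u => (this u).2)

lemma X2_comm' (h : Hgt adj l H q0) {s t : T} (hst : adj s t) (hts : adj t s)
    (htri : ∀ u, adj s u → adj t u → False) (i j : ℤ) (z : ((T → ZMod l) × (T → ℤ)) × Γ)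
    (h1 : z.1 ≠ (q0, 0)) (h2 : ((X2 adj H q0 g s ^ i) z).1 ≠ (q0, 0))
    (h3 : ((X2 adj H q0 g t ^ j) z).1 ≠ (q0, 0))
    (h4 : ((X2 adj H q0 g s ^ i) ((X2 adj H q0 g t ^ j) z)).1 ≠ (q0, 0)) :
    (X2 adj H q0 g s ^ i) ((X2 adj H q0 g t ^ j) z) =
      (X2 adj H q0 g t ^ j) ((X2 adj H q0 g s ^ i) z) := by
  simp only [X2_zpow] at h2 h3 h4
  rw [X2_sq h hst hts, X2_sq h hts hst, X1_comm h hst hts]
  by_cases k : ¬ Bs adj q0 s z.1 ∧ ¬ Bs adj q0 s ((X1 H s ^ i) z.1)
  · simp [cc, k.1, k.2]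
  have k' : ¬ Bs adj q0 t z.1 ∧ ¬ Bs adj q0 t ((X1 H t ^ j) z.1) := by
    rw [not_and_or, not_not, not_not] at k
    refine ⟨fun a => ?_, fun a => ?_⟩
    · rcases k with k | k
      · exact h1 (eq_base htri k a)
      · exact h2 (eq_base htri k ((Bs_X1 hts i _).2 a))
    · rcases k with k | k
      · exact h3 (eq_base htri ((Bs_X1 hst j _).2 k) a)
      · refine h4 (eq_base htri ?_ ((Bs_X1 hts i _).2 a))
        rw [X1_comm h hst hts]
        exact (Bs_X1 hst j _).2 k
  simp [cc, k'.1, k'.2]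

end Model

end Pool.Agent.Lib.MP_5a5e3d_al
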