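import Mathlib

/-! Approximate homomorphisms from finitely presented groups, and the permutation models. -/

namespace Pool.Agent.Lib.MP_5a5e3d_al

open Filter Equiv

/-- A sequence of eventually multiplicative maps from a finitely presented group agrees, on any
finite set, with a homomorphism. -/
lemma fp_lift {N Γ : Type} [Group N] [Group Γ] (hN : Group.IsFinitelyPresented N) (u : ℕ → N → Γ)
    (hu : ∀ g h, ∀ᶠ m in atTop, u m (g * h) = u m g * u m h) {ι : Type} [Finite ι] (z : ι → N) :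
    ∃ (m : ℕ) (ψ : N →* Γ), ∀ i, ψ (z i) = u m (z i) := by
  obtain ⟨n, φ, hφ, s, hs, hker⟩ := hN.out
  let f : ℕ → FreeGroup (Fin n) →* Γ := fun m => FreeGroup.lift fun i => u m (φ (FreeGroup.of i))
  have h1 : ∀ᶠ m in atTop, u m 1 = 1 := by
    filter_upwards [hu 1 1] with m hm
    simpa using hm
  have key : ∀ w, ∀ᶠ m in atTop, f m w = u m (φ w) := by
    intro w
    induction w using FreeGroup.induction_on with
    | C1 => filter_upwards [h1] with m hm; simp [hm]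
    | of i => exact Eventually.of_forall fun m => by simp [f]
    | inv_of i ih =>
      filter_upwards [ih, h1, hu (φ (FreeGroup.of i))⁻¹ (φ (FreeGroup.of i))] with m hm h2 h3
      rw [inv_mul_cancel, h2] at h3
      rw [map_inv, map_inv, hm]
      exact (eq_inv_of_mul_eq_one_left h3.symm).symm
    | mul x y hx hy =>
      filter_upwards [hx, hy, hu (φ x) (φ y)] with m h2 h3 h4
      rw [map_mul, map_mul, h4, h2, h3]
  choose w hw using fun i => hφ (z i)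
  have h2 : ∀ᶠ m in atTop, ∀ r ∈ s, f m r = 1 := by
    rw [eventually_all_finite hs]
    intro r hr
    have : φ r = 1 := by
      rw [← MonoidHom.mem_ker, ← hker]
      exact Subgroup.subset_normalClosure hr
    filter_upwards [key r, h1] with m h3 h4
    rw [h3, this, h4]
  have h3 : ∀ᶠ m in atTop, ∀ i, f m (w i) = u m (z i) := by
    rw [eventually_all]
    intro i
    simpa [hw] using key (w i)
  obtain ⟨m, hm, hm'⟩ := (h2.and h3).exists
  have hle : φ.ker ≤ (f m).ker := by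
    rw [← hker]
    exact Subgroup.normalClosure_le_normal hm
  refine ⟨m, φ.liftOfSurjective hφ ⟨f m, hle⟩, fun i => ?_⟩
  rw [← hw, MonoidHom.liftOfRightInverse_comp_apply, hw]
  exact hm' i

/-- A cycle of length `n` on the natural numbers. -/
lemma exists_cycle {n : ℕ} (hn : 3 ≤ n) : ∃ c : Perm ℕ, c ^ n = 1 ∧ c 0 = 1 ∧ c 1 = 2 := by
  refine ⟨(List.range n).formPerm, ?_, ?_, ?_⟩
  · simpa using List.formPerm_pow_length_eq_one_of_nodup _ (List.nodup_range (n := n))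
  · have := List.formPerm_apply_getElem (List.range n) List.nodup_range 0 (by simp; omega)
    simpa [Nat.mod_eq_of_lt (show 1 < n by omega)] using this
  · have := List.formPerm_apply_getElem (List.range n) List.nodup_range 1 (by simp; omega)
    simpa [Nat.mod_eq_of_lt (show 2 < n by omega)] using this

/-- Permutations of `Γ × ℕ` acting on the zero fibre by a left translation. -/
def fib (Γ : Type) [Group Γ] : Subgroup (Perm (Γ × ℕ)) where
  carrier := {σ | ∃ γ : Γ, ∀ ω, σ (ω, 0) = (γ * ω, 0)}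
  one_mem' := ⟨1, fun ω => by simp⟩
  mul_mem' := by
    rintro σ σ' ⟨γ, h⟩ ⟨γ', h'⟩
    exact ⟨γ * γ', fun ω => by rw [Perm.mul_apply, h', h, mul_assoc]⟩
  inv_mem' := by
    rintro σ ⟨γ, h⟩
    refine ⟨γ⁻¹, fun ω => ?_⟩
    rw [Perm.inv_eq_iff_eq, h, mul_inv_cancel_left]

/-- The translation on the zero fibre. -/
def ev (Γ : Type) [Group Γ] : fib Γ →* Γ :=
  MonoidHom.mk' (fun σ => (σ.1 (1, 0)).1) (by
    rintro ⟨σ, γ, h⟩ ⟨σ', γ', h'⟩
    simp [h, h'])

lemma ev_eq {Γ : Type} [Group Γ] {σ : Perm (Γ × ℕ)} (hσ : σ ∈ fib Γ) {γ : Γ}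
    (h : σ (1, 0) = (γ, 0)) : ev Γ ⟨σ, hσ⟩ = γ := congrArg Prod.fst h

lemma exists_model {Γ : Type} [Group Γ] (s1 s2 : Γ) {m n : ℕ} (hm : 3 ≤ m) (hn : 3 ≤ n) :
    ∃ A C : Perm (Γ × ℕ), A ^ m = 1 ∧ C ^ n = 1 ∧
      (∀ ω, (A ^ (1 : ℤ) * C ^ (1 : ℤ)) (ω, 0) = (s1 * ω, 0)) ∧
      ∀ ω, (A ^ (2 : ℤ) * C ^ (2 : ℤ)) (ω, 0) = (s2 * ω, 0) := by
  obtain ⟨a, ha, ha0, ha1⟩ := exists_cycle hm
  obtain ⟨c, hc, hc0, hc1⟩ := exists_cycle hn
  let L : Perm ℕ →* Perm (Γ × ℕ) :=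
    MonoidHom.mk' (fun σ => prodCongr (Equiv.refl Γ) σ) fun _ _ => rfl
  have hL : ∀ σ ω j, L σ (ω, j) = (ω, σ j) := fun σ ω j => rfl
  let h : ℕ → Γ := fun j => if j = 1 then s1 else if j = 2 then s2 else 1
  let H : Perm (Γ × ℕ) := prodCongrLeft fun j => Equiv.mulLeft (h j)
  have hH : ∀ ω j, H (ω, j) = (h j * ω, j) := fun ω j => rfl
  have hH' : ∀ ω, H⁻¹ (ω, 0) = (ω, 0) := fun ω => by
    rw [Perm.inv_eq_iff_eq, hH]; simp [h]
  have ha0' : a⁻¹ 1 = 0 := by rw [Perm.inv_eq_iff_eq, ha0]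
  have ha1' : a⁻¹ 2 = 1 := by rw [Perm.inv_eq_iff_eq, ha1]
  refine ⟨L a⁻¹, H * L c * H⁻¹, ?_, ?_, fun ω => ?_, fun ω => ?_⟩
  · rw [← map_pow, inv_pow, ha, inv_one, map_one]
  · rw [conj_pow, ← map_pow, hc, map_one, mul_one, mul_inv_cancel]
  · simp only [zpow_one, Perm.mul_apply, hH', hL, hc0, hH, ha0']
    simp [h]
  · rw [conj_zpow]
    simp only [zpow_two, Perm.mul_apply, hH', hL, hc0, hc1, hH, ha0', ha1']
    simp [h]

/-- The translations of the integers. -/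
def sh : Multiplicative ℤ →* Perm ℤ where
  toFun k := Equiv.addLeft k.toAdd
  map_one' := by ext; simp
  map_mul' a b := by ext; simp [add_assoc]

@[simp] lemma sh_apply (k : Multiplicative ℤ) (n : ℤ) : sh k n = k.toAdd + n := rfl

/-- Permutations whose support is bounded above. -/
def B1 : Subgroup (Perm ℤ) where
  carrier := {f | ∃ M, ∀ n, M ≤ n → f n = n}
  one_mem' := ⟨0, fun _ _ => rfl⟩
  mul_mem' := by
    rintro f g ⟨M, h⟩ ⟨M', h'⟩
    exact ⟨max M M', fun n hn => by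
      rw [Perm.mul_apply, h' n (le_of_max_le_right hn), h n (le_of_max_le_left hn)]⟩
  inv_mem' := by
    rintro f ⟨M, h⟩
    exact ⟨M, fun n hn => by rw [Perm.inv_eq_iff_eq, h n hn]⟩

/-- Permutations whose support is bounded below. -/
def B2 : Subgroup (Perm ℤ) where
  carrier := {f | ∃ M, ∀ n, n ≤ M → f n = n}
  one_mem' := ⟨0, fun _ _ => rfl⟩
  mul_mem' := by
    rintro f g ⟨M, h⟩ ⟨M', h'⟩
    exact ⟨min M M', fun n hn => by
      rw [Perm.mul_apply, h' n (hn.trans (min_le_right _ _)), h n (hn.trans (min_le_left _ _))]⟩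
  inv_mem' := by
    rintro f ⟨M, h⟩
    exact ⟨M, fun n hn => by rw [Perm.inv_eq_iff_eq, h n hn]⟩

lemma conj_mem_B1 {f : Perm ℤ} (hf : f ∈ B1) (k : Multiplicative ℤ) : sh k * f * (sh k)⁻¹ ∈ B1 := by
  obtain ⟨M, h⟩ := hf
  refine ⟨M + k.toAdd, fun n hn => ?_⟩
  rw [← map_inv, Perm.mul_apply, Perm.mul_apply, h _ (by rw [sh_apply, toAdd_inv]; omega)]
  simp [-map_inv]

lemma conj_mem_B2 {f : Perm ℤ} (hf : f ∈ B2) (k : Multiplicative ℤ) : sh k * f * (sh k)⁻¹ ∈ B2 := by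
  obtain ⟨M, h⟩ := hf
  refine ⟨M + k.toAdd, fun n hn => ?_⟩
  rw [← map_inv, Perm.mul_apply, Perm.mul_apply, h _ (by rw [sh_apply, toAdd_inv]; omega)]
  simp [-map_inv]

/-- The translation by one. -/
def tt : Perm ℤ := sh (Multiplicative.ofAdd 1)

lemma tt_pow (m : ℕ) : tt ^ m = sh (Multiplicative.ofAdd (m : ℤ)) := by
  rw [tt, ← map_pow]
  congr 1
  apply Multiplicative.toAdd.injective
  simp

lemma eventually_commute {f g : Perm ℤ} (hf : f ∈ B1) (hg : g ∈ B2) :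
    ∀ᶠ m : ℕ in atTop, Commute (tt ^ m * g * (tt ^ m)⁻¹) f := by
  obtain ⟨M, h⟩ := hf
  obtain ⟨M', h'⟩ := hg
  filter_upwards [eventually_ge_atTop (M - M').toNat] with m hm
  refine Perm.Disjoint.commute fun n => ?_
  by_cases hn : M ≤ n
  · exact Or.inr (h n hn)
  · left
    rw [tt_pow, ← map_inv, Perm.mul_apply, Perm.mul_apply, h' _ (by rw [sh_apply, toAdd_inv, toAdd_ofAdd]; omega)]
    simp [-map_inv]

/-- The group of permutations with a recorded shift. -/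
abbrev Gam : Type := Perm ℤ × Multiplicative ℤ

/-- Pairs of permutations that are translations by the same amount near one end. -/
def Fib : Subgroup (Gam × Perm ℤ) where
  carrier := {z | z.1.1 * (sh z.1.2)⁻¹ ∈ B1 ∧ z.2 * (sh z.1.2)⁻¹ ∈ B2}
  one_mem' := ⟨by simp, by simp⟩
  mul_mem' := by
    rintro ⟨⟨f, k⟩, g⟩ ⟨⟨f', k'⟩, g'⟩ ⟨h1, h2⟩ ⟨h1', h2'⟩
    refine ⟨?_, ?_⟩
    · convert B1.mul_mem h1 (conj_mem_B1 h1' k) using 1
      simp only [Prod.fst_mul, Prod.snd_mul, map_mul]; group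
    · convert B2.mul_mem h2 (conj_mem_B2 h2' k) using 1
      simp only [Prod.fst_mul, Prod.snd_mul, map_mul]; group
  inv_mem' := by
    rintro ⟨⟨f, k⟩, g⟩ ⟨h1, h2⟩
    refine ⟨?_, ?_⟩
    · convert conj_mem_B1 (B1.inv_mem h1) k⁻¹ using 1
      simp only [Prod.fst_inv, Prod.snd_inv, map_inv]; group
    · convert conj_mem_B2 (B2.inv_mem h2) k⁻¹ using 1
      simp only [Prod.fst_inv, Prod.snd_inv, map_inv]; group

/-- Gluing the two permutations far apart. -/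
def glue (m : ℕ) (z : Gam × Perm ℤ) : Perm ℤ :=
  z.1.1 * (sh z.1.2)⁻¹ * (tt ^ m * z.2 * (tt ^ m)⁻¹)

lemma glue_mul {z z' : Gam × Perm ℤ} (hz : z ∈ Fib) (hz' : z' ∈ Fib) :
    ∀ᶠ m in atTop, glue m (z * z') = glue m z * glue m z' := by
  obtain ⟨⟨f, k⟩, g⟩ := z
  obtain ⟨⟨f', k'⟩, g'⟩ := z'
  obtain ⟨-, h2⟩ := hz
  obtain ⟨h1', -⟩ := hz'
  filter_upwards [eventually_commute (conj_mem_B1 h1' k) h2] with m hm
  have hc : Commute (tt ^ m) (sh k) := by
    rw [tt_pow]; exact (Commute.all _ _).map sh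
  have hc' : Commute (sh k') (sh k) := (Commute.all _ _).map sh
  simp only [glue, Prod.fst_mul, Prod.snd_mul, map_mul] at *
  have e1 : tt ^ m * g * (tt ^ m)⁻¹ = tt ^ m * (g * (sh k)⁻¹) * (tt ^ m)⁻¹ * sh k := by
    rw [mul_assoc _ _ (sh k), hc.inv_left.eq]; group
  calc f * f' * (sh k * sh k')⁻¹ * (tt ^ m * (g * g') * (tt ^ m)⁻¹)
      = f * (sh k)⁻¹ * ((sh k * (f' * (sh k')⁻¹) * (sh k)⁻¹) *
          (tt ^ m * (g * (sh k)⁻¹) * (tt ^ m)⁻¹)) * sh k * (tt ^ m * g' * (tt ^ m)⁻¹) := by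
        rw [mul_assoc _ _ (sh k), mul_assoc _ _ (sh k), ← e1]; group
    _ = _ := by rw [← hm.eq, e1]; group

end Pool.Agent.Lib.MP_5a5e3d_al
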