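import Mathlib
import Pool.Agent.Lib.MP_5a5e3d_al.DgModel
import Pool.Agent.Lib.MP_5a5e3d_al.Lift

/-! A finitely generated subgroup that is not finitely presented. -/

namespace Pool.Agent.Lib.MP_5a5e3d_al

open Equiv Subgroup Filter

/-- The properties of an induced cycle of length at least four that are used. -/
structure Cyc {T : Type} (adj : T → T → Prop) (s0 s1 : T) : Prop where
  symm : ∀ s t, adj s t → adj t s
  irr : ∀ s, ¬ adj s s
  tri : ∀ s t u, adj s t → adj s u → adj t u → False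
  edge : adj s0 s1
  nb : ∀ C : Set T, (∀ s ∈ C, ∀ t ∈ C, s ≠ t → adj s t) → ∀ s ∈ C, ∃ t, adj s t ∧ t ∉ C
  conn : ∀ C : Set T, (∀ s ∈ C, ∀ t ∈ C, s ≠ t → adj s t) → ∀ s ∉ C, ∀ t ∉ C,
    Relation.ReflTransGen (fun u v => adj u v ∧ u ∉ C ∧ v ∉ C) s t
  conn' : ∀ s t, Relation.ReflTransGen
    (fun u v => adj u v ∧ ¬ (u = s0 ∧ v = s1) ∧ ¬ (u = s1 ∧ v = s0)) s t

section Core

variable {T : Type} [Fintype T] [DecidableEq T] {adj : T → T → Prop} {l : ℕ}
  {H : T → (T → ZMod l) → ℤ} {q0 : T → ZMod l} {Γ : Type} [Group Γ] {g : T → Γ} {s0 s1 : T}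

/-- The total height. -/
def hgt (z : ((T → ZMod l) × (T → ℤ)) × Γ) : ℤ := ∑ t, z.1.2 t

lemma hgt_X2 (s : T) (i : ℤ) (z : ((T → ZMod l) × (T → ℤ)) × Γ) :
    hgt ((X2 adj H q0 g s ^ i) z) =
      hgt z + (H s (z.1.1 + Pi.single s (i : ZMod l)) - H s z.1.1) := by
  have := congrArg Prod.snd (prj_X2 adj H q0 g 0 s i z)
  rw [X0_zpow] at this
  simpa [prj, hgt] using this

omit [Fintype T] in
lemma fst_X2 (s : T) (i : ℤ) (z : ((T → ZMod l) × (T → ℤ)) × Γ) :
    ((X2 adj H q0 g s ^ i) z).1.1 = z.1.1 + Pi.single s (i : ZMod l) := by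
  rw [X2_zpow, X1_zpow]

omit [DecidableEq T] [Group Γ] in
lemma hgt_base {z : ((T → ZMod l) × (T → ℤ)) × Γ} (h : z.1 = (q0, 0)) : hgt z = 0 := by
  simp [hgt, h]

lemma hgt_le (h : Hgt adj l H q0) (s : T) (i : ℤ) (z : ((T → ZMod l) × (T → ℤ)) × Γ) :
    hgt ((X2 adj H q0 g s ^ i) z) ≤ hgt z + (l + 1) := by
  rw [hgt_X2]
  have := h.bd s z.1.1
  have := h.bd s (z.1.1 + Pi.single s (i : ZMod l))
  omega

lemma exists_disp (h : Hgt adj l H q0) (w : FreeGroup T) :
    ∃ D : ℤ, ∀ z, hgt (FreeGroup.lift (X2 adj H q0 g) w z) ≤ hgt z + D := by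
  induction w using FreeGroup.induction_on with
  | C1 => exact ⟨0, fun z => by simp⟩
  | of s => exact ⟨l + 1, fun z => by simpa using hgt_le (g := g) h s 1 z⟩
  | inv_of s _ => exact ⟨l + 1, fun z => by simpa using hgt_le (g := g) h s (-1) z⟩
  | mul a b ha hb =>
    obtain ⟨D, hD⟩ := ha
    obtain ⟨D', hD'⟩ := hb
    refine ⟨D + D', fun z => ?_⟩
    rw [map_mul, Perm.mul_apply]
    have := hD (FreeGroup.lift (X2 adj H q0 g) b z)
    have := hD' z
    omega

/-- The words that act trivially far below. -/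
def Low (adj : T → T → Prop) (H : T → (T → ZMod l) → ℤ) (q0 : T → ZMod l) (g : T → Γ) :
    Subgroup (FreeGroup T) where
  carrier := {w | ∃ M : ℤ, ∀ z, hgt z ≤ M → FreeGroup.lift (X2 adj H q0 g) w z = z}
  one_mem' := ⟨0, fun z _ => by simp⟩
  mul_mem' := by
    rintro a b ⟨M, h⟩ ⟨M', h'⟩
    exact ⟨min M M', fun z hz => by
      rw [map_mul, Perm.mul_apply, h' z (hz.trans (min_le_right _ _)),
        h z (hz.trans (min_le_left _ _))]⟩
  inv_mem' := by
    rintro a ⟨M, h⟩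
    exact ⟨M, fun z hz => by rw [map_inv, Perm.inv_eq_iff_eq, h z hz]⟩

lemma low_normal (h : Hgt adj l H q0) : (Low adj H q0 g).Normal := by
  refine ⟨?_⟩
  rintro a ⟨M, hM⟩ b
  obtain ⟨D, hD⟩ := exists_disp (g := g) h b⁻¹
  refine ⟨M - D, fun z hz => ?_⟩
  rw [map_mul, map_mul, Perm.mul_apply, Perm.mul_apply, hM _ (by have := hD z; omega),
    ← Perm.mul_apply, ← map_mul, mul_inv_cancel, map_one, Perm.one_apply]

lemma low_of_trivial (h : Hgt adj l H q0) (hc : Cyc adj s0 s1) {P : Type} [Group P] {a : T → P}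
    (hU : ∀ (W : Type) [Group W] (w : T → W), (∀ s, w s ^ l = 1) →
      (∀ s t, adj s t → Commute (w s) (w t)) → ∀ ω, FreeGroup.lift a ω = 1 →
        FreeGroup.lift w ω = 1)
    {ω : FreeGroup T} (hω : FreeGroup.lift a ω = 1) : ω ∈ Low adj H q0 g := by
  have := low_normal (g := g) h
  have h1 := hU (FreeGroup T ⧸ Low adj H q0 g)
    (fun s => QuotientGroup.mk' (Low adj H q0 g) (FreeGroup.of s)) (fun s => by
      rw [← map_pow, QuotientGroup.mk'_apply, QuotientGroup.eq_one_iff]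
      exact ⟨0, fun z _ => by rw [map_pow, FreeGroup.lift_apply_of, X2_pow, Perm.one_apply]⟩)
    (fun s t hst => by
      show _ * _ = _ * _
      rw [← map_mul, ← map_mul, QuotientGroup.mk'_apply, QuotientGroup.mk'_apply,
        QuotientGroup.eq]
      refine ⟨-(2 * (l + 1) + 1), fun z hz => ?_⟩
      have k1 := hgt_le (g := g) h s 1 z
      have k2 := hgt_le (g := g) h t 1 z
      have k3 := hgt_le (g := g) h s 1 ((X2 adj H q0 g t ^ (1 : ℤ)) z)
      have := X2_comm' (g := g) h hst (hc.symm _ _ hst) (fun u => hc.tri s t u hst) 1 1 z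
        (fun k => by have := hgt_base k; omega) (fun k => by have := hgt_base k; omega)
        (fun k => by have := hgt_base k; omega) (fun k => by have := hgt_base k; omega)
      rw [map_mul, map_inv, Perm.mul_apply, Perm.inv_eq_iff_eq]
      simpa using this.symm) ω hω
  have h2 : FreeGroup.lift (fun s => QuotientGroup.mk' (Low adj H q0 g) (FreeGroup.of s)) =
      QuotientGroup.mk' (Low adj H q0 g) := FreeGroup.ext_hom _ _ fun s => by simp
  rw [h2, QuotientGroup.mk'_apply, QuotientGroup.eq_one_iff] at h1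
  exact h1

lemma loc_model (h : Hgt adj l H q0) (hc : Cyc adj s0 s1)
    (hg : ∀ u v, ¬ (u = s0 ∧ v = s1) → ¬ (u = s1 ∧ v = s0) → adj u v → Commute (g u) (g v))
    (m : ℕ) (z : ((T → ZMod l) × (T → ℤ)) × Γ) (h1 : 2 * (l + 1) < (hgt z + m).natAbs)
    (h2 : (hgt z + m).natAbs ≤ m) :
    Loc adj l (X2 adj H q0 g) (fun z => (hgt z + m).natAbs) z := by
  let C : Set T := {s | ¬ Desc (X2 adj H q0 g) (fun z => (hgt z + m).natAbs) z s}
  have hC : ∀ s ∈ C, ∀ v, ¬ (hgt z + (H s (z.1.1 + Pi.single s v) - H s z.1.1) + m).natAbs <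
      (hgt z + m).natAbs := by
    intro s hs v k
    obtain ⟨i, rfl⟩ := ZMod.intCast_surjective v
    exact hs ⟨i, by simpa only [hgt_X2] using k⟩
  have hcl : ∀ s ∈ C, ∀ t ∈ C, s ≠ t → adj s t := by
    intro s hs t ht hst
    have k : ∀ s ∈ C, ∀ v, (0 < hgt z + m → H s z.1.1 ≤ H s (z.1.1 + Pi.single s v)) ∧
        (hgt z + m ≤ 0 → H s (z.1.1 + Pi.single s v) ≤ H s z.1.1) := by
      intro s hs v
      have := hC s hs v
      have := h.bd s z.1.1
      have := h.bd s (z.1.1 + Pi.single s v)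
      omega
    by_cases hp : 0 < hgt z + m
    · exact h.min _ s t hst (fun v => (k s hs v).1 hp) fun v => (k t ht v).1 hp
    · exact h.max _ s t hst (fun v => (k s hs v).2 (by omega)) fun v => (k t ht v).2 (by omega)
  have hstep : ∀ u v, adj u v → u ∉ C → v ∉ C → (Commute (g u) (g v) ∨ z.1 ≠ (q0, 0)) →
      Sq adj (X2 adj H q0 g) (fun z => (hgt z + m).natAbs) z u v := by
    intro u v huv hu hv hor
    obtain ⟨i, hi⟩ := not_not.1 hu
    obtain ⟨j, hj⟩ := not_not.1 hv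
    have k : (hgt ((X2 adj H q0 g u ^ i) ((X2 adj H q0 g v ^ j) z)) + m).natAbs <
        (hgt z + m).natAbs := by
      simp only [hgt_X2] at hi hj
      rw [hgt_X2, hgt_X2, fst_X2, h.nb u v _ _ huv, add_right_comm z.1.1, h.nb u v _ _ huv]
      have := h.bd u z.1.1
      have := h.bd u (z.1.1 + Pi.single u (i : ZMod l))
      have := h.bd v z.1.1
      have := h.bd v (z.1.1 + Pi.single v (j : ZMod l))
      omega
    refine ⟨huv, i, j, hi, hj, k, ?_⟩
    rcases hor with hor | hor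
    · exact X2_comm h huv (hc.symm _ _ huv) i j z hor
    · simp only at hi hj
      exact X2_comm' h huv (hc.symm _ _ huv) (fun t => hc.tri u v t huv) i j z hor
        (fun k' => by have := hgt_base k'; omega) (fun k' => by have := hgt_base k'; omega)
        (fun k' => by have := hgt_base k'; omega)
  refine ⟨fun s i k => ?_, ?_, fun s hs => ?_, fun s t hs ht => ?_⟩
  · simp only [hgt_X2] at k
    have := h.bd s z.1.1
    have := h.bd s (z.1.1 + Pi.single s (i : ZMod l))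
    exact (ZMod.intCast_zmod_eq_zero_iff_dvd i l).1 (h.inj s z.1.1 _ (by omega))
  · by_cases k : s0 ∈ C
    · obtain ⟨t, -, ht⟩ := hc.nb C hcl s0 k
      exact ⟨t, not_not.1 ht⟩
    · exact ⟨s0, not_not.1 k⟩
  · obtain ⟨t, h1, ht⟩ := hc.nb C hcl s hs
    exact ⟨t, h1, not_not.1 ht⟩
  · by_cases hz : z.1 = (q0, 0)
    · have hall : ∀ u, u ∉ C := by
        intro u hu
        obtain ⟨v, hv⟩ := h.top u
        have k1 := hC u hu v
        have k2 := hgt_base hz
        rw [hz] at k1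
        have := h.bd u q0
        have := h.bd u (q0 + Pi.single u v)
        simp only at k1
        omega
      exact Relation.ReflTransGen.mono (fun u v k =>
        hstep u v k.1 (hall u) (hall v) (Or.inl (hg u v k.2.1 k.2.2 k.1))) _ _ (hc.conn' s t)
    · exact Relation.ReflTransGen.mono (fun u v k => hstep u v k.1 k.2.1 k.2.2 (Or.inr hz)) _ _
        (hc.conn C hcl s (not_not.2 hs) t (not_not.2 ht))

/-- The orbit of the base point. -/
def Orb (H : T → (T → ZMod l) → ℤ) (q0 : T → ZMod l) : Set ((T → ZMod l) × ℤ) :=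
  {ω | ∃ w, FreeGroup.lift (X0 H) w (q0, 0) = ω}

omit [Fintype T] in
lemma orb_move {ω : (T → ZMod l) × ℤ} (h : ω ∈ Orb H q0) (s : T) (i : ℤ) :
    (X0 H s ^ i) ω ∈ Orb H q0 := by
  obtain ⟨w, rfl⟩ := h
  exact ⟨FreeGroup.of s ^ i * w, by simp⟩

lemma orb_unbounded (h : Hgt adj l H q0) (hc : Cyc adj s0 s1) (k : ℕ) :
    ∃ m : ℕ, k ≤ m ∧ (q0, (m : ℤ)) ∈ Orb H q0 := by
  have hup : ∀ ω : (T → ZMod l) × ℤ, ∃ (s : T) (i : ℤ), ω.2 < ((X0 H s ^ i) ω).2 := by
    intro ω
    let C : Set T := {s | ∀ v, H s (ω.1 + Pi.single s v) ≤ H s ω.1}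
    have : ∃ t, t ∉ C := by
      by_cases k : s0 ∈ C
      · obtain ⟨t, -, ht⟩ := hc.nb C (fun s hs t ht hst => h.max _ s t hst hs ht) s0 k
        exact ⟨t, ht⟩
      · exact ⟨s0, k⟩
    obtain ⟨t, ht⟩ := this
    obtain ⟨v, hv⟩ := not_forall.1 ht
    obtain ⟨i, rfl⟩ := ZMod.intCast_surjective v
    refine ⟨t, i, ?_⟩
    rw [X0_zpow]
    simp only
    omega
  have h1 : ∀ k : ℕ, ∃ ω ∈ Orb H q0, (k : ℤ) ≤ ω.2 := by
    intro k
    induction k with
    | zero => exact ⟨(q0, 0), ⟨1, by simp⟩, le_rfl⟩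
    | succ k ih =>
      obtain ⟨ω, hω, hk⟩ := ih
      obtain ⟨s, i, hi⟩ := hup ω
      exact ⟨_, orb_move hω s i, by push_cast; omega⟩
  have h2 : ∀ U : Finset T, ∀ ω ∈ Orb H q0, ∃ ω' ∈ Orb H q0, (∀ t ∈ U, ω'.1 t = q0 t) ∧
      ω.2 ≤ ω'.2 + (U.card * (l + 1) : ℕ) := by
    intro U ω hω
    induction U using Finset.induction_on with
    | empty => exact ⟨ω, hω, by simp, by simp⟩
    | insert t U ht ih =>
      obtain ⟨ω', k1, k2, k3⟩ := ih
      obtain ⟨i, hi⟩ := ZMod.intCast_surjective (q0 t - ω'.1 t)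
      refine ⟨_, orb_move k1 t i, fun u hu => ?_, ?_⟩
      · rw [X0_zpow]
        rcases Finset.mem_insert.1 hu with rfl | hu'
        · simp [hi]
        · have : u ≠ t := fun k => ht (k ▸ hu')
          simp [Pi.single_eq_of_ne this, k2 u hu']
      · rw [X0_zpow, Finset.card_insert_of_notMem ht, add_mul, one_mul]
        have := h.bd t ω'.1
        have := h.bd t (ω'.1 + Pi.single t (i : ZMod l))
        simp only
        omega
  obtain ⟨ω, hω, hk⟩ := h1 (k + Finset.univ.card (α := T) * (l + 1))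
  obtain ⟨⟨q, z⟩, k1, k2, k3⟩ := h2 Finset.univ ω hω
  obtain rfl : q = q0 := funext fun t => k2 t (Finset.mem_univ t)
  simp only at k3
  refine ⟨z.toNat, by omega, ?_⟩
  rwa [Int.toNat_of_nonneg (by omega)]

lemma prj_word (m : ℤ) (w : FreeGroup T) (z : ((T → ZMod l) × (T → ℤ)) × Γ) :
    prj m (FreeGroup.lift (X2 adj H q0 g) w z) = FreeGroup.lift (X0 H) w (prj m z) := by
  induction w using FreeGroup.induction_on generalizing z with
  | C1 => simp
  | of s => simpa using prj_X2 adj H q0 g m s 1 z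
  | inv_of s _ => simpa using prj_X2 adj H q0 g m s (-1) z
  | mul a b ha hb => simp only [map_mul, Perm.mul_apply, ha, hb]

open Classical in
/-- The restriction of an action to an invariant subset, extended by the identity. -/
noncomputable def restr {K Z : Type} [Group K] (ξ : K →* Perm Z) (p : Z → Prop)
    (hp : ∀ k z, p z → p (ξ k z)) : K →* Perm Z :=
  MonoidHom.toHomPerm
    { toFun := fun k z => if p z then ξ k z else z
      map_one' := by funext z; simp; rfl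
      map_mul' := fun k k' => by
        funext z
        show _ = if p (if p z then ξ k' z else z) then ξ k (if p z then ξ k' z else z) else
          (if p z then ξ k' z else z)
        by_cases hz : p z
        · simp [hz, hp k' z hz]
        · simp [hz] }

lemma restr_pos {K Z : Type} [Group K] (ξ : K →* Perm Z) {p : Z → Prop}
    (hp : ∀ k z, p z → p (ξ k z)) (k : K) {z : Z} (hz : p z) : restr ξ p hp k z = ξ k z :=
  if_pos hz

lemma restr_neg {K Z : Type} [Group K] (ξ : K →* Perm Z) {p : Z → Prop}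
    (hp : ∀ k z, p z → p (ξ k z)) (k : K) {z : Z} (hz : ¬ p z) : restr ξ p hp k z = z :=
  if_neg hz

theorem core_aux (h : Hgt adj l H q0) (hc : Cyc adj s0 s1) (hl : l ≠ 0)
    (hg : ∀ u v, ¬ (u = s0 ∧ v = s1) → ¬ (u = s1 ∧ v = s0) → adj u v → Commute (g u) (g v))
    (hg' : ¬ Commute (g s0) (g s1)) {P : Type} [Group P] {a : T → P}
    (hv : ∀ s t, adj s t → Vx (a s) (a t) l l)
    (hlow : ∀ ω, FreeGroup.lift a ω = 1 → ω ∈ Low adj H q0 g) :
    ∃ N : Subgroup P, N.FG ∧ ¬ Group.IsFinitelyPresented N := by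
  classical
  have : NeZero l := ⟨hl⟩
  let α : FreeGroup T →* P := FreeGroup.lift a
  let ξ := FreeGroup.lift (X2 adj H q0 g)
  let ξ0 := FreeGroup.lift (X0 H)
  let R : ℕ := 2 * (l + 1)
  let St : Subgroup (FreeGroup T) := (MulAction.stabilizer _ ((q0, 0) : (T → ZMod l) × ℤ)).comap ξ0
  have hW : ∀ ω, ∃ w, ω ∈ Orb H q0 → ξ0 w (q0, 0) = ω := fun ω => by
    by_cases k : ω ∈ Orb H q0
    · obtain ⟨w, hw⟩ := k
      exact ⟨w, fun _ => hw⟩
    · exact ⟨1, fun k' => absurd k' k⟩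
  choose W hW using hW
  let ι : Type := {ω : (T → ZMod l) × ℤ // ω ∈ Orb H q0 ∧ ω.2.natAbs ≤ R} × T × Fin (l + 1)
  have : Finite {ω : (T → ZMod l) × ℤ // ω ∈ Orb H q0 ∧ ω.2.natAbs ≤ R} := by
    refine Set.Finite.subset (s := Set.univ ×ˢ Set.Icc (-(R : ℤ)) R)
      (Set.finite_univ.prod (Set.finite_Icc _ _)) ?_
    rintro ω ⟨-, k⟩
    exact ⟨trivial, by omega, by omega⟩
  let gw : ι → St := fun p =>
    ⟨(W ((X0 H p.2.1 ^ (p.2.2 : ℕ)) p.1.1))⁻¹ * FreeGroup.of p.2.1 ^ (p.2.2 : ℕ) * W p.1.1, by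
      show ξ0 _ (q0, 0) = (q0, 0)
      rw [map_mul, map_mul, map_inv, Perm.mul_apply, Perm.mul_apply, hW _ p.1.2.1,
        Perm.inv_eq_iff_eq, hW _ (by simpa using orb_move p.1.2.1 p.2.1 (p.2.2 : ℕ))]
      simp [ξ0]⟩
  let J : Subgroup P := closure (Set.range fun p => α (gw p))
  refine ⟨J, (Subgroup.fg_iff _).2 ⟨_, rfl, Set.finite_range _⟩, fun hJ => ?_⟩
  have hJle : J ≤ St.map α := by
    rw [closure_le]
    rintro _ ⟨p, rfl⟩
    exact ⟨gw p, (gw p).2, rfl⟩
  have hwd : ∀ j : J, ∃ w : St, α w = j := fun j => by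
    obtain ⟨w, h1, h2⟩ := hJle j.2
    exact ⟨⟨w, h1⟩, h2⟩
  choose wd hwd using hwd
  choose μ hμ hμ' using orb_unbounded h hc
  have hp : ∀ (m : ℕ) (k : St) (z : ((T → ZMod l) × (T → ℤ)) × Γ), prj m z = (q0, 0) →
      prj m ((ξ.comp St.subtype) k z) = (q0, 0) := by
    intro m k z hz
    show prj m (ξ k z) = _
    rw [prj_word, hz]
    exact k.2
  let ρ : ℕ → St →* Perm (((T → ZMod l) × (T → ℤ)) × Γ) := fun m =>
    restr (ξ.comp St.subtype) _ (hp m)
  have hρ : ∀ w w' : St, α w = α w' → ∀ᶠ k in atTop, ρ (μ k) w = ρ (μ k) w' := by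
    intro w w' hw
    obtain ⟨M, hM⟩ := hlow (w'⁻¹ * w : St) (by
      show α _ = 1
      rw [Subgroup.coe_mul, Subgroup.coe_inv, map_mul, map_inv, hw, inv_mul_cancel])
    filter_upwards [eventually_ge_atTop M.natAbs] with k hk
    refine Equiv.ext fun z => ?_
    by_cases hz : prj (μ k) z = (q0, 0)
    · rw [restr_pos _ (hp _) _ hz, restr_pos _ (hp _) _ hz]
      have k1 : hgt z + μ k = 0 := congrArg Prod.snd hz
      have k2 := hM z (by have := hμ k; omega)
      rw [Subgroup.coe_mul, Subgroup.coe_inv, map_mul, map_inv, Perm.mul_apply,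
        Perm.inv_eq_iff_eq] at k2
      exact k2
    · rw [restr_neg _ (hp _) _ hz, restr_neg _ (hp _) _ hz]
  let γ : ι → J := fun p => ⟨α (gw p), subset_closure ⟨p, rfl⟩⟩
  have hev : ∀ᶠ k in atTop, (∀ p, ρ (μ k) (wd (γ p)) = ρ (μ k) (gw p)) ∧ R < k :=
    (eventually_all.2 fun p => hρ _ _ (hwd (γ p))).and (eventually_gt_atTop R)
  obtain ⟨k0, hk0⟩ := eventually_atTop.1 hev
  obtain ⟨k, ψ, hψ⟩ := fp_lift hJ (fun k j => ρ (μ (k + k0)) (wd j)) (fun j j' => by
    have := (tendsto_add_atTop_nat k0).eventually (hρ (wd (j * j')) (wd j * wd j') (by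
      rw [Subgroup.coe_mul, map_mul, hwd, hwd, hwd, Subgroup.coe_mul]))
    simpa only [map_mul] using this) γ
  obtain ⟨hk1, hk2⟩ := hk0 (k + k0) (by omega)
  have hRm : R < μ (k + k0) := hk2.trans_le (hμ _)
  have hm := hμ' (k + k0)
  generalize μ (k + k0) = m at hψ hk1 hRm hm
  obtain ⟨Y, _, mk, hmk1, hmk2, hmk3⟩ := exists_induced J ψ
  let φ : ((T → ZMod l) × (T → ℤ)) × Γ → ℕ := fun z => (hgt z + m).natAbs
  let S : Set (((T → ZMod l) × (T → ℤ)) × Γ) := {z | prj m z ∈ Orb H q0}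
  have hS : ∀ z ∈ S, ∀ s (i : ℤ), (X2 adj H q0 g s ^ i) z ∈ S := by
    intro z hz s i
    show prj m _ ∈ Orb H q0
    rw [prj_X2]
    exact orb_move hz s i
  let σ0 : ((T → ZMod l) × (T → ℤ)) × Γ → Y := fun z =>
    mk (α (W (prj m z))) ((ξ (W (prj m z)))⁻¹ z)
  have hX := X2_pow adj H q0 g
  have h0 : Compat (X2 adj H q0 g) a φ S R σ0 := by
    refine compat_of_fin hl hX fun z hz s i hφ => ?_
    let p : ι := (⟨prj m z, hz, hφ⟩, s, i)
    have e1 : prj m ((X2 adj H q0 g s ^ (i : ℕ)) z) = (X0 H s ^ (i : ℕ)) (prj m z) := by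
      simpa using prj_X2 adj H q0 g m s (i : ℕ) z
    have e2 : prj m ((ξ (W (prj m z)))⁻¹ z) = (q0, 0) := by
      rw [← map_inv, prj_word, map_inv, Perm.inv_eq_iff_eq]
      exact (hW _ hz).symm
    have e3 : a s ^ (i : ℕ) * α (W (prj m z)) =
        α (W ((X0 H s ^ (i : ℕ)) (prj m z))) * (γ p : P) := by
      simp [γ, gw, p, α, mul_assoc]
    simp only [σ0]
    rw [hmk1, e3, hmk2, hψ, hk1, restr_pos _ (hp _) _ e2, e1]
    congr 1
    simp [gw, p, ξ]
  obtain ⟨σ, hσ, hσ0⟩ := morse (φ := φ) hv hX hS hRm.le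
    (fun z _ k1 k2 => loc_model h hc hg m z k1 k2) h0
  have hinj : ∀ n : ℕ, ∀ z ∈ S, ∀ z' : ((T → ZMod l) × (T → ℤ)) × Γ, φ z = n → n ≤ m →
      z'.1 = z.1 → σ z = σ z' → z = z' := by
    intro n
    induction n using Nat.strong_induction_on with
    | h n ih =>
    intro z hz z' k1 k2 k3 k4
    have k5 : prj m z' = prj m z := by simp only [prj, k3]
    have k6 : φ z' = φ z := by simp only [φ, hgt, k3]
    by_cases hn : n ≤ R
    · rw [hσ0 z (by omega), hσ0 z' (by omega)] at k4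
      simp only [σ0, k5] at k4
      exact (ξ (W (prj m z)))⁻¹.injective (hmk3 _ _ _ k4)
    · obtain ⟨s, i, hi⟩ := (loc_model h hc hg m z (by simp only [φ] at k1; omega)
        (by simp only [φ] at k1; omega)).ne
      have k7 : ((X2 adj H q0 g s ^ i) z').1 = ((X2 adj H q0 g s ^ i) z).1 := by
        simp only [X2_zpow, k3]
      have k8 : φ ((X2 adj H q0 g s ^ i) z') = φ ((X2 adj H q0 g s ^ i) z) := by
        simp only [φ, hgt, k7]
      have hi' : φ ((X2 adj H q0 g s ^ i) z) < φ z := hi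
      refine (X2 adj H q0 g s ^ i).injective
        (ih _ (by omega) _ (hS z hz s i) _ rfl (by omega) k7 ?_)
      rw [hσ z hz s i (by omega) (by omega),
        hσ z' (show prj m z' ∈ Orb H q0 from k5 ▸ hz) s i (by omega) (by omega), k4]
  let η : ((T → ZMod l) × (T → ℤ)) × Γ := ((q0, 0), 1)
  have hη : η ∈ S := by
    show prj m η ∈ Orb H q0
    simpa [prj, η] using hm
  have hη0 : hgt η = 0 := hgt_base rfl
  obtain ⟨v0, hv0⟩ := h.top s0
  obtain ⟨v1, hv1⟩ := h.top s1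
  obtain ⟨i, rfl⟩ := ZMod.intCast_surjective v0
  obtain ⟨j, rfl⟩ := ZMod.intCast_surjective v1
  have h01 := hc.edge
  have h10 := hc.symm _ _ h01
  have b1 := h.bd s0 q0
  have b2 := h.bd s0 (q0 + Pi.single s0 (i : ZMod l))
  have b3 := h.bd s1 q0
  have b4 := h.bd s1 (q0 + Pi.single s1 (j : ZMod l))
  have c0 : φ η ≤ m := by simp only [φ, hη0]; omega
  have c1 : φ ((X2 adj H q0 g s0 ^ i) η) ≤ m := by
    simp only [φ, hgt_X2, hη0, η]
    simp only [η] at hη0
    omega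
  have c2 : φ ((X2 adj H q0 g s1 ^ j) η) ≤ m := by
    simp only [φ, hgt_X2, hη0, η]
    simp only [η] at hη0
    omega
  have c3 : φ ((X2 adj H q0 g s0 ^ i) ((X2 adj H q0 g s1 ^ j) η)) ≤ m := by
    simp only [φ]
    rw [hgt_X2, hgt_X2, fst_X2, h.nb s0 s1 _ _ h01, add_right_comm η.1.1, h.nb s0 s1 _ _ h01, hη0]
    simp only [η]
    omega
  have c4 : ((X2 adj H q0 g s1 ^ j) ((X2 adj H q0 g s0 ^ i) η)).1 =
      ((X2 adj H q0 g s0 ^ i) ((X2 adj H q0 g s1 ^ j) η)).1 := by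
    simp only [X2_zpow, X1_comm h h01 h10]
  have c5 : φ ((X2 adj H q0 g s1 ^ j) ((X2 adj H q0 g s0 ^ i) η)) ≤ m := by
    simpa only [φ, hgt, c4] using c3
  have key := hinj _ _ (hS _ (hS _ hη s1 j) s0 i) _ rfl c3 c4 (by
    rw [hσ _ (hS _ hη s1 j) s0 i c2 c3, hσ _ hη s1 j c0 c2, hσ _ (hS _ hη s0 i) s1 j c1 c5,
      hσ _ hη s0 i c0 c1]
    exact (hv s0 s1 h01).comm_smul (hσ.fix hX hη c0 s0) (hσ.fix hX hη c0 s1) i j)
  rw [X2_sq h h01 h10, X2_sq h h10 h01] at key
  have d1 : ∀ s, cc adj q0 g s η.1 = g s := fun s => if_pos fun t _ => ⟨rfl, rfl⟩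
  have d2 : ∀ s (i : ℤ), H s (q0 + Pi.single s (i : ZMod l)) < H s q0 →
      cc adj q0 g s ((X1 H s ^ i) η.1) = 1 := by
    intro s i hi
    refine if_neg fun hb => ?_
    have := (hb s (hc.irr s)).2
    simp only [X1_zpow, η, Pi.add_apply, Pi.single_eq_same, Pi.zero_apply] at this
    omega
  have key2 := congrArg Prod.snd key
  simp only [d1, d2 s0 i hv0, d2 s1 j hv1, one_mul, η, mul_one] at key2
  exact hg' (Commute.inv_inv_iff.1 key2)

theorem core_dg (hc : Cyc adj s0 s1) (hl : 2 ^ Fintype.card T * 2 ≤ l) {P : Type} [Group P]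
    {a : T → P} (hv : ∀ s t, adj s t → Vx (a s) (a t) l l)
    (hU : ∀ (W : Type) [Group W] (w : T → W), (∀ s, w s ^ l = 1) →
      (∀ s t, adj s t → Commute (w s) (w t)) → ∀ ω, FreeGroup.lift a ω = 1 →
        FreeGroup.lift w ω = 1) :
    ∃ N : Subgroup P, N.FG ∧ ¬ Group.IsFinitelyPresented N := by
  obtain ⟨H, q0, h⟩ := exists_hgt adj hc.symm hc.irr hl
  have hne : s0 ≠ s1 := fun k => hc.irr s0 (by have := hc.edge; rwa [← k] at this)
  let g : T → Perm (Fin 3) := fun s => if s = s0 then swap 0 1 else if s = s1 then swap 1 2 else 1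
  refine core_aux (g := g) h hc (by have := Nat.two_pow_pos (Fintype.card T); omega) ?_ ?_ hv
    fun ω hω => low_of_trivial h hc hU hω
  · intro u v h1 h2 huv
    have : u ≠ v := fun k => hc.irr u (by rwa [← k] at huv)
    by_cases k1 : u = s0 ∨ u = s1
    · have k2 : v ≠ s0 := by rintro rfl; tauto
      have k3 : v ≠ s1 := by rintro rfl; tauto
      simp [g, k2, k3]
    · rw [not_or] at k1
      simp [g, k1.1, k1.2]
  · simp only [g, if_true, if_neg hne.symm]
    show ¬ (swap (0 : Fin 3) 1 * swap 1 2 = swap 1 2 * swap 0 1)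
    decide

end Core

end Pool.Agent.Lib.MP_5a5e3d_al
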