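import Mathlib

/-! Definitions used in the statement on Baumslag-Solitar digraph groups (problem MP_5a5e3d_al). -/

namespace Pool.Agent.Lib.MP_5a5e3d_al

/-- The relators `x_u⁻¹ x_v^{m u v} x_u x_v^{-n u v}`, one for each arrow `u → v`. -/
def bsRels {V : Type} (r : V → V → Prop) (m n : V → V → ℕ) : Set (FreeGroup V) :=
  {w | ∃ u v, r u v ∧ w = (FreeGroup.of u)⁻¹ * FreeGroup.of v ^ m u v * FreeGroup.of u *
    (FreeGroup.of v ^ n u v)⁻¹}

/-- The group `⟨x_v (v ∈ V) ∣ x_u⁻¹ x_v^{m u v} x_u = x_v^{n u v} for each arrow u → v⟩`. -/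
abbrev BSDigraph {V : Type} (r : V → V → Prop) (m n : V → V → ℕ) : Type :=
  PresentedGroup (bsRels r m n)

end Pool.Agent.Lib.MP_5a5e3d_al
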