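import Mathlib
import Pool.Agent.Lib.MP_5a5e3d_al.DgDefs
import Pool.Agent.Lib.MP_5a5e3d_al.DgStar

/-! The subgroup generated by the `e`-th powers of some generators of a Baumslag-Solitar digraph
group maps to every group with torsion elements that commute along the arrows. -/

namespace Pool.Agent.Lib.MP_5a5e3d_al

open Function Subgroup

variable {V : Type} (r : V → V → Prop) (m n : V → V → ℕ) (e l : ℕ)

/-- The relations between the vertices of `S`. -/
def RelOn (S : Set V) {G : Type} [Group G] (x : V → G) : Prop :=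
  ∀ u ∈ S, ∀ v ∈ S, r u v → BS (x u) (x v) (m u v) (n u v)

/-- The weak universal property for the relations between the vertices of `S`. -/
def Univ (S : Set V) {G : Type} [Group G] (x : V → G) : Prop :=
  RelOn r m n S x ∧ ∀ (Q : Type) [Group Q] (x' : V → Q), RelOn r m n S x' →
    ∃ Θ : G →* Q, ∀ v, Θ (x v) = x' v

lemma bs_of {u v : V} (h : r u v) :
    BS (PresentedGroup.of u : BSDigraph r m n) (PresentedGroup.of v) (m u v) (n u v) := by
  have h : PresentedGroup.mk (bsRels r m n) _ = 1 := PresentedGroup.one_of_mem ⟨u, v, h, rfl⟩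
  simp only [map_mul, map_inv, map_pow] at h
  exact mul_inv_eq_one.1 h

lemma bs_lift {Q : Type} [Group Q] (x' : V → Q)
    (h : ∀ u v, r u v → BS (x' u) (x' v) (m u v) (n u v)) :
    ∃ Θ : BSDigraph r m n →* Q, ∀ v, Θ (PresentedGroup.of v) = x' v := by
  have hrel : ∀ w ∈ bsRels r m n, FreeGroup.lift x' w = 1 := by
    rintro _ ⟨u, v, huv, rfl⟩
    simp only [map_mul, map_inv, map_pow, FreeGroup.lift_apply_of]
    exact mul_inv_eq_one.2 (h u v huv)
  exact ⟨PresentedGroup.toGroup hrel, fun v => PresentedGroup.toGroup.of hrel⟩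

lemma exists_univ (S : Set V) : ∃ (G : Type) (_ : Group G) (x : V → G), Univ r m n S x :=
  ⟨BSDigraph (fun u v => u ∈ S ∧ v ∈ S ∧ r u v) m n, inferInstance, PresentedGroup.of,
    fun _ hu _ hv h => bs_of _ m n ⟨hu, hv, h⟩,
    fun _ _ x' h => bs_lift _ m n x' fun u v huv => h u huv.1 v huv.2.1 huv.2.2⟩

lemma univ_top : Univ r m n Set.univ (PresentedGroup.of : V → BSDigraph r m n) :=
  ⟨fun _ _ _ _ h => bs_of r m n h,
    fun _ _ x' h => bs_lift r m n x' fun u v huv => h u trivial v trivial huv⟩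

/-- Admissible data: a set of vertices, an exponent and target elements. -/
def Adm {W : Type} [Group W] (A : Set V) (d : ℕ) (w : V → W) : Prop :=
  d ≠ 0 ∧ ∀ u ∈ A, ∀ v ∈ A, r u v → d = e ∧ Commute (w u) (w v) ∧ w v ^ l = 1

/-- The invariant of the induction. -/
def Inv (S : Set V) {G : Type} [Group G] (x : V → G) : Prop :=
  ∀ (W : Type) [Group W] (w : V → W) (d : ℕ) (A B : Set V), A ⊆ S → B ⊆ S → Adm r e l A d w →
    (∀ u ∈ B, ∀ v ∈ B, ¬ r u v) → ∀ g z, (g, z) ∈ Gr (fun a => x a ^ d) w A →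
      g ∈ closure (x '' B) → (g, z) ∈ Gr (fun a => x a ^ d) w (A ∩ B)

variable {r m n e l}

lemma Adm.mono {W : Type} [Group W] {A A' : Set V} {d : ℕ} {w : V → W} (h : Adm r e l A d w)
    (hA : A' ⊆ A) : Adm r e l A' d w :=
  ⟨h.1, fun u hu v hv => h.2 u (hA hu) v (hA hv)⟩

lemma adm_one {W : Type} [Group W] {B : Set V} (w : V → W) (h : ∀ u ∈ B, ∀ v ∈ B, ¬ r u v) :
    Adm r e l B 1 w :=
  ⟨one_ne_zero, fun u hu v hv huv => absurd huv (h u hu v hv)⟩

lemma Inv.fn {S : Set V} {G : Type} [Group G] {x : V → G} (h : Inv r e l S x) {W : Type} [Group W]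
    {w : V → W} {d : ℕ} {A : Set V} (hA : A ⊆ S) (ha : Adm r e l A d w) :
    Fn (Gr (fun a => x a ^ d) w A) := by
  intro z hz
  have := h W w d A ∅ hA (Set.empty_subset _) ha (by simp) 1 z hz (one_mem _)
  rw [Set.inter_empty] at this
  exact congrArg Prod.snd (Gr.empty this)

/-- The model obtained by adding one vertex. -/
lemma exists_step (hr : ∀ u v, r u v → ¬ r v u)
    (htri : ∀ u u' v, r u u' → (r u v ∨ r v u) → (r u' v ∨ r v u') → False)
    (har : ∀ u v, r u v → Ar e l (m u v) (n u v)) {S : Set V} {v : V}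
    {G : Type} [Group G] {x : V → G} (hrel : RelOn r m n (S \ {v}) x)
    (hinv : Inv r e l (S \ {v}) x) :
    ∃ (Q : Type) (_ : Group Q) (i : G →* Q) (x' : V → Q), (∀ u, u ≠ v → x' u = i (x u)) ∧
      RelOn r m n S x' ∧ ∀ (W : Type) [Group W] (w : V → W) (d : ℕ) (A : Set V), A ⊆ S →
        Adm r e l A d w → ∀ g z, (i g, z) ∈ Gr (fun a => x' a ^ d) w A →
          (g, z) ∈ Gr (fun a => x a ^ d) w (A \ {v}) := by
  classical
  let Ls : Set V := {u | u ∈ S \ {v} ∧ (r u v ∨ r v u)}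
  have hLs : Ls ⊆ S \ {v} := fun u hu => hu.1
  have hLe : ∀ u ∈ Ls, ∀ u' ∈ Ls, ¬ r u u' := fun u hu u' hu' h => htri u u' v h hu.2 hu'.2
  obtain ⟨C, St, _, _, z, φ2, y, h2, hz, hlift, hbs, hΔ⟩ := exists_star Ls
    (fun u => decide (r u v)) (fun u => if r u v then m u v else m v u)
    (fun u => if r u v then n u v else n v u) e l (by
      rintro ⟨u, hu⟩
      by_cases h : r u v
      · simpa [h] using har u v h
      · simpa [h] using har v u (hu.2.resolve_left h))
  obtain ⟨φ1, hφ1⟩ := hlift G fun u => x u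
  have h1 : Injective φ1 := by
    let w : V → C := fun u => if h : u ∈ Ls then z ⟨u, h⟩ else 1
    have hfn := hinv.fn hLs (adm_one (e := e) (l := l) w hLe)
    have : closure (Set.range z) ≤
        (Gr (fun a => x a ^ 1) w Ls).comap (φ1.prod (MonoidHom.id C)) := by
      rw [closure_le]
      rintro _ ⟨u, rfl⟩
      have := Gr.gen (fun a => x a ^ 1) w u.2
      simp only [pow_one, w, u.2, dif_pos] at this
      show (φ1 (z u), z u) ∈ Gr (fun a => x a ^ 1) w Ls
      rw [hφ1]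
      simpa only [pow_one] using this
    rw [injective_iff_map_eq_one]
    intro c hc
    have h3 : (φ1 c, c) ∈ Gr (fun a => x a ^ 1) w Ls := this (hz ▸ mem_top c)
    rw [hc] at h3
    exact hfn c h3
  have hrange : ∀ c, φ1 c ∈ closure (x '' Ls) := by
    intro c
    have : closure (Set.range z) ≤ (closure (x '' Ls)).comap φ1 := by
      rw [closure_le]
      rintro _ ⟨u, rfl⟩
      show φ1 (z u) ∈ closure (x '' Ls)
      rw [hφ1]
      exact subset_closure ⟨u, u.2, rfl⟩
    exact this (hz ▸ mem_top c)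
  obtain ⟨Q, _, i1, i2, hi, hi1, hQ⟩ := exists_amalgam φ1 φ2 h1 h2
  let x' : V → Q := fun u => if u = v then i2 y else i1 (x u)
  have hx' : ∀ u, u ≠ v → x' u = i1 (x u) := fun u hu => if_neg hu
  have hxv : x' v = i2 y := if_pos rfl
  have hxL : ∀ u : Ls, x' u = i2 (φ2 (z u)) := fun u => by
    rw [hx' u u.2.1.2, ← hi, hφ1]
  refine ⟨Q, inferInstance, i1, x', hx', fun u hu u' hu' h => ?_, fun W _ w d A hA ha g t hg => ?_⟩
  · by_cases k1 : u = v
    · subst k1
      have k2 : u' ≠ u := fun k => hr _ _ h (k ▸ h)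
      have k3 := hbs ⟨u', ⟨hu', k2⟩, Or.inr h⟩
      simp only [hr _ _ h, decide_false, Bool.false_eq_true, if_false] at k3
      rw [hxv, hxL ⟨u', ⟨hu', k2⟩, Or.inr h⟩]
      exact k3.map i2
    · by_cases k2 : u' = v
      · subst k2
        have k3 := hbs ⟨u, ⟨hu, k1⟩, Or.inl h⟩
        simp only [h, decide_true, if_true] at k3
        rw [hxv, hxL ⟨u, ⟨hu, k1⟩, Or.inl h⟩]
        exact k3.map i2
      · rw [hx' u k1, hx' u' k2]
        exact (hrel u ⟨hu, k1⟩ u' ⟨hu', k2⟩ h).map i1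
  · by_cases hv : v ∈ A
    · obtain ⟨Γ2, k1, k2⟩ := hΔ W d (w v) (fun u => w u) {u | u.1 ∈ A} ha.1 (by
        rintro ⟨u, hu⟩ huA
        by_cases h : r u v
        · obtain ⟨a1, a2, a3⟩ := ha.2 u huA v hv h
          exact ⟨a1, a2.symm, by simpa [h] using a3⟩
        · obtain ⟨a1, a2, a3⟩ := ha.2 v hv u huA (hu.2.resolve_left h)
          exact ⟨a1, a2, by simpa [h] using a3⟩)
      obtain ⟨Δ, k3, k4⟩ := hQ W _ (Gr (fun a => x a ^ d) w (A \ {v})) Γ2 (fun c t => ⟨fun hc => by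
        have a1 := hinv W w d (A \ {v}) Ls (Set.sdiff_subset_sdiff_left hA) hLs
          (ha.mono Set.sdiff_subset) hLe _ _ hc (hrange c)
        obtain ⟨c', a2, a3⟩ := Gr.lift φ1
          (Δ := Gr (fun u : Ls => z u ^ d) (fun u => w u) {u | u.1 ∈ A}) (fun a h =>
            ⟨z ⟨a, h.2⟩ ^ d, by rw [map_pow, hφ1],
              Gr.gen (fun u : Ls => z u ^ d) (fun u => w u) (a := ⟨a, h.2⟩) h.1.1⟩) a1
        rwa [← h1 a2], fun hc => Gr.push φ1 (fun u hu => by
          rw [map_pow, hφ1]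
          exact Gr.gen (fun a => x a ^ d) w (a := u.1) ⟨hu, u.2.1.2⟩) hc⟩) k2
      refine (k3 g t).1 (Gr.le (fun a h => ?_) hg)
      by_cases hav : a = v
      · subst hav
        rw [hxv, ← map_pow]
        exact k4 _ _ k1
      · rw [hx' a hav, ← map_pow]
        exact (k3 _ _).2 (Gr.gen (fun a => x a ^ d) w (a := a) ⟨h, hav⟩)
    · obtain ⟨g', a1, a2⟩ := Gr.lift i1 (Δ := Gr (fun a => x a ^ d) w (A \ {v})) (fun a h =>
        have hav : a ≠ v := fun k => hv (k ▸ h)
        ⟨x a ^ d, by rw [map_pow, hx' a hav], Gr.gen (fun a => x a ^ d) w (a := a) ⟨h, hav⟩⟩) hg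
      rwa [← hi1 a1]

theorem inv_of_univ (hr : ∀ u v, r u v → ¬ r v u)
    (htri : ∀ u u' v, r u u' → (r u v ∨ r v u) → (r u' v ∨ r v u') → False)
    (har : ∀ u v, r u v → Ar e l (m u v) (n u v)) (S : Finset V) :
    ∀ (G : Type) [Group G] (x : V → G), Univ r m n S x → Inv r e l S x := by
  classical
  induction S using Finset.strongInduction with
  | H S ih =>
  intro G _ x hx W _ w d A B hA hB ha hBe g z hg hgB
  by_cases hall : ∀ v ∈ S, v ∈ A ∩ B
  · exact Gr.mono (fun a h => hall a (hA h)) hg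
  push Not at hall
  obtain ⟨v, hvS, hv⟩ := hall
  obtain ⟨G1, _, x1, hx1⟩ := exists_univ r m n ((S : Set V) \ {v})
  have hinv : Inv r e l ((S : Set V) \ {v}) x1 := by
    have := ih (S.erase v) (Finset.erase_ssubset hvS) G1 x1
    rw [Finset.coe_erase] at this
    exact this hx1
  obtain ⟨Q, _, i, x', hx', hrel, hK⟩ := exists_step hr htri har hx1.1 hinv
  obtain ⟨Θ, hΘ⟩ := hx.2 Q x' hrel
  have h1 : (Θ g, z) ∈ Gr (fun a => x' a ^ d) w A := Gr.push Θ (fun a h => by
    rw [map_pow, hΘ]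
    exact Gr.gen (fun a => x' a ^ d) w h) hg
  have h2 : ∀ g ∈ closure (x '' B), (Θ g, g) ∈ Gr (fun a => x' a ^ 1) x B := fun g h =>
    Gr.diag Θ (fun a _ => by rw [hΘ, pow_one]) h
  have h3 : Θ g ∈ i.range := by
    by_cases hvA : v ∈ A
    · refine Gr.fst (fun a h => ?_) (h2 g hgB)
      rw [hx' a fun k => hv ⟨hvA, k ▸ h⟩]
      exact pow_mem (MonoidHom.mem_range.2 ⟨_, rfl⟩) _
    · refine Gr.fst (fun a h => ?_) h1
      rw [hx' a fun k => hvA (k ▸ h)]
      exact pow_mem (MonoidHom.mem_range.2 ⟨_, rfl⟩) _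
  obtain ⟨g1, hg1⟩ := h3
  have h4 := hK W w d A hA ha g1 z (hg1 ▸ h1)
  have h5 : g1 ∈ closure (x1 '' (B \ {v})) :=
    Gr.fst (fun a h => pow_mem (subset_closure (Set.mem_image_of_mem x1 h)) 1)
      (hK G x 1 B hB (adm_one x hBe) g1 g (hg1 ▸ h2 g hgB))
  have h6 := hinv W w d (A \ {v}) (B \ {v}) (Set.sdiff_subset_sdiff_left hA)
    (Set.sdiff_subset_sdiff_left hB) (ha.mono Set.sdiff_subset)
    (fun u hu u' hu' => hBe u hu.1 u' hu'.1) g1 z h4 h5
  have h7 : (Θ g, z) ∈ Gr (fun a => x' a ^ d) w (A ∩ B) := by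
    rw [← hg1]
    refine Gr.push i (fun a h => ?_) h6
    rw [map_pow, ← hx' a h.1.2]
    exact Gr.gen (fun a => x' a ^ d) w (a := a) ⟨h.1.1, h.2.1⟩
  obtain ⟨g2, h8, h9⟩ := Gr.lift Θ (Δ := Gr (fun a => x a ^ d) w (A ∩ B)) (fun a h =>
    ⟨x a ^ d, by rw [map_pow, hΘ], Gr.gen (fun a => x a ^ d) w h⟩) h7
  have h10 : g2 ∈ closure (x '' B) :=
    Gr.fst (fun a h => pow_mem (subset_closure (Set.mem_image_of_mem x h.2)) d) h9
  have hfn : Fn (Gr (fun a => x' a ^ 1) x B) := fun t ht =>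
    hinv.fn (Set.sdiff_subset_sdiff_left hB) ((adm_one x hBe).mono Set.sdiff_subset) t
      (hK G x 1 B hB (adm_one x hBe) 1 t (by rwa [map_one]))
  have h11 : g2 = g := hfn.eq (h8 ▸ h2 g2 h10) (h2 g hgB)
  rwa [← h11]

/-- A word in the `e`-th powers that is trivial in the digraph group is trivial in the target. -/
theorem word_trivial [Finite V] (hr : ∀ u v, r u v → ¬ r v u)
    (htri : ∀ u u' v, r u u' → (r u v ∨ r v u) → (r u' v ∨ r v u') → False)
    (har : ∀ u v, r u v → Ar e l (m u v) (n u v)) (he : e ≠ 0) (T : Set V) {W : Type} [Group W]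
    (w : T → W) (hw : ∀ s, w s ^ l = 1) (hc : ∀ s t : T, r s t → Commute (w s) (w t))
    (ω : FreeGroup T)
    (h : FreeGroup.lift (fun s : T => (PresentedGroup.of s.1 : BSDigraph r m n) ^ e) ω = 1) :
    FreeGroup.lift w ω = 1 := by
  classical
  have := Fintype.ofFinite V
  have hinv := inv_of_univ hr htri har Finset.univ (BSDigraph r m n) PresentedGroup.of
    (by rw [Finset.coe_univ]; exact univ_top r m n)
  let w' : V → W := fun u => if h : u ∈ T then w ⟨u, h⟩ else 1
  have hfn := hinv.fn (w := w') (d := e) (A := T) (by simp) ⟨he, fun u hu v hv huv => by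
    simp only [w', hu, hv, dif_pos]
    exact ⟨trivial, hc ⟨u, hu⟩ ⟨v, hv⟩ huv, hw _⟩⟩
  refine hfn _ ?_
  rw [← h]
  clear h
  induction ω using FreeGroup.induction_on with
  | C1 => simp only [map_one]; exact one_mem _
  | of s =>
    have := Gr.gen (fun a => (PresentedGroup.of a : BSDigraph r m n) ^ e) w' s.2
    simpa only [FreeGroup.lift_apply_of, w', s.2, dif_pos] using this
  | inv_of s ih => simp only [map_inv]; exact inv_mem ih
  | mul a b ha hb => simp only [map_mul]; exact mul_mem ha hb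

end Pool.Agent.Lib.MP_5a5e3d_al
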