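import Mathlib
import Pool.Agent.Lib.MP_5a5e3d_al.DgCore

/-! The graph-theoretic and the arithmetic input. -/

namespace Pool.Agent.Lib.MP_5a5e3d_al

open Finset

theorem exists_cyc {V : Type} [Finite V] (r : V → V → Prop) (hr : ∀ u v, r u v → ¬ r v u)
    (htri : ∀ u u' v, r u u' → (r u v ∨ r v u) → (r u' v ∨ r v u') → False)
    (hc : ¬ (SimpleGraph.fromRel r).IsAcyclic) :
    ∃ (T : Finset V) (s0 s1 : (T : Set V)),
      Cyc (fun s t : (T : Set V) => r s t ∨ r t s) s0 s1 := by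
  classical
  have := Fintype.ofFinite V
  have hirr : ∀ u, ¬ r u u := fun u h => hr u u h h
  have htri' : ∀ u u' v, (r u u' ∨ r u' u) → (r u v ∨ r v u) → (r u' v ∨ r v u') → False := by
    rintro u u' v (h | h) h1 h2
    · exact htri u u' v h h1 h2
    · exact htri u' u v h h2 h1
  let F : Finset V → Finset (V × V) := fun S => (S ×ˢ S).filter fun p => r p.1 p.2
  have hF : ∀ S p, p ∈ F S ↔ (p.1 ∈ S ∧ p.2 ∈ S) ∧ r p.1 p.2 := fun S p => by simp [F]
  have hex : ∃ T : Finset V, T.Nonempty ∧ T.card ≤ (F T).card := by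
    rw [SimpleGraph.IsAcyclic] at hc
    push Not at hc
    obtain ⟨v, p, hp⟩ := hc
    refine ⟨p.support.toFinset, ⟨v, by simp⟩, ?_⟩
    set T := p.support.toFinset
    have h1 : ∀ u ∈ T, 2 ≤ (T.filter fun w => r u w).card + (T.filter fun w => r w u).card := by
      intro u hu
      have h2 := hp.ncard_neighborSet_toSubgraph_eq_two (List.mem_toFinset.1 hu)
      rw [← h2]
      refine le_trans ?_ (card_union_le _ _)
      rw [← Set.ncard_coe_finset]
      refine Set.ncard_le_ncard (fun w hw => ?_) (Finset.finite_toSet _)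
      have k1 : (SimpleGraph.fromRel r).Adj u w := p.toSubgraph.adj_sub hw
      have k2 : w ∈ T := List.mem_toFinset.2
        ((SimpleGraph.Walk.mem_verts_toSubgraph p).1 (p.toSubgraph.edge_vert hw.symm))
      rw [SimpleGraph.fromRel_adj] at k1
      simpa [k2, mem_filter, mem_union] using k1.2
    have h2 : ∑ u ∈ T, (T.filter fun w => r u w).card = (F T).card := by
      simp only [F, card_filter, sum_product]
    have h3 : ∑ u ∈ T, (T.filter fun w => r w u).card = (F T).card := by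
      simp only [F, card_filter, sum_product]
      exact sum_comm
    have h4 := sum_le_sum h1
    rw [sum_add_distrib, h2, h3, sum_const, smul_eq_mul] at h4
    omega
  obtain ⟨T, ⟨hT0, hT⟩, hmin⟩ := (measure fun T : Finset V => T.card).wf.has_min
    {T | T.Nonempty ∧ T.card ≤ (F T).card} hex
  have hlt : ∀ S ⊆ T, S.Nonempty → (∃ t ∈ T, t ∉ S) → (F S).card < S.card := by
    rintro S hS h0 ⟨t, ht, ht'⟩
    by_contra k
    exact hmin S ⟨h0, not_lt.1 k⟩ (card_lt_card ⟨hS, fun k' => ht' (k' ht)⟩)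
  have hcut : ∀ (D C : Finset V) (X : Finset (V × V)), D ⊆ T → C ⊆ T → (∀ u ∈ D, u ∉ C) →
      D.Nonempty → (∃ t ∈ T, t ∉ D ∧ t ∉ C) →
      (∀ u ∈ D, ∀ v ∈ T, v ∉ D → v ∉ C → (r u v → (u, v) ∈ X) ∧ (r v u → (v, u) ∈ X)) →
      (F C).card + 2 ≤ C.card + X.card := by
    rintro D C X hD hC hDC ⟨s, hs⟩ ⟨t, ht, htD, htC⟩ hX
    have a1 := hlt (D ∪ C) (union_subset hD hC) ⟨s, by simp [hs]⟩ ⟨t, ht, by simp [htD, htC]⟩
    have a2 := hlt (T \ D) sdiff_subset ⟨t, by simp [ht, htD]⟩ ⟨s, hD hs, by simp [hs]⟩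
    have a3 := card_union_add_card_inter (F (D ∪ C)) (F (T \ D))
    have a4 : F T ⊆ (F (D ∪ C) ∪ F (T \ D)) ∪ X := by
      rintro ⟨u, v⟩ h
      simp only [mem_union, hF, mem_sdiff] at h ⊢
      have b1 := hX u
      have b2 := hX v
      have b3 := hDC u
      have b4 := hDC v
      by_cases k1 : u ∈ D <;> by_cases k2 : v ∈ D <;> by_cases k3 : u ∈ C <;>
        by_cases k4 : v ∈ C <;> simp_all
    have a5 : F C ⊆ F (D ∪ C) ∩ F (T \ D) := by
      rintro ⟨u, v⟩ h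
      simp only [mem_inter, mem_union, hF, mem_sdiff] at h ⊢
      exact ⟨⟨⟨Or.inr h.1.1, Or.inr h.1.2⟩, h.2⟩, ⟨⟨hC h.1.1, fun k => hDC _ k h.1.1⟩,
        ⟨hC h.1.2, fun k => hDC _ k h.1.2⟩⟩, h.2⟩
    have a6 := (card_le_card a4).trans (card_union_le _ _)
    have a7 := card_le_card a5
    have a8 := card_union_le D C
    have a9 := card_sdiff_add_card_eq_card hD
    omega
  have hcl : ∀ C : Finset V, (∀ s ∈ C, ∀ t ∈ C, s ≠ t → r s t ∨ r t s) →
      C.card ≤ (F C).card + 1 := by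
    intro C h
    by_cases k : C.card ≤ 1
    · omega
    by_cases k2 : 2 < C.card
    · obtain ⟨a, ha, b, hb, c, hc, k3, k4, k5⟩ := two_lt_card.1 k2
      exact (htri' a b c (h a ha b hb k3) (h a ha c hc k4) (h b hb c hc k5)).elim
    obtain ⟨a, ha, b, hb, k3⟩ := one_lt_card.1 (not_le.1 k)
    have : 0 < (F C).card := card_pos.2 (by
      rcases h a ha b hb k3 with k | k
      · exact ⟨(a, b), (hF _ _).2 ⟨⟨ha, hb⟩, k⟩⟩
      · exact ⟨(b, a), (hF _ _).2 ⟨⟨hb, ha⟩, k⟩⟩)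
    omega
  obtain ⟨⟨s0, s1⟩, h01⟩ : (F T).Nonempty := card_pos.1 ((card_pos.2 hT0).trans_le hT)
  obtain ⟨⟨hs0, hs1⟩, h01⟩ := (hF _ _).1 h01
  simp only at hs0 hs1 h01
  let fin : Set (T : Set V) → Finset V := fun C => T.filter fun v => ∃ h : v ∈ (T : Set V), ⟨v, h⟩ ∈ C
  have hfin : ∀ C (v : (T : Set V)), v.1 ∈ fin C ↔ v ∈ C := fun C v =>
    ⟨fun h => (mem_filter.1 h).2.2, fun h => mem_filter.2 ⟨v.2, v.2, h⟩⟩
  have hfin' : ∀ C, fin C ⊆ T := fun C => filter_subset _ _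
  have hfcl : ∀ C : Set (T : Set V), (∀ s ∈ C, ∀ t ∈ C, s ≠ t → r s t ∨ r t s) →
      ∀ s ∈ fin C, ∀ t ∈ fin C, s ≠ t → r s t ∨ r t s := fun C h s hs t ht hst =>
    h ⟨s, hfin' C hs⟩ ((hfin C _).1 hs) ⟨t, hfin' C ht⟩ ((hfin C _).1 ht)
      fun k => hst (congrArg Subtype.val k)
  refine ⟨T, ⟨s0, hs0⟩, ⟨s1, hs1⟩, fun s t h => h.symm, fun s h => hirr s (h.elim id id),
    fun s t u => htri' s t u, Or.inl h01, fun C hC s hs => ?_, fun C hC s hs t ht => ?_,
    fun s t => ?_⟩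
  · by_contra k
    push Not at k
    have b1 : ∃ t ∈ T, t ∉ fin C := by
      by_contra k'
      push Not at k'
      have c1 : ∀ u ∈ T, u = s0 ∨ u = s1 := by
        intro u hu
        by_contra k2
        rw [not_or] at k2
        exact htri s0 s1 u h01 (hfcl C hC _ (k' _ hs0) _ (k' _ hu) (Ne.symm k2.1))
          (hfcl C hC _ (k' _ hs1) _ (k' _ hu) (Ne.symm k2.2))
      have c2 : F T ⊆ {(s0, s1)} := by
        rintro ⟨u, v⟩ h
        obtain ⟨⟨h1, h2⟩, h3⟩ := (hF _ _).1 h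
        rcases c1 u h1 with rfl | rfl <;> rcases c1 v h2 with rfl | rfl
        exacts [absurd h3 (hirr _), by simp, absurd h3 (hr _ _ h01), absurd h3 (hirr _)]
      have c3 := card_le_card c2
      have c4 : 1 < T.card := one_lt_card.2 ⟨s0, hs0, s1, hs1, fun k => hirr s0 (k ▸ h01)⟩
      rw [card_singleton] at c3
      omega
    obtain ⟨t, ht, ht'⟩ := b1
    have b2 := hcut {s.1} ((fin C).erase s) ∅ (by simpa using s.2)
      ((erase_subset _ _).trans (hfin' C)) (by simp) (by simp)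
      ⟨t, ht, fun k' => ht' (by rw [mem_singleton.1 k']; exact (hfin C s).2 hs),
        fun k' => ht' (mem_of_mem_erase k')⟩ (by
      intro u hu v hv h1 h2
      rw [mem_singleton] at hu h1
      subst hu
      have : ¬ (r s v ∨ r v s) := fun k' =>
        h2 (mem_erase.2 ⟨h1, (hfin C ⟨v, hv⟩).2 (k ⟨v, hv⟩ k')⟩)
      tauto)
    have b3 := hcl ((fin C).erase s) fun a ha b hb =>
      hfcl C hC a (mem_of_mem_erase ha) b (mem_of_mem_erase hb)
    rw [card_empty] at b2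
    omega
  · by_contra k
    let D : Set (T : Set V) := {u | u ∉ C ∧ Relation.ReflTransGen
      (fun u v : (T : Set V) => (r u v ∨ r v u) ∧ u ∉ C ∧ v ∉ C) s u}
    have b2 := hcut (fin D) (fin C) ∅ (hfin' D) (hfin' C)
      (fun u hu hu' => ((hfin D ⟨u, hfin' D hu⟩).1 hu).1 ((hfin C ⟨u, hfin' D hu⟩).1 hu'))
      ⟨s, (hfin D s).2 ⟨hs, .refl⟩⟩
      ⟨t, t.2, fun k' => k ((hfin D t).1 k').2, fun k' => ht ((hfin C t).1 k')⟩ (by
      intro u hu v hv h1 h2
      have c1 := (hfin D ⟨u, hfin' D hu⟩).1 hu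
      have c2 : (⟨v, hv⟩ : (T : Set V)) ∉ C := fun k' => h2 ((hfin C ⟨v, hv⟩).2 k')
      have : ¬ (r u v ∨ r v u) := fun k' =>
        h1 ((hfin D ⟨v, hv⟩).2 ⟨c2, c1.2.tail ⟨k', c1.1, c2⟩⟩)
      tauto)
    have b3 := hcl (fin C) (hfcl C hC)
    rw [card_empty] at b2
    omega
  · by_contra k
    let D : Set (T : Set V) := {u | Relation.ReflTransGen
      (fun u v : (T : Set V) => (r u v ∨ r v u) ∧ ¬ (u = ⟨s0, hs0⟩ ∧ v = ⟨s1, hs1⟩) ∧
        ¬ (u = ⟨s1, hs1⟩ ∧ v = ⟨s0, hs0⟩)) s u}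
    have b2 := hcut (fin D) ∅ {(s0, s1)} (hfin' D) (empty_subset _) (by simp)
      ⟨s, (hfin D s).2 .refl⟩ ⟨t, t.2, fun k' => k ((hfin D t).1 k'), by simp⟩ (by
      intro u hu v hv h1 _
      have c1 := (hfin D ⟨u, hfin' D hu⟩).1 hu
      have : (r u v ∨ r v u) → (u = s0 ∧ v = s1) ∨ (u = s1 ∧ v = s0) := fun k' => by
        by_contra k2
        rw [not_or] at k2
        exact h1 ((hfin D ⟨v, hv⟩).2 (Relation.ReflTransGen.tail c1 ⟨k', by
          simpa only [Subtype.mk.injEq] using k2⟩))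
      refine ⟨fun h => ?_, fun h => ?_⟩
      · rcases this (Or.inl h) with ⟨rfl, rfl⟩ | ⟨rfl, rfl⟩
        exacts [by simp, absurd h (hr _ _ h01)]
      · rcases this (Or.inr h) with ⟨rfl, rfl⟩ | ⟨rfl, rfl⟩
        exacts [absurd h (hr _ _ h01), by simp])
    simp at b2

theorem exists_exp (K : ℕ) (hK : K ≠ 0) (N : ℕ) : ∃ e l : ℕ, e ≠ 0 ∧ N ≤ l ∧
    IsCoprime (e : ℤ) K ∧ ∀ a : ℕ, a ∣ K → ((a : ZMod l)) ^ e = 1 := by
  have : NeZero (4 * K) := ⟨by omega⟩
  obtain ⟨p, hp1, hp, hp2⟩ := Nat.forall_exists_prime_gt_and_eq_mod (q := 4 * K) (a := -1)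
    isUnit_one.neg (N + 3)
  have := Fact.mk hp
  have h1 : 4 * K ∣ p + 1 := by
    rw [← ZMod.natCast_eq_zero_iff]
    push_cast at hp2 ⊢
    rw [hp2, neg_add_cancel]
  obtain ⟨c, hc⟩ := h1
  have hodd : p % 2 = 1 := by
    have : 4 * K * c = 2 * (2 * K * c) := by ring
    omega
  refine ⟨p / 2, p, by omega, by omega, ⟨-1, 2 * c, ?_⟩, fun a ha => ?_⟩
  · have h2 : p / 2 + 1 = 2 * c * K := by
      have : 4 * K * c = 2 * (2 * c * K) := by ring
      omega
    have h3 : ((p / 2 : ℕ) : ℤ) + 1 = 2 * c * K := by exact_mod_cast h2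
    linear_combination -h3
  · obtain ⟨b, rfl⟩ := ha
    have ha0 : a ≠ 0 := left_ne_zero_of_mul hK
    have h2 : p % (4 * a) = (4 * a - 1) % (4 * a) := by
      have k : p + 1 ≡ 4 * a - 1 + 1 [MOD 4 * a] := by
        rw [hc, Nat.sub_add_cancel (by omega)]
        exact ((Nat.modEq_zero_iff_dvd).2 ⟨b * c, by ring⟩).trans
          ((Nat.modEq_zero_iff_dvd).2 dvd_rfl).symm
      exact Nat.ModEq.add_right_cancel' 1 k
    have h3 : jacobiSym (a : ℤ) p = 1 := by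
      rw [jacobiSym.mod_right' a (Nat.odd_iff.2 hodd), h2,
        ← jacobiSym.mod_right' a (Nat.odd_iff.2 (by omega))]
      have k : ((4 * a - 1 : ℕ) : ℤ) = 4 * a - 1 := by push_cast [Nat.cast_sub (show 1 ≤ 4 * a by omega)]; ring
      have k2 : (a : ℤ) % (4 * a - 1 : ℕ) = ((2 * a) ^ 2 : ℤ) % (4 * a - 1 : ℕ) := by
        rw [k]
        exact (Int.modEq_iff_dvd.2 ⟨a, by ring⟩ : (a : ℤ) ≡ (2 * a) ^ 2 [ZMOD 4 * a - 1])
      rw [jacobiSym.mod_left' k2]
      refine jacobiSym.sq_one' (Int.isCoprime_iff_gcd_eq_one.1 ⟨2, -1, ?_⟩)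
      rw [k]; ring
    have h4 := legendreSym.eq_pow p (a : ℤ)
    rw [jacobiSym.legendreSym.to_jacobiSym, h3] at h4
    simpa using h4.symm

theorem ar_of_exp {e l m n : ℕ} (he : e ≠ 0) (hm : m ≠ 0) (hn : n ≠ 0)
    (hc : IsCoprime (e : ℤ) (m * n : ℕ)) (h1 : (m : ZMod l) ^ e = 1) (h2 : (n : ZMod l) ^ e = 1) :
    Ar e l m n := by
  let k : ℤ := (m * n : ℕ)
  have hk : ((unitAway k : (Localization.Away k)ˣ) : Localization.Away k) = m * n := by
    rw [unitAway_val]; simp [k]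
  have um : IsUnit (m : Localization.Away k) :=
    isUnit_of_mul_isUnit_left (hk ▸ (unitAway k).isUnit)
  have un : IsUnit (n : Localization.Away k) :=
    isUnit_of_mul_isUnit_right (hk ▸ (unitAway k).isUnit)
  have hu : ((un.unit * um.unit⁻¹ : (Localization.Away k)ˣ) : Localization.Away k) * m = n := by
    rw [Units.val_mul, mul_assoc, IsUnit.val_inv_mul, mul_one, IsUnit.unit_spec]
  have hρ : IsUnit ((Int.castRingHom (ZMod l)) k) := IsUnit.of_pow_eq_one (n := e)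
    (by simp [k, mul_pow, h1, h2]) he
  refine ⟨k, un.unit * um.unit⁻¹, good_away (by simp [k, hm, hn]) (by exact_mod_cast he) hc, hu,
    IsLocalization.Away.lift k hρ, ?_⟩
  have := congrArg (fun x => (IsLocalization.Away.lift k hρ : Localization.Away k →+* ZMod l) x ^ e) hu
  simp only [map_mul, map_natCast, mul_pow, h1, h2, mul_one] at this
  rw [zpow_natCast, Units.val_pow_eq_pow_val, map_pow]
  exact this

end Pool.Agent.Lib.MP_5a5e3d_al
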