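import Mathlib
import Pool.Agent.Lib.MP_5a5e3d_al.Embed
import Pool.Agent.Lib.MP_5a5e3d_al.Morse
import Pool.Agent.Lib.MP_5a5e3d_al.Lift

/-! Generalised Higman groups are not coherent. -/

namespace Pool.Agent.Lib.MP_5a5e3d_al

open Subgroup Equiv
open scoped commutatorElement

/-- The values on the ascending elements of the first factor. -/
def sOne : Bool → Gam
  | false => (tt, Multiplicative.ofAdd 1)
  | true => (swap 0 1 * tt, Multiplicative.ofAdd 1)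

/-- The values on the ascending elements of the second factor. -/
def sTwo : Bool → Perm ℤ
  | false => tt
  | true => tt * swap 1 2

/-- The two exponents used. -/
def ex : Bool → ℤ
  | false => 1
  | true => 2

lemma s_mem (i j : Bool) : (sOne i, sTwo j) ∈ Fib := by
  have h1 : swap (0 : ℤ) 1 ∈ B1 := ⟨2, fun n hn => swap_apply_of_ne_of_ne (by omega) (by omega)⟩
  have h2 : swap (1 : ℤ) 2 ∈ B2 := ⟨0, fun n hn => swap_apply_of_ne_of_ne (by omega) (by omega)⟩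
  constructor
  · cases i
    · simp [sOne, tt]
    · simpa [sOne, tt] using h1
  · have e : (sOne i).2 = Multiplicative.ofAdd 1 := by cases i <;> rfl
    simp only [e]
    cases j
    · simp [sTwo, tt]
    · exact conj_mem_B2 h2 _

lemma core {G : Type} [Group G] (x : Fin 4 → G) (p : Fin 4 → ℕ)
    (hv : ∀ i, Vx (x i) (x (i + 1)) (p i) (p (i + 1))) (D : Subgroup G) (Λ : D →* Gam × Perm ℤ)
    (hT : ∀ g s, ∃ h : g * x s ^ p s * g⁻¹ ∈ D, Λ ⟨_, h⟩ = 1)
    (hU : ∀ i j, ∃ h : x 0 ^ ex i * x 2 ^ ex i * (x 1 ^ ex j * x 3 ^ ex j) ∈ D,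
      Λ ⟨_, h⟩ = (sOne i, sTwo j)) :
    ∃ N : Subgroup G, N.FG ∧ ¬ Group.IsFinitelyPresented N := by
  let γ : (Fin 3 × Fin 3 × Fin 4) ⊕ (Bool × Bool) → G := Sum.elim
    (fun z => x 1 ^ (z.1 : ℤ) * x 0 ^ (z.2.1 : ℤ) * x z.2.2 ^ p z.2.2 *
      (x 1 ^ (z.1 : ℤ) * x 0 ^ (z.2.1 : ℤ))⁻¹)
    (fun z => x 0 ^ ex z.1 * x 2 ^ ex z.1 * (x 1 ^ ex z.2 * x 3 ^ ex z.2))
  let N : Subgroup G := closure (Set.range γ)
  have hγ : ∀ i, γ i ∈ N := fun i => subset_closure ⟨i, rfl⟩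
  have hle : N ≤ (Fib.comap Λ).map D.subtype := by
    rw [closure_le]
    rintro _ ⟨z | z, rfl⟩
    · obtain ⟨h, h'⟩ := hT (x 1 ^ (z.1 : ℤ) * x 0 ^ (z.2.1 : ℤ)) z.2.2
      exact ⟨⟨_, h⟩, by rw [SetLike.mem_coe, mem_comap, h']; exact Fib.one_mem, rfl⟩
    · obtain ⟨h, h'⟩ := hU z.1 z.2
      exact ⟨⟨_, h⟩, by rw [SetLike.mem_coe, mem_comap, h']; exact s_mem _ _, rfl⟩
  have hND : N ≤ D := hle.trans (map_subtype_le _)
  let L : N →* Gam × Perm ℤ := Λ.comp (inclusion hND)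
  have hL : ∀ g, L g ∈ Fib := by
    intro g
    obtain ⟨y, hy, hy'⟩ := hle g.2
    have : inclusion hND g = y := Subtype.ext hy'.symm
    show Λ (inclusion hND g) ∈ Fib
    rw [this]
    exact hy
  refine ⟨N, (Subgroup.fg_iff _).2 ⟨_, rfl, Set.finite_range _⟩, fun hN => ?_⟩
  obtain ⟨m, ψ, hψ⟩ := fp_lift hN (fun m g => glue m (L g))
    (fun g h => by simpa only [map_mul] using glue_mul (hL g) (hL h))
    (fun i => (⟨γ i, hγ i⟩ : N))
  let J : Subgroup G := ψ.ker.map N.subtype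
  have hJ : ∀ z, γ (Sum.inl z) ∈ J := by
    intro z
    refine ⟨⟨_, hγ (Sum.inl z)⟩, ?_, rfl⟩
    obtain ⟨h, h'⟩ := hT (x 1 ^ (z.1 : ℤ) * x 0 ^ (z.2.1 : ℤ)) z.2.2
    have : L ⟨_, hγ (Sum.inl z)⟩ = 1 := h'
    rw [SetLike.mem_coe, MonoidHom.mem_ker, hψ, this]
    simp [glue]
  have hE : ∀ (j i : Fin 3) (s : Fin 4), Ed J (x s) (p s) (1 * x 1 ^ (j : ℤ) * x 0 ^ (i : ℤ)) := by
    intro j i s
    rw [one_mul]
    exact hJ (j, i, s)
  let S : Setup G :=
    { a := x 0, b := x 1, c := x 2, d := x 3, pa := p 0, pb := p 1, pc := p 2, pd := p 3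
      J := J, N := N, I := Set.range ex
      ab := hv 0, bc := hv 1, cd := hv 2, da := hv 3
      le := map_subtype_le _
      norm := by
        rintro z hz _ ⟨w, hw, rfl⟩
        exact ⟨⟨z, hz⟩ * w * ⟨z, hz⟩⁻¹, (MonoidHom.normal_ker ψ).conj_mem w hw _, rfl⟩ }
  have hI : ∀ i ∈ S.I, ∃ k : Fin 3, (k : ℤ) = i := by
    rintro _ ⟨_ | _, rfl⟩
    · exact ⟨1, rfl⟩
    · exact ⟨2, rfl⟩
  have hphi : S.Phi 1 := by
    refine ⟨⟨?_, ?_, ?_, ?_, ?_, ?_⟩, ?_⟩
    · simpa using hE 0 0 0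
    · simpa using hE 0 0 1
    · intro i hi
      obtain ⟨k, rfl⟩ := hI i hi
      simpa using hE 0 k 2
    · intro j hj
      obtain ⟨k, rfl⟩ := hI j hj
      simpa using hE k 0 3
    · intro i hi j hj
      obtain ⟨k, rfl⟩ := hI i hi
      obtain ⟨l, rfl⟩ := hI j hj
      exact hE l k 2
    · intro i hi j hj
      obtain ⟨k, rfl⟩ := hI i hi
      obtain ⟨l, rfl⟩ := hI j hj
      exact hE l k 3
    · rintro _ ⟨i, rfl⟩ _ ⟨j, rfl⟩
      rw [Ap, one_mul, inv_one, mul_one]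
      exact hγ (Sum.inr (i, j))
  obtain ⟨w, hw, hw'⟩ := Setup.comm_mem hphi ⟨false, rfl⟩ ⟨true, rfl⟩ m
  let y : Bool → Bool → N := fun i j => ⟨_, hγ (Sum.inr (i, j))⟩
  have hy : ∀ i j, ψ (y i j) = glue m (sOne i, sTwo j) := by
    intro i j
    obtain ⟨h, h'⟩ := hU i j
    have : L (y i j) = (sOne i, sTwo j) := h'
    rw [← this]
    exact hψ (Sum.inr (i, j))
  have hw2 : w = ⁅(y false false) ^ m * (y true false * (y false false)⁻¹) *
      ((y false false) ^ m)⁻¹, (y false false)⁻¹ * y false true⁆ := Subtype.ext hw'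
  rw [SetLike.mem_coe, MonoidHom.mem_ker, hw2, map_commutatorElement] at hw
  simp only [map_mul, map_inv, map_pow, hy] at hw
  have e0 : glue m (sOne false, sTwo false) = tt := by
    simp only [glue, sOne, sTwo, ← tt.eq_1]; group
  have e1 : glue m (sOne true, sTwo false) = swap 0 1 * tt := by
    simp only [glue, sOne, sTwo, ← tt.eq_1]; group
  have e2 : glue m (sOne false, sTwo true) = tt * (tt ^ m * swap 1 2 * (tt ^ m)⁻¹) := by
    simp only [glue, sOne, sTwo, ← tt.eq_1]; group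
  rw [e0, e1, e2, mul_inv_cancel_right, inv_mul_cancel_left, ← conjugate_commutatorElement,
    mul_inv_eq_one, mul_eq_left, commutatorElement_eq_one_iff_mul_comm] at hw
  have := congrArg (fun σ : Perm ℤ => σ 0) hw
  revert this
  decide

lemma not_coherent_of_hom {G : Type} [Group G] (x : Fin 4 → G) (p : Fin 4 → ℕ)
    (hp : ∀ i, 3 ≤ p i) (hv : ∀ i, Vx (x i) (x (i + 1)) (p i) (p (i + 1)))
    (hπ : ∀ t : Fin 4 → Perm (Gam × ℕ) × Perm (Perm ℤ × ℕ), (∀ i, t i ^ p i = 1) →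
      (∀ i, Commute (t i) (t (i + 1))) →
      ∃ π : G →* Perm (Gam × ℕ) × Perm (Perm ℤ × ℕ), ∀ i, π (x i) = t i) :
    ∃ N : Subgroup G, N.FG ∧ ¬ Group.IsFinitelyPresented N := by
  obtain ⟨A, C, hA, hC, h1, h2⟩ := exists_model (sOne false) (sOne true) (hp 0) (hp 2)
  obtain ⟨B, D, hB, hD, h3, h4⟩ := exists_model (sTwo false) (sTwo true) (hp 1) (hp 3)
  have hAC : ∀ i ω, (A ^ ex i * C ^ ex i) (ω, 0) = (sOne i * ω, 0) := by
    rintro (_ | _)
    · exact h1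
    · exact h2
  have hBD : ∀ i ω, (B ^ ex i * D ^ ex i) (ω, 0) = (sTwo i * ω, 0) := by
    rintro (_ | _)
    · exact h3
    · exact h4
  let t : Fin 4 → Perm (Gam × ℕ) × Perm (Perm ℤ × ℕ) := ![(A, 1), (1, B), (C, 1), (1, D)]
  have ht : ∀ i, t i ^ p i = 1 := by
    intro i
    fin_cases i <;> simp [t, hA, hB, hC, hD]
  obtain ⟨π, hπ⟩ := hπ t ht (by
    intro i
    fin_cases i <;> simp [t, Commute, SemiconjBy])
  let E : Subgroup G := ((fib Gam).prod (fib (Perm ℤ))).comap π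
  let Λ : E →* Gam × Perm ℤ :=
    ((ev Gam).comp (((MonoidHom.fst _ _).comp (π.comp E.subtype)).codRestrict _
      fun g => g.2.1)).prod
    ((ev (Perm ℤ)).comp (((MonoidHom.snd _ _).comp (π.comp E.subtype)).codRestrict _
      fun g => g.2.2))
  have hΛ : ∀ (g : G) (a : Gam) (b : Perm ℤ), (∀ ω, (π g).1 (ω, 0) = (a * ω, 0)) →
      (∀ ω, (π g).2 (ω, 0) = (b * ω, 0)) → ∃ h : g ∈ E, Λ ⟨g, h⟩ = (a, b) := by
    intro g a b ha hb
    refine ⟨⟨⟨a, ha⟩, ⟨b, hb⟩⟩, Prod.ext ?_ ?_⟩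
    · exact ev_eq ⟨a, ha⟩ (by simpa using ha 1)
    · exact ev_eq ⟨b, hb⟩ (by simpa using hb 1)
  refine core x p hv E Λ (fun g s => ?_) fun i j => ?_
  · have h : π (g * x s ^ p s * g⁻¹) = 1 := by simp [hπ, ht]
    exact hΛ _ 1 1 (by simp [h]) (by simp [h])
  · have h : π (x 0 ^ ex i * x 2 ^ ex i * (x 1 ^ ex j * x 3 ^ ex j)) =
        (A ^ ex i * C ^ ex i, B ^ ex j * D ^ ex j) := by
      simp [hπ, t]
    exact hΛ _ _ _ (by rw [h]; exact hAC i) (by rw [h]; exact hBD j)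

lemma exists_order {k e : ℕ} (hk : 1 ≤ k) (he : 2 ≤ e) :
    ∃ p : ℕ, 3 ≤ p ∧ (p : ℤ) ∣ (k : ℤ) ^ e - 1 := by
  rcases hk.eq_or_lt with rfl | hk
  · exact ⟨3, le_rfl, by simp⟩
  · have h : 2 ^ 2 ≤ k ^ e :=
      (Nat.pow_le_pow_left hk 2).trans (Nat.pow_le_pow_right (by omega) he)
    refine ⟨k ^ e - 1, by omega, ?_⟩
    rw [Nat.cast_sub (by omega)]
    simp

theorem genHigman_not_coherent (k : Fin 4 → ℕ) (hk : ∀ i, 1 ≤ k i) :
    ¬ IsCoherent (GenHigman k) := by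
  intro hcoh
  let e : ℕ := ∏ i, k i + 1
  have hpos : 0 < ∏ i, k i := Finset.prod_pos fun i _ => hk i
  have he : 2 ≤ e := by omega
  have hc : ∀ i, IsCoprime (e : ℤ) (k i) := by
    intro i
    obtain ⟨r, hr⟩ : k i ∣ ∏ i, k i := Finset.dvd_prod_of_mem _ (Finset.mem_univ i)
    exact ⟨1, -r, by simp only [e, hr]; push_cast; ring⟩
  choose q hq hq' using fun i => exists_order (hk i) he
  let p : Fin 4 → ℕ := fun i => q (i - 1)
  have hp : ∀ i, (p (i + 1) : ℤ) ∣ (k i : ℤ) ^ e - 1 := fun i => by simpa [p] using hq' i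
  let x : Fin 4 → GenHigman k := fun i => PresentedGroup.of i
  have hrel : ∀ i, (x i)⁻¹ * x (i + 1) * x i = x (i + 1) ^ (k i : ℤ) := by
    intro i
    have h : PresentedGroup.mk (higmanRels k) _ = 1 := PresentedGroup.one_of_mem ⟨i, rfl⟩
    simp only [map_mul, map_inv, map_pow] at h
    rw [zpow_natCast]
    exact mul_inv_eq_one.1 h
  let K : Subgroup (GenHigman k) := closure (Set.range fun i => x i ^ e)
  let y : Fin 4 → K := fun i => ⟨x i ^ e, subset_closure ⟨i, rfl⟩⟩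
  have hy : ∀ i, (y i)⁻¹ * y (i + 1) * y i = y (i + 1) ^ ((k i : ℤ) ^ e) := by
    intro i
    apply Subtype.ext
    have := conj_pow_bs (hrel i) e e
    rw [zpow_mul, zpow_natCast] at this
    exact this
  obtain ⟨N, hN, hN'⟩ := not_coherent_of_hom y p (fun i => hq _)
    (fun i => vx_of_bs (hy i) (by have := hq (i - 1); simp only [p]; omega) (hp i)) (by
      intro t ht htc
      obtain ⟨K', hK', π, hπ⟩ := exists_hom k (fun i => by have := hk i; omega) e (by omega) hc p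
        hp t ht htc
      have hle : K ≤ K' := by
        rw [closure_le]
        rintro _ ⟨i, rfl⟩
        exact hK' i
      exact ⟨π.comp (inclusion hle), fun i => hπ i⟩)
  have hfg : (N.map K.subtype).FG := by
    obtain ⟨s, hs, hs'⟩ := (Subgroup.fg_iff N).1 hN
    exact (Subgroup.fg_iff _).2 ⟨K.subtype '' s, by rw [← hs, MonoidHom.map_closure], hs'.image _⟩
  have := hcoh (N.map K.subtype) hfg
  exact hN' (Group.IsFinitelyPresented.equiv
    (N.equivMapOfInjective K.subtype K.subtype_injective).symm)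

end Pool.Agent.Lib.MP_5a5e3d_al
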