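import Mathlib

/-! Coherent group rings: cycles of a coefficient system on a Cayley graph are finitely
generated. -/

set_option autoImplicit false
set_option linter.unusedSectionVars false

namespace Pool.Agent.Lib.MP_5a5e3d_al.Ring

open Finset

section Coh

variable {R : Type} [Ring R]

/-- Every finitely generated submodule is finitely presented. -/
def Coh (R M : Type) [Ring R] [AddCommGroup M] [Module R M] : Prop :=
  ∀ N : Submodule R M, N.FG → Module.FinitePresentation R N

lemma coh_of {M M' M'' : Type} [AddCommGroup M] [Module R M] [AddCommGroup M'] [Module R M']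
    [AddCommGroup M''] [Module R M''] (h' : Coh R M') (h'' : Coh R M'') (f : M →ₗ[R] M'')
    (g : M →ₗ[R] M') (h : ∀ x, f x = 0 → g x = 0 → x = 0) : Coh R M := by
  intro N hN
  have h1 := h'' _ (hN.map f)
  have : Module.Finite R N := Module.Finite.iff_fg.2 hN
  have hs := f.submoduleMap_surjective N
  have h2 := Module.FinitePresentation.fg_ker (f.submoduleMap N) hs
  have : Module.Finite R (LinearMap.ker (f.submoduleMap N)) := Module.Finite.iff_fg.2 h2
  let e : LinearMap.ker (f.submoduleMap N) →ₗ[R] M' :=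
    g ∘ₗ N.subtype ∘ₗ (LinearMap.ker (f.submoduleMap N)).subtype
  have he : Function.Injective e := by
    rw [injective_iff_map_eq_zero]
    intro x hx
    exact Subtype.ext (Subtype.ext (h _ (congrArg Subtype.val x.2) hx))
  have h3 := h' (LinearMap.range e) (by
    rw [LinearMap.range_eq_map]
    exact Module.Finite.fg_top.map e)
  have := Module.FinitePresentation.of_equiv (LinearEquiv.ofInjective e he).symm
  exact Module.finitePresentation_of_ker _ hs

lemma coh_pi (h : Coh R R) (r : ℕ) : Coh R (Fin r → R) := by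
  induction r with
  | zero =>
    refine coh_of h h 0 0 fun x _ _ => Subsingleton.elim _ _
  | succ r ih =>
    refine coh_of ih h (LinearMap.proj 0) (LinearMap.funLeft R R Fin.succ) fun x h1 h2 => ?_
    funext i
    refine Fin.cases h1 (fun j => ?_) i
    exact congrFun h2 j

lemma ker_fg (h : Coh R R) {ι : Type} [Fintype ι] {r : ℕ} (d : (ι → R) →ₗ[R] (Fin r → R)) :
    (LinearMap.ker d).FG := by
  have h1 := coh_pi h r (LinearMap.range d) (by
    rw [LinearMap.range_eq_map]
    exact Module.Finite.fg_top.map d)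
  have h2 := Module.FinitePresentation.fg_ker d.rangeRestrict d.surjective_rangeRestrict
  rwa [LinearMap.ker_rangeRestrict] at h2

end Coh

variable {k Γ U : Type} [CommRing k] [Group Γ] [AddCommGroup U] [Module k U]

/-- Evaluation of an element of the group ring against a function. -/
noncomputable def ev (w : Γ → U) : MonoidAlgebra k Γ →ₗ[k] U :=
  Finsupp.linearCombination k w ∘ₗ (MonoidAlgebra.coeffLinearEquiv k).toLinearMap

@[simp] lemma ev_single (w : Γ → U) (γ : Γ) (c : k) :
    ev w (MonoidAlgebra.single γ c) = c • w γ := by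
  simp [ev]

lemma ev_congr {w w' : Γ → U} {r : MonoidAlgebra k Γ} (h : ∀ γ ∈ r.coeff.support, w γ = w' γ) :
    ev w r = ev w' r := by
  simp only [ev, LinearMap.comp_apply, Finsupp.linearCombination_apply]
  exact Finsupp.sum_congr fun γ hγ => by rw [h γ hγ]

/-- Functionals on functions of two group elements. -/
abbrev Fn (k Γ U : Type) : Type := (Γ → Γ → k) → U

/-- The functional vanishes on coboundaries. -/
def Cyc (z : Fn k Γ U) : Prop := ∀ f : Γ → k, z (fun a b => f a - f b) = 0

/-- The functional depends on finitely many values. -/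
def Loc (z : Fn k Γ U) : Prop :=
  ∃ V : Finset Γ, ∀ φ φ' : Γ → Γ → k, (∀ a ∈ V, ∀ b ∈ V, φ a b = φ' a b) → z φ = z φ'

/-- Translation of a functional. -/
def tr (act : Γ →* Module.End k U) (γ : Γ) (z : Fn k Γ U) : Fn k Γ U :=
  fun φ => act γ (z fun a b => φ (γ * a) (γ * b))

/-- The admissible chains. -/
def Adm (act : Γ →* Module.End k U) (Λ : Submodule k U) (S : Finset Γ) :
    Submodule k (Fn k Γ U) :=
  Submodule.span k {z | ∃ a b u, a⁻¹ * b ∈ S ∧ act a⁻¹ u ∈ Λ ∧ act b⁻¹ u ∈ Λ ∧
    z = fun φ => φ a b • u}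

lemma act_inv (act : Γ →* Module.End k U) (γ : Γ) (u : U) : act γ (act γ⁻¹ u) = u := by
  rw [← Module.End.mul_apply, ← map_mul, mul_inv_cancel, map_one, Module.End.one_apply]

lemma act_mul (act : Γ →* Module.End k U) (γ δ : Γ) (u : U) :
    act (γ * δ) u = act γ (act δ u) := by
  rw [map_mul, Module.End.mul_apply]

theorem cycles_fg [IsDomain k] [IsPrincipalIdealRing k] [Module.IsTorsionFree k U]
    (hR : Coh (MonoidAlgebra k Γ) (MonoidAlgebra k Γ)) (act : Γ →* Module.End k U)
    (Λ : Submodule k U) (hΛ : Λ.FG) (S : Finset Γ) :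
    ∃ Z : Set (Fn k Γ U), Z.Finite ∧ (∀ z ∈ Z, Cyc z ∧ Loc z) ∧
      ∀ z ∈ Adm act Λ S, Cyc z → z ∈ Submodule.span k {y | ∃ γ, ∃ z ∈ Z, y = tr act γ z} := by
  classical
  have : Module.Finite k Λ := Module.Finite.iff_fg.2 hΛ
  set r := Module.finrank k Λ
  let bb := Module.finBasis k Λ
  let b : Fin r → U := fun j => bb j
  have hb : LinearIndependent k b := bb.linearIndependent.map' Λ.subtype Λ.ker_subtype
  have hco : ∀ u : U, ∃ c : Fin r → k, u ∈ Λ → ∑ j, c j • b j = u := by
    intro u
    by_cases hu : u ∈ Λ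
    · refine ⟨bb.repr ⟨u, hu⟩, fun _ => ?_⟩
      have := congrArg Λ.subtype (bb.sum_repr ⟨u, hu⟩)
      rw [map_sum] at this
      exact this
    · exact ⟨0, fun h => absurd h hu⟩
  choose co hco using hco
  have hgen : ∀ s : Γ, ∃ t : Finset U, Submodule.span k (t : Set U) = Λ ⊓ Λ.comap (act s⁻¹) :=
    fun s => hΛ.of_le inf_le_left
  choose gen hgen using hgen
  set T : Finset (Γ × U) := S.biUnion fun s => (gen s).image fun u => (s, u) with hT
  have hT1 : ∀ τ : T, τ.1.2 ∈ Λ ∧ act τ.1.1⁻¹ τ.1.2 ∈ Λ := by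
    rintro ⟨τ, hτ⟩
    obtain ⟨s, -, h⟩ := mem_biUnion.1 hτ
    obtain ⟨u, hu, rfl⟩ := mem_image.1 h
    have : u ∈ Λ ⊓ Λ.comap (act s⁻¹) := hgen s ▸ Submodule.subset_span hu
    exact this
  let Ω : (T → MonoidAlgebra k Γ) →ₗ[k] Fn k Γ U := LinearMap.pi fun φ =>
    ∑ τ : T, ev (fun γ => φ γ (γ * τ.1.1) • act γ τ.1.2) ∘ₗ LinearMap.proj τ
  have hΩ : ∀ x φ, Ω x φ = ∑ τ : T, ev (fun γ => φ γ (γ * τ.1.1) • act γ τ.1.2) (x τ) := by
    intro x φ
    simp [Ω]
  let d : (T → MonoidAlgebra k Γ) →ₗ[MonoidAlgebra k Γ] (Fin r → MonoidAlgebra k Γ) :=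
    Fintype.linearCombination _ fun τ j => MonoidAlgebra.single 1 (co τ.1.2 j) -
      MonoidAlgebra.single τ.1.1 (co (act τ.1.1⁻¹ τ.1.2) j)
  have hd : ∀ x j, d x j = ∑ τ : T, x τ * (MonoidAlgebra.single 1 (co τ.1.2 j) -
      MonoidAlgebra.single τ.1.1 (co (act τ.1.1⁻¹ τ.1.2) j)) := by
    intro x j
    simp [d, Fintype.linearCombination_apply]
  have key : ∀ (f : Γ → k) (x : T → MonoidAlgebra k Γ),
      ∑ j, ev (fun γ => f γ • act γ (b j)) (d x j) = Ω x fun a b => f a - f b := by
    intro f x
    simp only [hd, hΩ, map_sum]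
    rw [sum_comm]
    refine sum_congr rfl fun τ _ => ?_
    induction x τ using MonoidAlgebra.induction_linear with
    | zero => simp
    | add p q hp hq => simp only [add_mul, map_add, sum_add_distrib, hp, hq]
    | single γ c =>
      have e1 : ∀ (δ : Γ) (u : U), u ∈ Λ →
          ∑ j, (c * co u j) • f δ • act δ (b j) = c • f δ • act δ u := by
        intro δ u hu
        conv_rhs => rw [← hco u hu]
        simp only [map_sum, map_smul, smul_sum, smul_smul]
        exact sum_congr rfl fun j _ => by ring_nf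
      simp only [mul_sub, MonoidAlgebra.single_mul_single, map_sub, ev_single, mul_one,
        sum_sub_distrib]
      rw [e1 _ _ (hT1 τ).1, e1 _ _ (hT1 τ).2, act_mul, act_inv, sub_smul, smul_sub]
  have hcyc : ∀ x, d x = 0 ↔ Cyc (Ω x) := by
    intro x
    refine ⟨fun h f => by simp [← key, h], fun h => ?_⟩
    funext j
    ext γ
    have h1 := (key (Pi.single γ 1) x).trans (h _)
    have h2 : ∀ (p : MonoidAlgebra k Γ) (u : U),
        ev (fun δ => (Pi.single γ 1 : Γ → k) δ • act δ u) p = act γ (p.coeff γ • u) := by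
      intro p u
      induction p using MonoidAlgebra.induction_linear with
      | zero => simp
      | add p q hp hq => simp [hp, hq, add_smul]
      | single δ c =>
        by_cases e : δ = γ
        · subst e
          simp
        · simp [e]
    simp only [h2, ← map_sum] at h1
    have h3 := congrArg (act γ⁻¹) h1
    rw [← act_mul, inv_mul_cancel, map_one, map_zero, Module.End.one_apply] at h3
    simpa using Fintype.linearIndependent_iff.1 hb _ h3 j
  have htr : ∀ (γ : Γ) (c : k) (x : T → MonoidAlgebra k Γ),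
      Ω (MonoidAlgebra.single γ c • x) = c • tr act γ (Ω x) := by
    intro γ c x
    funext φ
    simp only [tr, hΩ, Pi.smul_apply, map_sum, smul_sum, smul_eq_mul]
    refine sum_congr rfl fun τ _ => ?_
    induction x τ using MonoidAlgebra.induction_linear with
    | zero => simp
    | add p q hp hq => simp only [mul_add, map_add, smul_add, hp, hq]
    | single δ e =>
      simp only [MonoidAlgebra.single_mul_single, ev_single, map_smul, act_mul, mul_assoc,
        mul_smul]
  have hrange : Adm act Λ S ≤ LinearMap.range Ω := by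
    refine Submodule.span_le.2 ?_
    rintro _ ⟨a, a', u, h1, h2, h3, rfl⟩
    have h4 : act a⁻¹ u ∈ Submodule.span k (gen (a⁻¹ * a') : Set U) := by
      rw [hgen]
      refine ⟨h2, ?_⟩
      show act (a⁻¹ * a')⁻¹ (act a⁻¹ u) ∈ Λ
      rw [← act_mul]
      simpa using h3
    have h5 : ∀ v ∈ Submodule.span k (gen (a⁻¹ * a') : Set U),
        (fun φ : Γ → Γ → k => φ a a' • act a v) ∈ LinearMap.range Ω := by
      intro v hv
      induction hv using Submodule.span_induction with
      | mem v hv =>
        have hτ : (a⁻¹ * a', v) ∈ T := mem_biUnion.2 ⟨_, h1, mem_image.2 ⟨v, hv, rfl⟩⟩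
        refine ⟨Pi.single ⟨_, hτ⟩ (MonoidAlgebra.single a 1), funext fun φ => ?_⟩
        rw [hΩ, sum_eq_single ⟨_, hτ⟩ (fun τ _ h => by simp [h]) (by simp)]
        simp
      | zero => exact ⟨0, funext fun φ => by simp⟩
      | add v w _ _ hv hw =>
        convert add_mem hv hw using 1
        funext φ
        simp
      | smul c v _ hv =>
        convert Submodule.smul_mem _ c hv using 1
        funext φ
        simp [smul_comm c]
    have h6 := h5 _ h4
    rwa [act_inv] at h6
  obtain ⟨X, hX⟩ := ker_fg hR d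
  refine ⟨Ω '' X, X.finite_toSet.image _, ?_, fun z hz hc => ?_⟩
  · rintro _ ⟨x, hx, rfl⟩
    refine ⟨(hcyc x).1 (LinearMap.mem_ker.1 (hX ▸ Submodule.subset_span hx)),
      univ.biUnion fun τ : T => (x τ).coeff.support ∪
        (x τ).coeff.support.image (· * τ.1.1), fun φ φ' h => ?_⟩
    rw [hΩ, hΩ]
    refine sum_congr rfl fun τ _ => ev_congr fun γ hγ => ?_
    rw [h γ (mem_biUnion.2 ⟨τ, mem_univ _, mem_union_left _ hγ⟩) _
      (mem_biUnion.2 ⟨τ, mem_univ _, mem_union_right _ (mem_image_of_mem _ hγ)⟩)]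
  · obtain ⟨x, rfl⟩ := hrange hz
    have hx : x ∈ Submodule.span (MonoidAlgebra k Γ) (X : Set (T → MonoidAlgebra k Γ)) :=
      hX ▸ LinearMap.mem_ker.2 ((hcyc x).2 hc)
    have h7 : ∀ p : MonoidAlgebra k Γ, Ω (p • x) ∈
        Submodule.span k {y | ∃ γ, ∃ z ∈ Ω '' X, y = tr act γ z} := by
      clear hz hc
      induction hx using Submodule.span_induction with
      | mem x hx =>
        intro p
        induction p using MonoidAlgebra.induction_linear with
        | zero => simp
        | add p q hp hq => simpa only [add_smul, map_add] using add_mem hp hq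
        | single γ c =>
          rw [htr]
          exact Submodule.smul_mem _ _ (Submodule.subset_span ⟨γ, _, ⟨x, hx, rfl⟩, rfl⟩)
      | zero => simp
      | add x y _ _ hx hy =>
        exact fun p => by simpa only [smul_add, map_add] using add_mem (hx p) (hy p)
      | smul q x _ hx => exact fun p => by simpa only [mul_smul] using hx (p * q)
    simpa using h7 1

end Pool.Agent.Lib.MP_5a5e3d_al.Ring
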