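import Pool.Agent.Lib.MP_5a5e3d_al.RingA

/-! Bounded matrices over an ultrametric field, the side function, and the strip lemma. -/

set_option autoImplicit false
set_option linter.unusedSectionVars false

namespace Pool.Agent.Lib.MP_5a5e3d_al.Ring

open Finset Matrix
open scoped MatrixGroups

section Mat

variable {F : Type} [NormedField F] [IsUltrametricDist F]

/-- All entries have norm at most `D`. -/
def Bd (D : ℝ) (u : Matrix (Fin 2) (Fin 2) F) : Prop := ∀ i j, ‖u i j‖ ≤ D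

lemma Bd.nonneg {D : ℝ} {u : Matrix (Fin 2) (Fin 2) F} (h : Bd D u) : 0 ≤ D :=
  (norm_nonneg _).trans (h 0 0)

lemma Bd.mono {D D' : ℝ} {u : Matrix (Fin 2) (Fin 2) F} (h : Bd D u) (h' : D ≤ D') : Bd D' u :=
  fun i j => (h i j).trans h'

lemma nadd {x y : F} {D : ℝ} (hx : ‖x‖ ≤ D) (hy : ‖y‖ ≤ D) : ‖x + y‖ ≤ D :=
  (IsUltrametricDist.norm_add_le_max x y).trans (max_le hx hy)

lemma nmul {x y : F} {A B : ℝ} (hx : ‖x‖ ≤ A) (hy : ‖y‖ ≤ B) : ‖x * y‖ ≤ A * B := by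
  rw [norm_mul]
  exact mul_le_mul hx hy (norm_nonneg _) ((norm_nonneg _).trans hx)

lemma Bd.mul {A B : ℝ} {u v : Matrix (Fin 2) (Fin 2) F} (hu : Bd A u) (hv : Bd B v) :
    Bd (A * B) (u * v) := by
  intro i j
  rw [mul_apply, Fin.sum_univ_two]
  exact nadd (nmul (hu _ _) (hv _ _)) (nmul (hu _ _) (hv _ _))

lemma Bd.tr {A : ℝ} {u : Matrix (Fin 2) (Fin 2) F} (hu : Bd A u) : Bd A uᵀ := fun i j => hu j i

/-- The underlying matrix. -/
def mat (g : SL(2, F)) : Matrix (Fin 2) (Fin 2) F := g.1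

@[simp] lemma mat_mul (g h : SL(2, F)) : mat (g * h) = mat g * mat h := rfl

@[simp] lemma mat_one : mat (1 : SL(2, F)) = 1 := rfl

lemma mat_inv (g : SL(2, F)) :
    mat g⁻¹ = !![mat g 1 1, -mat g 0 1; -mat g 1 0, mat g 0 0] := adjugate_fin_two g.1

lemma mat_det (g : SL(2, F)) : mat g 0 0 * mat g 1 1 - mat g 0 1 * mat g 1 0 = 1 :=
  (det_fin_two g.1).symm.trans g.2

lemma Bd.inv {A : ℝ} {g : SL(2, F)} (h : Bd A (mat g)) :
    Bd A (mat g⁻¹) := by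
  intro i j
  rw [mat_inv]
  fin_cases i <;> fin_cases j <;> simp [h _ _]

lemma Bd.gmul {A B : ℝ} {g h : SL(2, F)} (hg : Bd A (mat g))
    (hh : Bd B (mat h)) :
    Bd (A * B) (mat (g * h)) := hg.mul hh

/-- The norm of a row. -/
noncomputable def rn (u : Matrix (Fin 2) (Fin 2) F) (i : Fin 2) : ℝ := max ‖u i 0‖ ‖u i 1‖

lemma le_rn (u : Matrix (Fin 2) (Fin 2) F) (i j : Fin 2) : ‖u i j‖ ≤ rn u i := by
  fin_cases j
  · exact le_max_left _ _
  · exact le_max_right _ _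

lemma rn_mul {D : ℝ} (u : Matrix (Fin 2) (Fin 2) F) {v : Matrix (Fin 2) (Fin 2) F} (hv : Bd D v)
    (i : Fin 2) : rn (u * v) i ≤ rn u i * D := by
  have : ∀ j, ‖(u * v) i j‖ ≤ rn u i * D := fun j => by
    rw [mul_apply, Fin.sum_univ_two]
    exact nadd (nmul (le_rn _ _ _) (hv _ _)) (nmul (le_rn _ _ _) (hv _ _))
  exact max_le (this 0) (this 1)

/-- The side of the wall. -/
def sd (g : SL(2, F)) : Prop := rn (mat g) 1 ≤ rn (mat g) 0

lemma side_aux {D : ℝ} {g h : SL(2, F)} (hh : Bd D (mat h)) (h1 : sd g)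
    (h2 : ¬ sd (g * h)) : Bd D (mat g) := by
  unfold sd at h1 h2
  rw [not_le] at h2
  set m := rn (mat g) 0 with hm
  set p := mat (g * h) with hp
  have hdet : mat g 0 0 * mat g 1 1 - mat g 0 1 * mat g 1 0 = 1 := mat_det g
  have hpe : ∀ i j, p i j = mat g i 0 * mat h 0 j + mat g i 1 * mat h 1 j := fun i j => by
    rw [hp, mat_mul, mul_apply, Fin.sum_univ_two]
  have h3 : m ≤ rn p 0 * D := by
    have := rn_mul p hh.inv 0
    rwa [hp, ← mat_mul, mul_inv_cancel_right] at this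
  have h4 : ∀ c j, ‖mat g 0 c‖ * ‖p 1 j‖ ≤ max (m * rn p 0) D := by
    intro c j
    have h5 : ‖mat g 1 c * p 0 j‖ ≤ max (m * rn p 0) D :=
      (nmul ((le_rn _ _ _).trans h1) (le_rn _ _ _)).trans (le_max_left _ _)
    rw [← norm_mul]
    fin_cases c
    · have e : mat g 0 0 * p 1 j = mat g 1 0 * p 0 j + mat h 1 j := by
        rw [hpe, hpe]
        linear_combination mat h 1 j * hdet
      exact e ▸ nadd h5 ((hh _ _).trans (le_max_right _ _))
    · have e : mat g 0 1 * p 1 j = mat g 1 1 * p 0 j + -mat h 0 j := by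
        rw [hpe, hpe]
        linear_combination -mat h 0 j * hdet
      exact e ▸ nadd h5 (by rw [norm_neg]; exact (hh _ _).trans (le_max_right _ _))
  have hp0 : 0 ≤ rn p 0 := (norm_nonneg _).trans (le_max_left _ _)
  have hm0 : 0 ≤ m := (norm_nonneg _).trans (le_max_left _ _)
  have h6 : m * rn p 1 ≤ max (m * rn p 0) D := by
    rcases max_choice ‖mat g 0 0‖ ‖mat g 0 1‖ with e | e <;>
    rcases max_choice ‖p 1 0‖ ‖p 1 1‖ with e' | e' <;>
    · rw [show m * rn p 1 = _ * _ from congrArg₂ (· * ·) e e']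
      exact h4 _ _
  have h7 : m ≤ D := by
    rcases hm0.eq_or_lt with e | e
    · exact e ▸ hh.nonneg
    · have h8 : m * rn p 1 ≤ D :=
        (le_max_iff.1 h6).resolve_left (not_le.2 (mul_lt_mul_of_pos_left h2 e))
      have hD := hh.nonneg
      refine le_of_not_gt fun h9 => ?_
      nlinarith [mul_le_mul_of_nonneg_left h3 hm0, mul_le_mul_of_nonneg_right h8 hD,
        mul_le_mul_of_nonneg_right (mul_le_mul_of_nonneg_left h2.le hm0) hD]
  intro i j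
  fin_cases i
  · exact (le_rn _ _ _).trans h7
  · exact (le_rn _ _ _).trans (h1.trans h7)

lemma side {D : ℝ} (hD : 1 ≤ D) {g g' : SL(2, F)}
    (hh : Bd D (mat (g⁻¹ * g'))) (h : ¬ (sd g ↔ sd g')) :
    Bd (D * D) (mat g) := by
  by_cases h1 : sd g
  · exact (side_aux hh h1 (by simpa [h1] using h)).mono (le_mul_of_one_le_left (by linarith) hD)
  · have h2 : sd g' := by simpa [h1] using h
    have h3 := (side_aux hh.inv h2 (by simpa using h1)).gmul hh.inv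
    simpa using h3

open scoped Classical in
/-- The indicator of the side. -/
noncomputable def chi (k : Type) [CommRing k] (g : SL(2, F)) : k := if sd g then 1 else 0

lemma chi_ne {k : Type} [CommRing k] {D : ℝ} (hD : 1 ≤ D) {g g' : SL(2, F)}
    (hh : Bd D (mat (g⁻¹ * g'))) (h : chi k g ≠ chi k g') :
    Bd (D * D) (mat g) :=
  side hD hh fun e => h (by by_cases h' : sd g' <;> simp [chi, e, h'])

/-- The three rays. -/
def ray (α : Fin 3) (x : F) (hx : x ≠ 0) : SL(2, F) :=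
  ⟨![!![x⁻¹, 0; 0, x], !![0, -x; x⁻¹, 0], !![-x⁻¹, 0; -x⁻¹, -x]] α, by
    fin_cases α <;> simp [det_fin_two, hx]⟩

lemma mat_ray (α : Fin 3) (x : F) (hx : x ≠ 0) : mat (ray α x hx) =
    ![!![x⁻¹, 0; 0, x], !![0, -x; x⁻¹, 0], !![-x⁻¹, 0; -x⁻¹, -x]] α := rfl

/-- The three directions. -/
def dir (F : Type) [NormedField F] : Fin 3 → Fin 2 → F := ![![1, 0], ![0, 1], ![-1, -1]]

lemma sum_dir : ∑ α, dir F α = 0 := by
  funext i
  fin_cases i <;> simp [dir, Fin.sum_univ_three]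

/-- The points on the rays. -/
noncomputable def pt {ϖ : F} (h : ϖ ≠ 0) (α : Fin 3) (i : ℕ) : SL(2, F) :=
  if i = 0 then 1 else ray α (ϖ ^ i) (pow_ne_zero _ h)

lemma pt_zero {ϖ : F} (h : ϖ ≠ 0) (α : Fin 3) : pt h α 0 = 1 := if_pos rfl

lemma pt_mem {ϖ : F} (h : ϖ ≠ 0) (F₀ : Subfield F) (h0 : ϖ ∈ F₀) (α : Fin 3) (i : ℕ)
    (a b : Fin 2) : mat (pt h α i) a b ∈ F₀ := by
  have h1 := pow_mem h0 i
  have h2 := inv_mem h1
  unfold pt
  split_ifs
  · fin_cases a <;> fin_cases b <;> simp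
  · fin_cases α <;> fin_cases a <;> fin_cases b <;> simp [mat_ray, h1]

lemma pt_step {ϖ : F} (h : ϖ ≠ 0) (h1 : ‖ϖ‖ < 1) (α : Fin 3) (i : ℕ) :
    Bd ‖ϖ‖⁻¹ (mat ((pt h α i)⁻¹ * pt h α (i + 1))) := by
  have h2 : ‖ϖ‖ ≤ ‖ϖ‖⁻¹ := h1.le.trans ((one_le_inv₀ (norm_pos_iff.2 h)).2 h1.le)
  by_cases hi : i = 0
  · subst hi
    intro a b
    fin_cases α <;> fin_cases a <;> fin_cases b <;> simp [pt, mat_ray, h2]
  · have e : (mat ((pt h α i)⁻¹ * pt h α (i + 1))) =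
        !![ϖ⁻¹, 0; 0, ϖ] := by
      have := pow_ne_zero i h
      rw [mat_mul, mat_inv]
      ext a b
      fin_cases α <;> fin_cases a <;> fin_cases b <;>
        simp [pt, mat_ray, hi, mul_apply, Fin.sum_univ_two, pow_succ] <;> field_simp
    rw [e]
    intro a b
    fin_cases a <;> fin_cases b <;> simp [h2]

lemma pt_near {ϖ : F} (h : ϖ ≠ 0) (h1 : ‖ϖ‖ < 1) (α : Fin 3) {i i' : ℕ} (h2 : i ≤ i' + 1)
    (h3 : i' ≤ i + 1) :
    Bd ‖ϖ‖⁻¹ (mat ((pt h α i)⁻¹ * pt h α i')) := by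
  rcases (by omega : i' = i + 1 ∨ i' = i ∨ i = i' + 1) with rfl | rfl | rfl
  · exact pt_step h h1 α i
  · have h2 : 1 ≤ ‖ϖ‖⁻¹ := (one_le_inv₀ (norm_pos_iff.2 h)).2 h1.le
    intro a b
    fin_cases a <;> fin_cases b <;> simp [h2]
  · simpa using (pt_step h h1 α i').inv

lemma pt_dir {ϖ : F} (h : ϖ ≠ 0) (α : Fin 3) (i : ℕ) (a : Fin 2) :
    ‖((mat (pt h α i)⁻¹) *ᵥ dir F α) a‖ ≤ ‖ϖ‖ ^ i := by
  by_cases hi : i = 0
  · subst hi
    fin_cases α <;> fin_cases a <;> simp [pt, dir]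
  · rw [mat_inv]
    fin_cases α <;> fin_cases a <;> simp [pt, mat_ray, dir, hi, mulVec, dotProduct, Fin.sum_univ_two]

lemma pt_sd {ϖ : F} (h : ϖ ≠ 0) (h1 : ‖ϖ‖ < 1) (α : Fin 3) {n : ℕ} (hn : n ≠ 0) :
    sd (pt h α n) ↔ α ≠ 1 := by
  have h2 : ‖ϖ‖ ^ n < 1 := pow_lt_one₀ (norm_nonneg _) h1 hn
  have h3 : 0 < ‖ϖ‖ ^ n := pow_pos (norm_pos_iff.2 h) n
  have h4 : ‖ϖ‖ ^ n < (‖ϖ‖ ^ n)⁻¹ := h2.trans ((one_lt_inv₀ h3).2 h2)
  fin_cases α <;> simp [sd, rn, pt, mat_ray, hn, h3.le, h4.le, h4]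

lemma pt_big {ϖ : F} (h : ϖ ≠ 0) (α : Fin 3) {n : ℕ} (hn : n ≠ 0) {C : ℝ}
    (hb : Bd C (mat (pt h α n))) : (‖ϖ‖ ^ n)⁻¹ ≤ C := by
  fin_cases α
  · simpa [pt, mat_ray, hn] using hb 0 0
  · simpa [pt, mat_ray, hn] using hb 1 0
  · simpa [pt, mat_ray, hn] using hb 0 0

end Mat

variable {k Γ U : Type} [CommRing k] [Group Γ] [AddCommGroup U] [Module k U]

lemma strip (act : Γ →* Module.End k U) (M B : Submodule k U) (hM : ∀ γ, ∀ u ∈ M, act γ u ∈ M)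
    (S : Finset Γ) {n : ℕ} (hn : n ≠ 0) (x y : Fin 3 → ℕ → Γ) (w : Fin 3 → U)
    (d : Fin 3 → ℕ → U) (hx : ∀ β, x β 0 = x 0 0) (hy : ∀ β, y β 0 = y 0 0) (hw : ∑ β, w β = 0)
    (hm : ∀ β j, w β + d β j ∈ M) (hS : ∀ β j, (x β j)⁻¹ * y β j ∈ S)
    (hd : ∀ β j j', j ≤ j' + 1 → j' ≤ j + 1 →
      act (x β j')⁻¹ (d β j) ∈ B ∧ act (y β j')⁻¹ (d β j) ∈ B)
    (hn' : ∀ β, act (x β n)⁻¹ (w β) ∈ B ∧ act (y β n)⁻¹ (w β) ∈ B) :
    (fun φ : Γ → Γ → k => ∑ β, ∑ j ∈ range n,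
      (φ (x β j) (y β j) - φ (x β (j + 1)) (y β (j + 1))) • (w β + d β j)) ∈
        Adm act (M ⊓ B) S := by
  set c : Fin 3 → ℕ → U := fun β j => if j < n then w β + d β j else 0 with hc
  have edge : ∀ a b u, a⁻¹ * b ∈ S → u ∈ M → act a⁻¹ u ∈ B → act b⁻¹ u ∈ B →
      (fun φ : Γ → Γ → k => φ a b • u) ∈ Adm act (M ⊓ B) S := fun a b u h1 h2 h3 h4 =>
    Submodule.subset_span ⟨a, b, u, h1, ⟨hM _ _ h2, h3⟩, ⟨hM _ _ h2, h4⟩, rfl⟩
  have hcM : ∀ β j, c β j ∈ M := fun β j => by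
    simp only [hc]
    split_ifs
    · exact hm β j
    · exact zero_mem _
  have e0 : ∑ β, c β 0 = ∑ β, d β 0 := by
    simp only [hc, if_pos (Nat.pos_of_ne_zero hn), sum_add_distrib, hw, zero_add]
  have h0 := edge (x 0 0) (y 0 0) (∑ β, c β 0) (hS 0 0) (sum_mem fun β _ => hcM β 0)
    (by rw [e0, map_sum]; exact sum_mem fun β _ => hx β ▸ (hd β 0 0 (by omega) (by omega)).1)
    (by rw [e0, map_sum]; exact sum_mem fun β _ => hy β ▸ (hd β 0 0 (by omega) (by omega)).2)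
  have h1 : ∀ β, ∀ j ∈ range n, (fun φ : Γ → Γ → k =>
      φ (x β (j + 1)) (y β (j + 1)) • (c β (j + 1) - c β j)) ∈ Adm act (M ⊓ B) S := by
    intro β j hj
    have hj' := mem_range.1 hj
    have a1 := hd β j (j + 1) (by omega) (by omega)
    have a2 := hd β (j + 1) (j + 1) (by omega) (by omega)
    by_cases h : j + 1 < n
    · have e : c β (j + 1) - c β j = d β (j + 1) - d β j := by simp [hc, h, hj']
      refine edge _ _ _ (hS _ _) (sub_mem (hcM _ _) (hcM _ _)) ?_ ?_ <;> rw [e, map_sub]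
      · exact sub_mem a2.1 a1.1
      · exact sub_mem a2.2 a1.2
    · have e : c β (j + 1) - c β j = -(w β + d β j) := by simp [hc, h, hj']
      have e' : n = j + 1 := by omega
      refine edge _ _ _ (hS _ _) (sub_mem (hcM _ _) (hcM _ _)) ?_ ?_ <;> rw [e, map_neg, map_add]
      · exact neg_mem (add_mem (e' ▸ (hn' β).1) a1.1)
      · exact neg_mem (add_mem (e' ▸ (hn' β).2) a1.2)
  convert add_mem h0 (sum_mem fun β (_ : β ∈ univ) => sum_mem (h1 β)) using 1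
  funext φ
  simp only [Pi.add_apply, Finset.sum_apply, smul_sum, ← sum_add_distrib]
  refine sum_congr rfl fun β _ => ?_
  have e1 := sum_range_sub' (fun j => φ (x β j) (y β j) • c β j) n
  have e2 : c β n = 0 := by simp [hc]
  rw [e2, smul_zero, sub_zero, hx, hy] at e1
  rw [← e1, ← sum_add_distrib]
  refine sum_congr rfl fun j hj => ?_
  have e3 : w β + d β j = c β j := by simp [hc, mem_range.1 hj]
  rw [e3, sub_smul, smul_sub]
  abel

end Pool.Agent.Lib.MP_5a5e3d_al.Ring
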