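import Pool.Agent.Lib.MP_5a5e3d_al.RingB

/-! Group rings of lattices in a product of two copies of `SL₂` are not coherent. -/

set_option autoImplicit false
set_option linter.unusedSectionVars false

namespace Pool.Agent.Lib.MP_5a5e3d_al.Ring

open Finset Matrix
open scoped MatrixGroups

variable {k F E Γ : Type} [CommRing k] [NormedField F] [IsUltrametricDist F] [Algebra k F]
  [SeminormedAddCommGroup E] [IsUltrametricDist E] [Module k E] [Group Γ]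

/-- The action on pairs. -/
noncomputable def actOf (ρ₁ ρ₂ : Γ →* SL(2, F)) (σ : Γ →* Module.End k E) :
    Γ →* Module.End k (Matrix (Fin 2) (Fin 2) F × E) where
  toFun γ := LinearMap.prodMap
    (LinearMap.mulRight k (mat (ρ₂ γ))ᵀ ∘ₗ LinearMap.mulLeft k (mat (ρ₁ γ))) (σ γ)
  map_one' := LinearMap.ext fun x => by simp
  map_mul' a b := LinearMap.ext fun x => by simp [Matrix.mul_assoc]

lemma actOf_apply (ρ₁ ρ₂ : Γ →* SL(2, F)) (σ : Γ →* Module.End k E) (γ : Γ)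
    (x : Matrix (Fin 2) (Fin 2) F × E) :
    actOf ρ₁ ρ₂ σ γ x = (mat (ρ₁ γ) * x.1 * (mat (ρ₂ γ))ᵀ, σ γ x.2) := rfl

/-- The ball of matrices. -/
def ballW (hkF : ∀ c : k, ‖algebraMap k F c‖ ≤ 1) (C : ℝ) (hC : 0 ≤ C) :
    Submodule k (Matrix (Fin 2) (Fin 2) F) where
  carrier := {x | Bd C x}
  zero_mem' := fun i j => by simpa using hC
  add_mem' hx hy := fun i j => nadd (hx i j) (hy i j)
  smul_mem' c x hx := fun i j => by
    rw [Matrix.smul_apply, Algebra.smul_def]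
    simpa using nmul (hkF c) (hx i j)

/-- The ball of pairs. -/
def ball (hkF : ∀ c : k, ‖algebraMap k F c‖ ≤ 1) (hkE : ∀ (c : k) (e : E), ‖c • e‖ ≤ ‖e‖) (C : ℝ)
    (hC : 0 ≤ C) : Submodule k (Matrix (Fin 2) (Fin 2) F × E) where
  carrier := {x | Bd C x.1 ∧ ‖x.2‖ ≤ C}
  zero_mem' := ⟨(ballW hkF C hC).zero_mem, by simpa using hC⟩
  add_mem' hx hy := ⟨(ballW hkF C hC).add_mem hx.1 hy.1,
    (IsUltrametricDist.norm_add_le_max _ _).trans (max_le hx.2 hy.2)⟩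
  smul_mem' c x hx := ⟨(ballW hkF C hC).smul_mem c hx.1, (hkE c _).trans hx.2⟩

/-- The winding cochain. -/
noncomputable def wind (k : Type) [CommRing k] (ρ₁ ρ₂ : Γ →* SL(2, F)) (a b : Γ) : k :=
  chi k (ρ₂ a) * (chi k (ρ₁ a) - chi k (ρ₁ b))

lemma exists_bd (s : Set (Matrix (Fin 2) (Fin 2) F)) (hs : s.Finite) :
    ∃ D, 1 ≤ D ∧ ∀ u ∈ s, Bd D u := by
  obtain ⟨D, hD⟩ := ((hs.prod (Set.toFinite (Set.univ : Set (Fin 2 × Fin 2)))).image
    fun p => ‖p.1 p.2.1 p.2.2‖).bddAbove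
  exact ⟨max 1 D, le_max_left _ _, fun u hu i j =>
    (hD ⟨(u, i, j), ⟨hu, trivial⟩, rfl⟩).trans (le_max_right _ _)⟩

lemma bd_of_ne (ρ : Γ →* SL(2, F)) (V : Finset Γ) : ∃ D, ∀ γ, ∀ a ∈ V, ∀ b ∈ V,
    chi k (ρ (γ * a)) ≠ chi k (ρ (γ * b)) → Bd D (mat (ρ γ)) := by
  obtain ⟨D, h1, hD⟩ := exists_bd _ (V.finite_toSet.image fun a => mat (ρ a))
  have hD' : ∀ a ∈ V, Bd D (mat (ρ a)) := fun a ha => hD _ ⟨a, ha, rfl⟩
  refine ⟨D * D * (D * D) * D, fun γ a ha b hb h => ?_⟩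
  have h2 : Bd (D * D) (mat ((ρ (γ * a))⁻¹ * ρ (γ * b))) := by
    have := (hD' a ha).inv.gmul (hD' b hb)
    rwa [show (ρ a)⁻¹ * ρ b = (ρ (γ * a))⁻¹ * ρ (γ * b) by simp [mul_assoc]] at this
  have h3 := (chi_ne (one_le_mul_of_one_le_of_one_le h1 h1) h2 h).gmul (hD' a ha).inv
  rwa [show ρ (γ * a) * (ρ a)⁻¹ = ρ γ by simp] at h3

lemma tr_finite {U : Type} [AddCommGroup U] [Module k U] (ρ₁ ρ₂ : Γ →* SL(2, F))
    (proper : ∀ D, {γ | Bd D (mat (ρ₁ γ)) ∧ Bd D (mat (ρ₂ γ))}.Finite)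
    (act : Γ →* Module.End k U) {z : Fn k Γ U} (h1 : Cyc z) (h2 : Loc z) :
    {γ | tr act γ z (wind k ρ₁ ρ₂) ≠ 0}.Finite := by
  obtain ⟨V, hV⟩ := h2
  obtain ⟨D₁, hD₁⟩ := bd_of_ne (k := k) ρ₁ V
  obtain ⟨D₂, hD₂⟩ := bd_of_ne (k := k) ρ₂ V
  refine (proper (max D₁ D₂)).subset fun γ hγ => ⟨?_, ?_⟩
  · by_contra hc
    refine hγ ?_
    rw [tr, hV _ (fun a b => (fun _ => (0 : k)) a - (fun _ => (0 : k)) b), h1, map_zero]
    intro a ha b hb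
    have : chi k (ρ₁ (γ * a)) = chi k (ρ₁ (γ * b)) := by
      by_contra h
      exact hc ((hD₁ γ a ha b hb h).mono (le_max_left _ _))
    simp only [wind, this, sub_self, mul_zero]
  · by_contra hc
    refine hγ ?_
    have h3 : ∃ c : k, ∀ a ∈ V, chi k (ρ₂ (γ * a)) = c := by
      rcases V.eq_empty_or_nonempty with rfl | ⟨b, hb⟩
      · simp
      · refine ⟨chi k (ρ₂ (γ * b)), fun a ha => ?_⟩
        by_contra h
        exact hc ((hD₂ γ a ha b hb h).mono (le_max_right _ _))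
    obtain ⟨c, h3⟩ := h3
    rw [tr, hV _ (fun a b => (fun a => c * chi k (ρ₁ (γ * a))) a -
      (fun a => c * chi k (ρ₁ (γ * a))) b), h1, map_zero]
    intro a ha b _
    simp only [wind, h3 a ha, mul_sub]

lemma main_sum {W : Type} [AddCommGroup W] [Module k W] (φ : Γ → Γ → k) (n : ℕ)
    (P : Fin 3 → ℕ → Fin 3 → ℕ → Γ) (w : Fin 3 → Fin 3 → W) (s : Fin 3 → k) (x₁ : Γ → k)
    (h1 : ∀ α i β, P α i β 0 = P α i 0 0) (h2 : ∀ α β j, P α 0 β j = P 0 0 β j)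
    (w1 : ∀ α, ∑ β, w α β = 0) (w2 : ∀ β, ∑ α, w α β = 0)
    (f1 : ∀ α β j, φ (P α n β j) (P α n β (j + 1)) = 0)
    (f2 : ∀ α i β, φ (P α i β n) (P α (i + 1) β n) =
      s β * (x₁ (P α i β n) - x₁ (P α (i + 1) β n)))
    (f3 : ∀ α β, x₁ (P α n β n) = s α) :
    ∑ α, ∑ i ∈ range n, ∑ β, ∑ j ∈ range n, (φ (P α i β j) (P α (i + 1) β j) -
        φ (P α i β (j + 1)) (P α (i + 1) β (j + 1))) • w α β -
      ∑ β, ∑ j ∈ range n, ∑ α, ∑ i ∈ range n, (φ (P α i β j) (P α i β (j + 1)) -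
        φ (P α (i + 1) β j) (P α (i + 1) β (j + 1))) • w α β =
      ∑ α, ∑ β, (s β * s α) • w α β := by
  have e1 : ∀ β j, ∑ α, ∑ i ∈ range n, (φ (P α i β j) (P α i β (j + 1)) -
      φ (P α (i + 1) β j) (P α (i + 1) β (j + 1))) • w α β = 0 := by
    intro β j
    simp only [← sum_smul, sum_range_sub' fun i => φ (P _ i β j) (P _ i β (j + 1)), f1, sub_zero,
      h2 _ β, ← smul_sum, w2, smul_zero]
  have e2 : ∀ α i, ∑ β, ∑ j ∈ range n, (φ (P α i β j) (P α (i + 1) β j) -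
      φ (P α i β (j + 1)) (P α (i + 1) β (j + 1))) • w α β =
      -∑ β, (s β * (x₁ (P α i β n) - x₁ (P α (i + 1) β n))) • w α β := by
    intro α i
    simp only [← sum_smul, sum_range_sub' fun j => φ (P α i _ j) (P α (i + 1) _ j), f2]
    simp only [sub_smul, sum_sub_distrib, h1 α, ← smul_sum, w1, smul_zero, zero_sub]
  have e3 : ∀ α, ∑ i ∈ range n, -∑ β, (s β * (x₁ (P α i β n) - x₁ (P α (i + 1) β n))) • w α β =
      ∑ β, (s β * s α) • w α β - ∑ β, (s β * x₁ (P 0 0 β n)) • w α β := by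
    intro α
    rw [sum_neg_distrib, sum_comm, ← sum_neg_distrib, ← sum_sub_distrib]
    refine sum_congr rfl fun β _ => ?_
    rw [← sum_smul, ← mul_sum, sum_range_sub' fun i => x₁ (P α i β n), f3, h2 α, ← neg_smul,
      ← sub_smul]
    congr 1
    ring
  simp only [e1, e2, e3, sum_const_zero, sub_zero, sum_sub_distrib]
  rw [sum_comm (f := fun α β => (s β * x₁ (P 0 0 β n)) • w α β)]
  simp only [← smul_sum, w2, smul_zero, sum_const_zero, sub_zero]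

lemma reorder {W : Type} [AddCommGroup W] (n : ℕ) (f g : Fin 3 → ℕ → Fin 3 → ℕ → W) :
    ∑ α, ∑ i ∈ range n, ∑ β, ∑ j ∈ range n, f α i β j -
      ∑ β, ∑ j ∈ range n, ∑ α, ∑ i ∈ range n, g α i β j =
      ∑ α, ∑ i ∈ range n, ∑ β, ∑ j ∈ range n, (f α i β j - g α i β j) := by
  have e : ∑ β, ∑ j ∈ range n, ∑ α, ∑ i ∈ range n, g α i β j =
      ∑ α, ∑ i ∈ range n, ∑ β, ∑ j ∈ range n, g α i β j := by
    have e1 : ∀ β, ∑ j ∈ range n, ∑ α, ∑ i ∈ range n, g α i β j =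
        ∑ α, ∑ i ∈ range n, ∑ j ∈ range n, g α i β j := fun β => by
      rw [sum_comm]
      exact sum_congr rfl fun α _ => sum_comm
    simp only [e1]
    rw [sum_comm]
    exact sum_congr rfl fun α _ => sum_comm
  simp only [e, sum_sub_distrib]

lemma cell {D : ℝ} (hD : 1 ≤ D) (ρ₁ ρ₂ : Γ →* SL(2, F)) {a b c e : Γ}
    (hb : Bd D (mat (ρ₁ (a⁻¹ * b))) ∧ Bd D (mat (ρ₂ (a⁻¹ * b))))
    (hc : Bd D (mat (ρ₁ (a⁻¹ * c))) ∧ Bd D (mat (ρ₂ (a⁻¹ * c))))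
    (he : Bd D (mat (ρ₁ (a⁻¹ * e))))
    (h : wind k ρ₁ ρ₂ a b - wind k ρ₁ ρ₂ c e - (wind k ρ₁ ρ₂ a c - wind k ρ₁ ρ₂ b e) ≠ 0) :
    Bd (D * D) (mat (ρ₁ a)) ∧ Bd (D * D) (mat (ρ₂ a)) := by
  simp only [map_mul, map_inv] at hb hc he
  constructor
  · by_contra hn
    have e1 : chi k (ρ₁ a) = chi k (ρ₁ b) := by_contra fun h' => hn (chi_ne hD hb.1 h')
    have e2 : chi k (ρ₁ a) = chi k (ρ₁ c) := by_contra fun h' => hn (chi_ne hD hc.1 h')
    have e3 : chi k (ρ₁ a) = chi k (ρ₁ e) := by_contra fun h' => hn (chi_ne hD he h')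
    exact h (by simp only [wind, ← e1, ← e2, ← e3]; ring)
  · by_contra hn
    have e1 : chi k (ρ₂ a) = chi k (ρ₂ b) := by_contra fun h' => hn (chi_ne hD hb.2 h')
    have e2 : chi k (ρ₂ a) = chi k (ρ₂ c) := by_contra fun h' => hn (chi_ne hD hc.2 h')
    exact h (by simp only [wind, ← e1, ← e2]; ring)

lemma outer {ϖ : F} (h0 : ϖ ≠ 0) (h1 : ‖ϖ‖ < 1) {D : ℝ} {g h : SL(2, F)} {α β : Fin 3} {i j n : ℕ}
    (hg : Bd D (mat (g⁻¹ * pt h0 α i))) (hh : Bd D (mat (h⁻¹ * pt h0 β j))) (hn : i = n ∨ j = n) :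
    Bd (D * 1 * D) (mat g⁻¹ * ((ϖ ^ n)⁻¹ • vecMulVec (dir F α) (dir F β)) * (mat h⁻¹)ᵀ) := by
  have e1 : mat g⁻¹ = mat (g⁻¹ * pt h0 α i) * mat (pt h0 α i)⁻¹ := by
    rw [← mat_mul, mul_inv_cancel_right]
  have e2 : mat h⁻¹ = mat (h⁻¹ * pt h0 β j) * mat (pt h0 β j)⁻¹ := by
    rw [← mat_mul, mul_inv_cancel_right]
  have h2 : Bd 1 (mat (pt h0 α i)⁻¹ * ((ϖ ^ n)⁻¹ • vecMulVec (dir F α) (dir F β)) *
      (mat (pt h0 β j)⁻¹)ᵀ) := by
    intro a b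
    rw [Matrix.mul_smul, Matrix.smul_mul, mul_vecMulVec, vecMulVec_mul, vecMul_transpose,
      Matrix.smul_apply, vecMulVec_apply, smul_eq_mul]
    have h3 : 0 < ‖ϖ‖ ^ n := pow_pos (norm_pos_iff.2 h0) n
    refine (nmul (A := (‖ϖ‖ ^ n)⁻¹) (by simp) (nmul (pt_dir h0 α i a) (pt_dir h0 β j b))).trans ?_
    rw [inv_mul_le_iff₀ h3, mul_one, ← pow_add]
    exact pow_le_pow_of_le_one (norm_nonneg _) h1.le (by omega)
  have h4 := (hg.mul h2).mul hh.tr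
  rw [e1, e2, transpose_mul]
  simpa only [Matrix.mul_assoc] using h4

theorem not_coh [IsDomain k] [IsPrincipalIdealRing k] [Module.IsTorsionFree k F]
    [Module.IsTorsionFree k E] (hkF : ∀ c : k, ‖algebraMap k F c‖ ≤ 1)
    (hkE : ∀ (c : k) (e : E), ‖c • e‖ ≤ ‖e‖) (F₀ : Subfield F) {ϖ : F} (hϖ : ϖ ∈ F₀) (h0 : ϖ ≠ 0)
    (h1 : ‖ϖ‖ < 1) (ρ₁ ρ₂ : Γ →* SL(2, F)) (σ : Γ →* Module.End k E)
    (hσ : ∀ γ, ∃ C, ∀ e, ‖σ γ e‖ ≤ C * ‖e‖)
    (proper : ∀ D, {γ | Bd D (mat (ρ₁ γ)) ∧ Bd D (mat (ρ₂ γ))}.Finite)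
    (cob : ∃ D, ∀ g₁ g₂ : SL(2, F), (∀ i j, mat g₁ i j ∈ F₀) → (∀ i j, mat g₂ i j ∈ F₀) →
      ∃ γ, Bd D (mat ((ρ₁ γ)⁻¹ * g₁)) ∧ Bd D (mat ((ρ₂ γ)⁻¹ * g₂)))
    (M : Submodule k (Matrix (Fin 2) (Fin 2) F × E))
    (hM : ∀ γ, ∀ x ∈ M, actOf ρ₁ ρ₂ σ γ x ∈ M)
    (net : ∃ C, ∀ x : Matrix (Fin 2) (Fin 2) F × E, ∃ m ∈ M, Bd C (x.1 - m.1) ∧ ‖x.2 - m.2‖ ≤ C)
    (fin : ∀ C, ∃ Λ : Submodule k (Matrix (Fin 2) (Fin 2) F × E), Λ.FG ∧
      ∀ m ∈ M, Bd C m.1 → ‖m.2‖ ≤ C → m ∈ Λ) :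
    ¬ Coh (MonoidAlgebra k Γ) (MonoidAlgebra k Γ) := by
  intro hR
  classical
  have : Module.IsTorsionFree k (Matrix (Fin 2) (Fin 2) F) :=
    inferInstanceAs (Module.IsTorsionFree k (Fin 2 → Fin 2 → F))
  set act := actOf ρ₁ ρ₂ σ with hact
  obtain ⟨D₀, hcob⟩ := cob
  set D := max 1 D₀ with hD
  have hD1 : 1 ≤ D := le_max_left _ _
  have hp : ∀ g₁ g₂ : SL(2, F), ∃ γ, (∀ i j, mat g₁ i j ∈ F₀) → (∀ i j, mat g₂ i j ∈ F₀) →
      Bd D (mat ((ρ₁ γ)⁻¹ * g₁)) ∧ Bd D (mat ((ρ₂ γ)⁻¹ * g₂)) := by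
    intro g₁ g₂
    by_cases h : (∀ i j, mat g₁ i j ∈ F₀) ∧ ∀ i j, mat g₂ i j ∈ F₀
    · obtain ⟨γ, h2, h3⟩ := hcob g₁ g₂ h.1 h.2
      exact ⟨γ, fun _ _ => ⟨h2.mono (le_max_right _ _), h3.mono (le_max_right _ _)⟩⟩
    · exact ⟨1, fun a b => absurd ⟨a, b⟩ h⟩
  choose p hp using hp
  set P : Fin 3 → ℕ → Fin 3 → ℕ → Γ := fun α i β j => p (pt h0 α i) (pt h0 β j) with hP
  have hP0 : ∀ α i β j, Bd D (mat ((ρ₁ (P α i β j))⁻¹ * pt h0 α i)) ∧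
      Bd D (mat ((ρ₂ (P α i β j))⁻¹ * pt h0 β j)) := fun α i β j =>
    hp _ _ (pt_mem h0 F₀ hϖ α i) (pt_mem h0 F₀ hϖ β j)
  set D₁ := D * ‖ϖ‖⁻¹ * D with hD₁
  have hD₁1 : 1 ≤ D₁ := one_le_mul_of_one_le_of_one_le (one_le_mul_of_one_le_of_one_le hD1
    ((one_le_inv₀ (norm_pos_iff.2 h0)).2 h1.le)) hD1
  have near : ∀ α β i j i' j', i ≤ i' + 1 → i' ≤ i + 1 → j ≤ j' + 1 → j' ≤ j + 1 →
      Bd D₁ (mat (ρ₁ ((P α i β j)⁻¹ * P α i' β j'))) ∧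
        Bd D₁ (mat (ρ₂ ((P α i β j)⁻¹ * P α i' β j'))) := by
    intro α β i j i' j' a1 a2 a3 a4
    constructor
    · have := ((hP0 α i β j).1.gmul (pt_near h0 h1 α a1 a2)).gmul (hP0 α i' β j').1.inv
      simpa only [_root_.mul_inv_rev, inv_inv, mul_assoc, mul_inv_cancel_left, map_mul,
        map_inv, hD₁] using this
    · have := ((hP0 α i β j).2.gmul (pt_near h0 h1 β a3 a4)).gmul (hP0 α i' β j').2.inv
      simpa only [_root_.mul_inv_rev, inv_inv, mul_assoc, mul_inv_cancel_left, map_mul,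
        map_inv, hD₁] using this
  set S := (proper D₁).toFinset with hS
  obtain ⟨K, hK⟩ : ∃ K, ∀ s ∈ S, ∀ e, ‖σ s e‖ ≤ K * ‖e‖ := by
    choose c hc using hσ
    obtain ⟨K, hK⟩ := (S.finite_toSet.image c).bddAbove
    exact ⟨K, fun s hs e => (hc s e).trans
      (mul_le_mul_of_nonneg_right (hK ⟨s, hs, rfl⟩) (norm_nonneg _))⟩
  obtain ⟨C₀, hnet⟩ := net
  choose m hm hm1 hm2 using hnet
  have hC₀ : 0 ≤ C₀ := (hm1 0).nonneg
  set C₁ := max (max (D₁ * C₀ * D₁) (|K| * C₀)) (D * 1 * D) with hC₁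
  have hC₁0 : 0 ≤ C₁ := le_max_of_le_right (by positivity)
  set B := ball hkF hkE C₁ hC₁0 with hB
  obtain ⟨Λ₀, hΛ₀, hΛ₀'⟩ := fin C₁
  obtain ⟨Z, hZ, hZ1, hZ2⟩ := cycles_fg hR act (M ⊓ B)
    (hΛ₀.of_le fun x hx => hΛ₀' x hx.1 hx.2.1 hx.2.2) S
  obtain ⟨C₂, hC₂, hC₂'⟩ := exists_bd _ (hZ.biUnion fun z hz =>
    (tr_finite ρ₁ ρ₂ proper act (hZ1 z hz).1 (hZ1 z hz).2).image
      fun γ => (tr act γ z (wind k ρ₁ ρ₂)).1)
  set C₃ := max (max C₂ (D * D)) (D₁ * D₁ * C₀ * (D₁ * D₁)) with hC₃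
  have hC₃1 : 1 ≤ C₃ := le_max_of_le_left (le_max_of_le_left hC₂)
  set W := ballW hkF C₃ (zero_le_one.trans hC₃1) with hW
  have hall : ∀ z ∈ Adm act (M ⊓ B) S, Cyc z → (z (wind k ρ₁ ρ₂)).1 ∈ W := by
    intro z hz hc
    refine (Submodule.span_le (p := W.comap (LinearMap.fst k _ _ ∘ₗ
      LinearMap.proj (wind k ρ₁ ρ₂)))).2 ?_ (hZ2 z hz hc)
    rintro _ ⟨γ, y, hy, rfl⟩
    show (tr act γ y (wind k ρ₁ ρ₂)).1 ∈ W
    by_cases h : tr act γ y (wind k ρ₁ ρ₂) = 0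
    · rw [h]
      exact W.zero_mem
    · exact (hC₂' _ (Set.mem_biUnion hy ⟨γ, h, rfl⟩)).mono
        (le_max_of_le_left (le_max_left _ _))
  obtain ⟨n, hn⟩ := exists_pow_lt_of_lt_one (inv_pos.2 (one_pos.trans_le hC₃1)) h1
  have hn0 : n ≠ 0 := by
    rintro rfl
    exact absurd (inv_le_one_of_one_le₀ hC₃1) (not_le.2 (by simpa using hn))
  have hn1 : C₃ < (‖ϖ‖ ^ n)⁻¹ :=
    (lt_inv_comm₀ (pow_pos (norm_pos_iff.2 h0) n) (one_pos.trans_le hC₃1)).1 hn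
  set w : Fin 3 → Fin 3 → Matrix (Fin 2) (Fin 2) F × E := fun α β =>
    ((ϖ ^ n)⁻¹ • vecMulVec (dir F α) (dir F β), 0) with hw
  have w1 : ∀ α, ∑ β, w α β = 0 := fun α => by
    ext a b <;> fin_cases α <;> try fin_cases a <;> fin_cases b
    all_goals simp [hw, dir, Fin.sum_univ_three]
  have w2 : ∀ β, ∑ α, w α β = 0 := fun β => by
    ext a b <;> fin_cases β <;> try fin_cases a <;> fin_cases b
    all_goals simp [hw, dir, Fin.sum_univ_three]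
  set d : Fin 3 → ℕ → Fin 3 → ℕ → Matrix (Fin 2) (Fin 2) F × E := fun α i β j =>
    act (P α i β j) (m (act (P α i β j)⁻¹ (w α β))) - w α β with hd
  have hd0 : ∀ α i β j, w α β + d α i β j ∈ M := fun α i β j => by
    simpa [hd] using hM _ _ (hm _)
  have hd1 : ∀ α i β j, act (P α i β j)⁻¹ (d α i β j) ∈ ball hkF hkE C₀ hC₀ := by
    intro α i β j
    have e : act (P α i β j)⁻¹ (d α i β j) =
        -(act (P α i β j)⁻¹ (w α β) - m (act (P α i β j)⁻¹ (w α β))) := by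
      simp only [hd, map_sub, ← act_mul, inv_mul_cancel, map_one, Module.End.one_apply, neg_sub]
    rw [e]
    exact neg_mem ⟨hm1 _, hm2 _⟩
  have hd2 : ∀ α β i j i' j', i ≤ i' + 1 → i' ≤ i + 1 → j ≤ j' + 1 → j' ≤ j + 1 →
      act (P α i' β j')⁻¹ (d α i β j) ∈ B := by
    intro α β i j i' j' a1 a2 a3 a4
    have h2 := near α β i' j' i j a2 a1 a4 a3
    obtain ⟨h3, h4⟩ := hd1 α i β j
    have e : act (P α i' β j')⁻¹ (d α i β j) =
        act ((P α i' β j')⁻¹ * P α i β j) (act (P α i β j)⁻¹ (d α i β j)) := by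
      rw [act_mul, act_inv]
    rw [e]
    refine ⟨((h2.1.mul h3).mul h2.2.tr).mono (le_max_of_le_left (le_max_left _ _)),
      (hK _ ((proper D₁).mem_toFinset.2 h2) _).trans (le_max_of_le_left (le_max_of_le_right ?_))⟩
    exact mul_le_mul (le_abs_self K) h4 (norm_nonneg _) (abs_nonneg K)
  have hw0 : ∀ α i β j, i = n ∨ j = n → act (P α i β j)⁻¹ (w α β) ∈ B := by
    intro α i β j h
    refine ⟨?_, by simpa [hact, actOf_apply, hw] using hC₁0⟩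
    have := (outer h0 h1 (hP0 α i β j).1 (hP0 α i β j).2 h).mono (le_max_right _ _ : _ ≤ C₁)
    simpa only [hact, actOf_apply, map_inv] using this
  have hP1 : ∀ α i β, P α i β 0 = P α i 0 0 := fun α i β => by simp only [hP, pt_zero]
  have hP2 : ∀ α β j, P α 0 β j = P 0 0 β j := fun α β j => by simp only [hP, pt_zero]
  have hH : ∀ α, ∀ i ∈ range n, _ := fun α i _ => strip act M B hM S hn0 (fun β j => P α i β j)
    (fun β j => P α (i + 1) β j) (w α) (d α i) (hP1 α i) (hP1 α (i + 1)) (w1 α) (hd0 α i)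
    (fun β j => (proper D₁).mem_toFinset.2 (near α β i j (i + 1) j (by omega) le_rfl (by omega)
      (by omega)))
    (fun β j j' a b => ⟨hd2 α β i j i j' (by omega) (by omega) a b,
      hd2 α β i j (i + 1) j' (by omega) le_rfl a b⟩)
    fun β => ⟨hw0 _ _ _ _ (Or.inr rfl), hw0 _ _ _ _ (Or.inr rfl)⟩
  have hV : ∀ β, ∀ j ∈ range n, _ := fun β j _ => strip act M B hM S hn0 (fun α i => P α i β j)
    (fun α i => P α i β (j + 1)) (fun α => w α β) (fun α i => d α i β j) (fun α => hP2 α β j)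
    (fun α => hP2 α β (j + 1)) (w2 β) (fun α i => hd0 α i β j)
    (fun α i => (proper D₁).mem_toFinset.2 (near α β i j i (j + 1) (by omega) (by omega)
      (by omega) le_rfl))
    (fun α i i' a b => ⟨hd2 α β i j i' j a b (by omega) (by omega),
      hd2 α β i j i' (j + 1) a b (by omega) le_rfl⟩)
    fun α => ⟨hw0 _ _ _ _ (Or.inl rfl), hw0 _ _ _ _ (Or.inl rfl)⟩
  have hz := hall _ (sub_mem (sum_mem fun α (_ : α ∈ univ) => sum_mem (hH α))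
    (sum_mem fun β (_ : β ∈ univ) => sum_mem (hV β))) fun f => by
      simp only [Pi.sub_apply, Finset.sum_apply]
      rw [reorder]
      refine sum_eq_zero fun α _ => sum_eq_zero fun i _ => sum_eq_zero fun β _ =>
        sum_eq_zero fun j _ => ?_
      rw [← sub_smul]
      convert zero_smul k _ using 2
      ring
  have side1 : ∀ (g : SL(2, F)) α, Bd D (mat (g⁻¹ * pt h0 α n)) →
      chi k g = if α ≠ 1 then 1 else 0 := by
    intro g α h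
    have e : chi k (pt h0 α n) = chi k g := by
      by_contra h'
      have h2 := pt_big h0 α hn0 (chi_ne hD1 (by simpa using h.inv) h')
      exact absurd (h2.trans (le_max_of_le_left (le_max_right _ _))) (not_le.2 hn1)
    rw [← e]
    by_cases h' : α = 1 <;> simp [chi, pt_sd h0 h1 _ hn0, h']
  have ms := main_sum (wind k ρ₁ ρ₂) n P w (fun α => if α ≠ 1 then 1 else 0)
    (fun γ => chi k (ρ₁ γ)) hP1 hP2 w1 w2
    (fun α β j => by rw [wind, side1 _ α (hP0 α n β j).1, side1 _ α (hP0 α n β (j + 1)).1]; simp)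
    (fun α i β => by rw [wind, side1 _ β (hP0 α i β n).2])
    fun α β => side1 _ α (hP0 α n β n).1
  have herr : (∑ α, ∑ i ∈ range n, ∑ β, ∑ j ∈ range n,
      ((wind k ρ₁ ρ₂ (P α i β j) (P α (i + 1) β j) -
        wind k ρ₁ ρ₂ (P α i β (j + 1)) (P α (i + 1) β (j + 1))) • d α i β j -
      (wind k ρ₁ ρ₂ (P α i β j) (P α i β (j + 1)) -
        wind k ρ₁ ρ₂ (P α (i + 1) β j) (P α (i + 1) β (j + 1))) • d α i β j)).1 ∈ W := by
    have hfst : ∀ x : Matrix (Fin 2) (Fin 2) F × E,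
        x ∈ W.comap (LinearMap.fst k (Matrix (Fin 2) (Fin 2) F) E) → x.1 ∈ W := fun _ h => h
    refine hfst _ ?_
    refine sum_mem fun α _ => sum_mem fun i _ => sum_mem fun β _ => sum_mem fun j _ => ?_
    rw [← sub_smul]
    by_cases h : wind k ρ₁ ρ₂ (P α i β j) (P α (i + 1) β j) -
        wind k ρ₁ ρ₂ (P α i β (j + 1)) (P α (i + 1) β (j + 1)) -
      (wind k ρ₁ ρ₂ (P α i β j) (P α i β (j + 1)) -
        wind k ρ₁ ρ₂ (P α (i + 1) β j) (P α (i + 1) β (j + 1))) = 0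
    · rw [h, zero_smul]
      exact zero_mem _
    · refine Submodule.smul_mem _ _ ?_
      have h2 := cell hD₁1 ρ₁ ρ₂ (near α β i j (i + 1) j (by omega) le_rfl (by omega) (by omega))
        (near α β i j i (j + 1) (by omega) (by omega) (by omega) le_rfl)
        (near α β i j (i + 1) (j + 1) (by omega) le_rfl (by omega) le_rfl).1 h
      rw [← act_inv act (P α i β j) (d α i β j)]
      exact ((h2.1.mul (hd1 α i β j).1).mul h2.2.tr).mono (le_max_right _ _)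
  rw [← reorder] at herr
  simp only [Pi.sub_apply, Finset.sum_apply, smul_add, sum_add_distrib] at hz
  rw [add_sub_add_comm, ms, Prod.fst_add] at hz
  have hfin := ((W.add_mem_iff_left herr).1 hz) 1 1
  refine absurd hfin (not_le.2 (hn1.trans_le (le_of_eq ?_)))
  simp [hw, dir, Fin.sum_univ_three]

end Pool.Agent.Lib.MP_5a5e3d_al.Ring
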